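import Pool.Agent.helper957_cox.AL1

set_option autoImplicit false
open scoped ContDiff Topology
open MeasureTheory

namespace Cox957

/-- pairs of vectors -/
abbrev XX (ι : Type) : Type := (ι → ℂ) × (ι → ℂ)

/-- the perturbed homotopy -/
noncomputable def Gt {ι : Type} [Fintype ι]
    (F : ℝ × ((ι → ℂ) × (ι → ℂ)) → (ι → ℂ) × (ι → ℂ)) (q0 q1 : (ι → ℂ) × (ι → ι → ℂ))
    (p : ℝ × ((ι → ℂ) × (ι → ℂ))) : (ι → ℂ) × (ι → ℂ) :=
  F p - ((1 - p.1) • Pt q0 p.2 + p.1 • Pt q1 p.2)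

theorem Gt_contDiff {ι : Type} [Fintype ι]
    (F : ℝ × ((ι → ℂ) × (ι → ℂ)) → (ι → ℂ) × (ι → ℂ)) (hF : ContDiff ℝ ∞ F)
    (q0 q1 : (ι → ℂ) × (ι → ι → ℂ)) : ContDiff ℝ ∞ (Gt F q0 q1) := by
  unfold Gt
  refine hF.sub (((contDiff_const.sub contDiff_fst).smul ((Pt_contDiff q0).comp contDiff_snd)).add
    (contDiff_fst.smul ((Pt_contDiff q1).comp contDiff_snd)))

theorem Gt_zero {ι : Type} [Fintype ι]
    (F : ℝ × ((ι → ℂ) × (ι → ℂ)) → (ι → ℂ) × (ι → ℂ)) (q0 q1 : (ι → ℂ) × (ι → ι → ℂ))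
    (x : (ι → ℂ) × (ι → ℂ)) : Gt F q0 q1 (0, x) = F (0, x) - Pt q0 x := by
  unfold Gt; simp

theorem Gt_one {ι : Type} [Fintype ι]
    (F : ℝ × ((ι → ℂ) × (ι → ℂ)) → (ι → ℂ) × (ι → ℂ)) (q0 q1 : (ι → ℂ) × (ι → ι → ℂ))
    (x : (ι → ℂ) × (ι → ℂ)) : Gt F q0 q1 (1, x) = F (1, x) - Pt q1 x := by
  unfold Gt; simp

/-- AL: the localization lemma. -/
theorem AL {ι : Type} [Fintype ι] [DecidableEq ι]
    (F : ℝ × ((ι → ℂ) × (ι → ℂ)) → (ι → ℂ) × (ι → ℂ)) (hF : ContDiff ℝ ∞ F)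
    (Z N : Set (ℝ × ((ι → ℂ) × (ι → ℂ)))) (hZ : IsCompact Z) (hN : IsOpen N) (hZN : Z ⊆ N)
    (hZ0 : ∀ p ∈ Z, F p = 0)
    (hz : ∀ p ∈ N, 0 ≤ p.1 → p.1 ≤ 1 → F p = 0 → p ∈ Z)
    (eq0 : ∀ s : ℂ, ‖s‖ = 1 → ∀ a b, F (0, a, s • b) = ((F (0, a, b)).1, s • (F (0, a, b)).2))
    (eq1 : ∀ s : ℂ, ‖s‖ = 1 → ∀ a b, F (1, a, s • b) = ((F (1, a, b)).1, s • (F (1, a, b)).2))
    (L1 L2 : (ι → ℂ) → ((ι → ℂ) →L[ℂ] (ι → ℂ)))
    (hL : ∀ a, HasFDerivAt (fun q : (ι → ℂ) × (ι → ℂ) => F (0, q))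
      (((L1 a).prodMap (L2 a)).restrictScalars ℝ) (a, 0))
    (hL2 : ContDiff ℝ ∞ (fun q : (ι → ℂ) × (ι → ℂ) => L2 q.1 q.2))
    (inj : ∀ a, ((0 : ℝ), (a, (0 : ι → ℂ))) ∈ Z → Function.Injective (L1 a))
    (hex : ∃ a, ((0 : ℝ), (a, (0 : ι → ℂ))) ∈ Z) :
    ∃ a, ((1 : ℝ), (a, (0 : ι → ℂ))) ∈ Z := by
  classical
  by_contra hno
  push Not at hno
  obtain ⟨a0, ha0⟩ := hex
  obtain ⟨ρ, A1, A2, hρ, hρ0, hA2c, hA2N, hZA1, hA12, hρ1, hρs⟩ := cutoff Z N hZ hN hZN
  have hρc : HasCompactSupport ρ := hA2c.of_isClosed_subset (isClosed_tsupport ρ) hρs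
  have hF0 : ContDiff ℝ ∞ (fun x : XX ι => F (0, x)) := hF.comp (contDiff_const.prodMk contDiff_id)
  have hF1 : ContDiff ℝ ∞ (fun x : XX ι => F (1, x)) := hF.comp (contDiff_const.prodMk contDiff_id)
  -- bound on the compact set
  obtain ⟨R, hR0, hR⟩ : ∃ R : ℝ, 0 ≤ R ∧ ∀ p ∈ A2, ‖p.2‖ ≤ R := by
    obtain ⟨R, hR⟩ := hA2c.isBounded.exists_norm_le
    refine ⟨max R 0, le_max_right _ _, fun p hp => ?_⟩
    exact ((norm_snd_le p).trans (hR p hp)).trans (le_max_left _ _)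
  set CR : ℝ := 1 + Fintype.card ι * R with hCR
  have hCRpos : 0 < CR := by
    have : (0:ℝ) ≤ Fintype.card ι := Nat.cast_nonneg _
    positivity
  -- δ0
  obtain ⟨δ0, hδ0, hb0⟩ := lower (A2 ∩ (interior A1)ᶜ ∩ {p : ℝ × XX ι | 0 ≤ p.1 ∧ p.1 ≤ 1})
    ((hA2c.inter_right isOpen_interior.isClosed_compl).inter_right
      ((isClosed_le continuous_const continuous_fst).inter
        (isClosed_le continuous_fst continuous_const))) F hF.continuous (by
      rintro p ⟨⟨hp1, hp2⟩, hp3, hp4⟩ h0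
      exact hp2 (hZA1 (hz p (hA2N hp1) hp3 hp4 h0)))
  -- δ1
  obtain ⟨δ1, hδ1, hb1⟩ := lower (A2 ∩ {p : ℝ × XX ι | p.1 = 1 ∧ p.2.2 = 0})
    (hA2c.inter_right ((isClosed_eq continuous_fst continuous_const).inter
      (isClosed_eq (continuous_snd.comp continuous_snd) continuous_const))) F hF.continuous (by
      rintro ⟨θ, a, b⟩ ⟨hp1, hp2, hp3⟩ h0
      simp only at hp2 hp3
      subst hp2; subst hp3
      exact hno a (hz _ (hA2N hp1) zero_le_one le_rfl h0))
  -- continuity of the determinant of L1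
  have hL1app : ∀ a x, L1 a x = (fderiv ℝ (fun q : XX ι => F (0, q)) (a, 0) (x, 0)).1 := by
    intro a x
    rw [(hL a).fderiv]
    simp
  have hL1c : Continuous (fun a => LinearMap.det ((L1 a : (ι → ℂ) →L[ℂ] (ι → ℂ)) :
      (ι → ℂ) →ₗ[ℂ] (ι → ℂ))) := by
    have h1 : ∀ a, LinearMap.det ((L1 a : (ι → ℂ) →L[ℂ] (ι → ℂ)) : (ι → ℂ) →ₗ[ℂ] (ι → ℂ)) =
        (LinearMap.toMatrix' ((L1 a : (ι → ℂ) →L[ℂ] (ι → ℂ)) : (ι → ℂ) →ₗ[ℂ] (ι → ℂ))).det := by
      intro a
      rw [LinearMap.det_toMatrix']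
    simp only [h1]
    apply Continuous.matrix_det
    apply continuous_matrix
    intro i j
    simp only [LinearMap.toMatrix'_apply, ContinuousLinearMap.coe_coe, hL1app]
    have h2 : Continuous (fderiv ℝ (fun q : XX ι => F (0, q))) := hF0.continuous_fderiv (by simp)
    have h3 : Continuous (fun a : ι → ℂ => ((a, 0) : XX ι)) := by fun_prop
    have h4 := (h2.comp h3).clm_apply (continuous_const (y := (((Pi.single j 1 :
      ι → ℂ), (0 : ι → ℂ)) : XX ι)))
    exact (continuous_apply i).comp (continuous_fst.comp h4)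
  have hinjdet : ∀ a, Function.Injective (L1 a) ↔ LinearMap.det
      ((L1 a : (ι → ℂ) →L[ℂ] (ι → ℂ)) : (ι → ℂ) →ₗ[ℂ] (ι → ℂ)) ≠ 0 := by
    intro a
    constructor
    · intro h h0
      have h2 := LinearMap.bot_lt_ker_of_det_eq_zero h0
      have h3 : LinearMap.ker ((L1 a : (ι → ℂ) →L[ℂ] (ι → ℂ)) : (ι → ℂ) →ₗ[ℂ] (ι → ℂ)) = ⊥ :=
        LinearMap.ker_eq_bot.mpr h
      rw [h3] at h2
      exact lt_irrefl _ h2
    · intro h
      have e : ∀ x, (LinearMap.equivOfDetNeZero _ h) x = L1 a x := by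
        intro x
        simp
      intro x y hxy
      apply (LinearMap.equivOfDetNeZero _ h).injective
      rw [e, e]
      exact hxy
  -- δ3
  obtain ⟨δ3, hδ3, hb3⟩ := lower (A2 ∩ {p : ℝ × XX ι | p.1 = 0 ∧ p.2.2 = 0 ∧ LinearMap.det
      ((L1 p.2.1 : (ι → ℂ) →L[ℂ] (ι → ℂ)) : (ι → ℂ) →ₗ[ℂ] (ι → ℂ)) = 0})
    (hA2c.inter_right ((isClosed_eq continuous_fst continuous_const).inter
      ((isClosed_eq (continuous_snd.comp continuous_snd) continuous_const).inter
      (isClosed_eq (hL1c.comp (continuous_fst.comp continuous_snd)) continuous_const))))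
      F hF.continuous (by
      rintro ⟨θ, a, b⟩ ⟨hp1, hp2, hp3, hp4⟩ h0
      simp only at hp2 hp3 hp4
      subst hp2; subst hp3
      have := inj a (hz _ (hA2N hp1) le_rfl zero_le_one h0)
      exact (hinjdet a).mp this hp4)
  -- local surjectivity
  obtain ⟨r0, hr0, hsurj⟩ : ∃ r0 : ℝ, 0 < r0 ∧ ∀ ε : ι → ℂ, ‖ε‖ < r0 →
      ∃ a, ((0 : ℝ), (a, (0 : ι → ℂ))) ∈ interior A1 ∧ (F (0, a, 0)).1 = ε := by
    have hfa : ContDiff ℝ ∞ (fun a : ι → ℂ => (F (0, a, 0)).1) :=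
      contDiff_fst.comp (hF0.comp (contDiff_id.prodMk contDiff_const))
    have hd : HasFDerivAt (fun a : ι → ℂ => (F (0, a, 0)).1) ((L1 a0).restrictScalars ℝ) a0 := by
      have h1 : HasFDerivAt (fun a : ι → ℂ => ((a, 0) : XX ι))
          (ContinuousLinearMap.inl ℝ (ι → ℂ) (ι → ℂ)) a0 :=
        (hasFDerivAt_id a0).prodMk (hasFDerivAt_const (0 : ι → ℂ) a0)
      have h2 := (hL a0).comp a0 h1
      have h3 := (ContinuousLinearMap.fst ℝ (ι → ℂ) (ι → ℂ)).hasFDerivAt.comp a0 h2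
      refine h3.congr_fderiv ?_
      apply ContinuousLinearMap.ext
      intro y
      simp
    have hsd : HasStrictFDerivAt (fun a : ι → ℂ => (F (0, a, 0)).1)
        ((L1 a0).restrictScalars ℝ) a0 :=
      (hfa.contDiffAt).hasStrictFDerivAt' hd (by simp)
    have hsurjL : Function.Surjective (L1 a0) := by
      have h1 := inj a0 ha0
      have h2 : Function.Injective ((L1 a0 : (ι → ℂ) →L[ℂ] (ι → ℂ)) : (ι → ℂ) →ₗ[ℂ] (ι → ℂ)) := h1
      exact LinearMap.injective_iff_surjective.mp h2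
    have hmap := hsd.map_nhds_eq_of_surj (LinearMap.range_eq_top.mpr hsurjL)
    have hW : {a : ι → ℂ | ((0 : ℝ), (a, (0 : ι → ℂ))) ∈ interior A1} ∈ 𝓝 a0 := by
      have hc : Continuous (fun a : ι → ℂ => (((0 : ℝ), (a, (0 : ι → ℂ))) : ℝ × XX ι)) := by fun_prop
      exact (isOpen_interior.preimage hc).mem_nhds (hZA1 ha0)
    have hval : (F (0, a0, 0)).1 = 0 := by rw [hZ0 _ ha0]; rfl
    have h4 : (fun a : ι → ℂ => (F (0, a, 0)).1) ''
        {a : ι → ℂ | ((0 : ℝ), (a, (0 : ι → ℂ))) ∈ interior A1} ∈ 𝓝 (0 : ι → ℂ) := by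
      have hmap' : Filter.map (fun a : ι → ℂ => (F (0, a, 0)).1) (𝓝 a0) = 𝓝 (0 : ι → ℂ) :=
        hmap.trans (congrArg 𝓝 hval)
      rw [← hmap']
      exact Filter.image_mem_map hW
    obtain ⟨r0, hr0, hb⟩ := Metric.mem_nhds_iff.mp h4
    refine ⟨r0, hr0, fun ε hε => ?_⟩
    obtain ⟨a, h5, h6⟩ := hb (by simpa using hε : ε ∈ Metric.ball 0 r0)
    exact ⟨a, h5, h6⟩
  -- choice of the parameters
  set r : ℝ := min (min (δ0 / (2 * CR)) r0) (min δ1 δ3) with hr
  have hrpos : 0 < r := by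
    simp only [hr, lt_min_iff]
    exact ⟨⟨by positivity, hr0⟩, hδ1, hδ3⟩
  have hcd1 : ∀ {f : XX ι → XX ι}, ContDiff ℝ ∞ f → ContDiff ℝ 1 f := fun h => h.of_le (by
    exact_mod_cast le_top)
  obtain ⟨q1, hq1, hq1B⟩ := pick _ (SL (fun a b => (F (1, a, b)).1) (fun a b => (F (1, a, b)).2)
    (contDiff_fst.comp (hcd1 hF1)) (contDiff_snd.comp (hcd1 hF1))
    (fun s hs a b => by rw [eq1 s hs]) (fun s hs a b => by rw [eq1 s hs])) r hrpos
  have hB0 := SL (fun a b => (F (0, a, b)).1) (fun a b => (F (0, a, b)).2)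
    (contDiff_fst.comp (hcd1 hF0)) (contDiff_snd.comp (hcd1 hF0))
    (fun s hs a b => by rw [eq0 s hs]) (fun s hs a b => by rw [eq0 s hs])
  have hBh := SL (fun a _ => (F (0, a, 0)).1) (fun a b => L2 a b)
    (contDiff_fst.comp ((hcd1 hF0).comp (contDiff_fst.prodMk contDiff_const)))
    (hL2.of_le (by exact_mod_cast le_top))
    (fun s hs a b => rfl) (fun s hs a b => map_smul _ _ _)
  obtain ⟨q0, hq0, hq0B⟩ := pick _ (measure_union_null hB0 hBh) r hrpos
  rw [Set.mem_union, not_or] at hq0B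
  set G := Gt F q0 q1 with hG
  have hGc : ContDiff ℝ ∞ G := Gt_contDiff F hF q0 q1
  have hrCR : CR * r ≤ δ0 / 2 := by
    have h1 : r ≤ δ0 / (2 * CR) := (min_le_left _ _).trans (min_le_left _ _)
    calc CR * r ≤ CR * (δ0 / (2 * CR)) := by gcongr
      _ = δ0 / 2 := by field_simp
  have hGF : ∀ p ∈ A2, 0 ≤ p.1 → p.1 ≤ 1 → ‖F p‖ - δ0 / 2 ≤ ‖G p‖ := by
    intro p hp h0 h1
    have e1 : ‖(1 - p.1) • Pt q0 p.2 + p.1 • Pt q1 p.2‖ ≤ δ0 / 2 := by
      calc ‖(1 - p.1) • Pt q0 p.2 + p.1 • Pt q1 p.2‖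
          ≤ ‖(1 - p.1) • Pt q0 p.2‖ + ‖p.1 • Pt q1 p.2‖ := norm_add_le _ _
        _ = (1 - p.1) * ‖Pt q0 p.2‖ + p.1 * ‖Pt q1 p.2‖ := by
            rw [norm_smul, norm_smul, Real.norm_eq_abs, Real.norm_eq_abs, abs_of_nonneg h0,
              abs_of_nonneg (by linarith)]
        _ ≤ (1 - p.1) * (CR * r) + p.1 * (CR * r) := by
            have m0 : ‖Pt q0 p.2‖ ≤ CR * r :=
              (Pt_norm q0 p.2 R hR0 (hR p hp)).trans (by gcongr)
            have m1 : ‖Pt q1 p.2‖ ≤ CR * r :=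
              (Pt_norm q1 p.2 R hR0 (hR p hp)).trans (by gcongr)
            have : 0 ≤ 1 - p.1 := by linarith
            gcongr
        _ = CR * r := by ring
        _ ≤ δ0 / 2 := hrCR
    have e2 : ‖F p‖ ≤ ‖G p‖ + ‖(1 - p.1) • Pt q0 p.2 + p.1 • Pt q1 p.2‖ := by
      have : F p = G p + ((1 - p.1) • Pt q0 p.2 + p.1 • Pt q1 p.2) := by
        rw [hG]; unfold Gt; abel
      rw [this]
      exact norm_add_le _ _
    linarith
  -- no zero at time one
  obtain ⟨δ2, hδ2, hb2⟩ := lower (A2 ∩ {p : ℝ × XX ι | p.1 = 1})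
    (hA2c.inter_right (isClosed_eq continuous_fst continuous_const)) G hGc.continuous (by
      rintro ⟨θ, a, b⟩ ⟨hp1, hp2⟩ h0
      simp only [Set.mem_ofPred_eq] at hp2
      subst hp2
      rw [hG, Gt_one, sub_eq_zero] at h0
      have h1 : (F (1, a, b)).1 = q1.1 := by rw [h0]; rfl
      have h2 : (F (1, a, b)).2 = ∑ k, b k • q1.2 k := by rw [h0, ← Hm_apply]; rfl
      by_cases hb : b = 0
      · subst hb
        have h3 := hb1 (1, a, 0) ⟨hp1, rfl, rfl⟩
        have h4 : F (1, a, 0) = (q1.1, 0) := by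
          apply Prod.ext
          · exact h1
          · rw [h2]; simp
        rw [h4] at h3
        have h5 : ‖((q1.1, 0) : XX ι)‖ ≤ ‖q1‖ := by
          rw [Prod.norm_def]
          apply max_le
          · exact norm_fst_le q1
          · simp
        have h6 : r ≤ δ1 := (min_le_right _ _).trans (min_le_left _ _)
        linarith
      · exact hq1B ⟨a, b, hb, h1, h2⟩)
  -- derivative of G at time zero
  have hG0c : ContDiff ℝ ∞ (fun x : XX ι => G (0, x)) :=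
    hGc.comp (contDiff_const.prodMk contDiff_id)
  have hG0d : ∀ a, fderiv ℝ (fun x : XX ι => G (0, x)) (a, 0) =
      ((L1 a).prodMap (L2 a - Hm q0.2)).restrictScalars ℝ := by
    intro a
    have h1 : (fun x : XX ι => G (0, x)) = fun x => F (0, x) - Pt q0 x := by
      funext x
      rw [hG, Gt_zero]
    rw [h1]
    have h2 := ((hL a).sub (Pt_deriv q0 (a, 0))).fderiv
    have h3 : fderiv ℝ (fun x : XX ι => F (0, x) - Pt q0 x) (a, 0) = _ := h2
    rw [h3]
    apply ContinuousLinearMap.ext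
    intro y
    apply Prod.ext
    · simp
    · simp
  have hzero0 : ∀ x : XX ι, ((0 : ℝ), x) ∈ A2 → G (0, x) = 0 → x.2 = 0 ∧
      0 < (fderiv ℝ (fun x : XX ι => G (0, x)) x).det := by
    rintro ⟨a, b⟩ hx h0
    rw [hG, Gt_zero, sub_eq_zero] at h0
    have h1 : (F (0, a, b)).1 = q0.1 := by rw [h0]; rfl
    have h2 : (F (0, a, b)).2 = ∑ k, b k • q0.2 k := by rw [h0, ← Hm_apply]; rfl
    have hb : b = 0 := by
      by_contra hb
      exact hq0B.1 ⟨a, b, hb, h1, h2⟩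
    subst hb
    refine ⟨rfl, ?_⟩
    rw [hG0d a]
    apply det_pos
    have hi1 : Function.Injective (L1 a) := by
      rw [hinjdet]
      intro hdet
      have h3 := hb3 (0, a, 0) ⟨hx, rfl, rfl, hdet⟩
      have h4 : F (0, a, 0) = (q0.1, 0) := by
        apply Prod.ext
        · exact h1
        · rw [h2]; simp
      rw [h4] at h3
      have h5 : ‖((q0.1, 0) : XX ι)‖ ≤ ‖q0‖ := by
        rw [Prod.norm_def]
        apply max_le
        · exact norm_fst_le q0
        · simp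
      have h6 : r ≤ δ3 := (min_le_right _ _).trans (min_le_right _ _)
      linarith
    have hi2 : Function.Injective (L2 a - Hm q0.2) := by
      rw [injective_iff_map_eq_zero]
      intro y hy
      by_contra hy0
      apply hq0B.2
      refine ⟨a, y, hy0, h1, ?_⟩
      rw [← Hm_apply]
      exact sub_eq_zero.mp hy
    rintro ⟨x1, x2⟩ ⟨y1, y2⟩ hxy
    have e1 := congrArg Prod.fst hxy
    have e2 := congrArg Prod.snd hxy
    exact Prod.ext (hi1 e1) (hi2 e2)
  have hdetc : Continuous (fun x : XX ι => (fderiv ℝ (fun x : XX ι => G (0, x)) x).det) :=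
    ContinuousLinearMap.continuous_det.comp (hG0c.continuous_fderiv (by simp))
  obtain ⟨δ4, hδ4, hb4⟩ := lower (A2 ∩ {p : ℝ × XX ι | p.1 = 0 ∧
      (fderiv ℝ (fun x : XX ι => G (0, x)) p.2).det ≤ 0})
    (hA2c.inter_right ((isClosed_eq continuous_fst continuous_const).inter
      (isClosed_le (hdetc.comp continuous_snd) continuous_const))) G hGc.continuous (by
      rintro ⟨θ, x⟩ ⟨hp1, hp2, hp3⟩ h0
      simp only at hp2 hp3
      subst hp2
      exact absurd (hzero0 x hp1 h0).2 (not_lt.mpr hp3))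
  -- the zero at time zero
  obtain ⟨a1, ha1, hFa1⟩ := hsurj q0.1 (by
    have h1 : r ≤ r0 := (min_le_left _ _).trans (min_le_right _ _)
    exact (norm_fst_le q0).trans_lt (hq0.trans_le h1))
  have hFb0 : ∀ a, (F (0, a, 0)).2 = 0 := by
    intro a
    have h1 := eq0 (-1) (by simp) a 0
    rw [smul_zero] at h1
    have h2 := congrArg Prod.snd h1
    simp only at h2
    have h3 : (2 : ℂ) • (F (0, a, 0)).2 = 0 := by
      rw [two_smul]
      nth_rewrite 1 [h2]
      simp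
    exact (smul_eq_zero.mp h3).resolve_left two_ne_zero
  have hG1 : G (0, (a1, 0)) = 0 := by
    rw [hG, Gt_zero, sub_eq_zero]
    apply Prod.ext
    · exact hFa1
    · rw [hFb0]
      show 0 = Hm q0.2 0
      rw [map_zero]
  -- the bump
  set δ : ℝ := min (min (δ0 / 2) δ2) δ4 with hδ
  have hδpos : 0 < δ := by
    simp only [hδ, lt_min_iff]
    exact ⟨⟨by positivity, hδ2⟩, hδ4⟩
  let bp : ContDiffBump (0 : XX ι) := ⟨δ / 4, δ / 2, by positivity, by linarith⟩
  have hbp : ∀ y : XX ι, bp y ≠ 0 → ‖y‖ < δ := by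
    intro y hy
    have h1 : y ∈ Function.support bp := hy
    rw [bp.support_eq, mem_ball_zero_iff] at h1
    have : bp.rOut = δ / 2 := rfl
    rw [this] at h1
    linarith
  let e : XX ι ≃L[ℝ] (Fin (Module.finrank ℝ (XX ι)) → ℝ) :=
    ContinuousLinearEquiv.ofFinrankEq (by simp)
  have key := IL e G hGc ρ hρ hρc (fun y => bp y) bp.contDiff (by
    intro θ hθ x hφ
    by_contra hne
    have h1 : ((θ, x) : ℝ × XX ι) ∈ tsupport ρ := by
      apply tsupport_fderiv_subset ℝ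
      exact subset_tsupport _ hne
    have h2 : ((θ, x) : ℝ × XX ι) ∉ interior A1 := by
      intro h3
      apply hne
      have h4 : ρ =ᶠ[𝓝 (θ, x)] fun _ => (1 : ℝ) := by
        filter_upwards [isOpen_interior.mem_nhds h3] with y hy
        exact hρ1 y (interior_subset hy)
      rw [h4.fderiv_eq]
      exact fderiv_const_apply _
    have h5 := hb0 (θ, x) ⟨⟨hρs h1, h2⟩, hθ.1, hθ.2⟩
    have h6 := hGF (θ, x) (hρs h1) hθ.1 hθ.2
    have h7 := hbp _ hφ
    have h8 : δ ≤ δ0 / 2 := (min_le_left _ _).trans (min_le_left _ _)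
    linarith)
  -- the integral at time one vanishes
  have hI1 : ∫ y : Fin (Module.finrank ℝ (XX ι)) → ℝ, ρ (1, e.symm y) * bp (G (1, e.symm y)) *
        (fderiv ℝ (fun x => G (1, x)) (e.symm y)).det = 0 := by
    rw [← integral_zero (Fin (Module.finrank ℝ (XX ι)) → ℝ) ℝ]
    congr 1
    funext y
    by_cases h1 : ρ (1, e.symm y) = 0
    · rw [h1]; simp
    · have h2 : ((1 : ℝ), e.symm y) ∈ A2 := hρs (subset_tsupport _ h1)
      have h3 := hb2 (1, e.symm y) ⟨h2, rfl⟩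
      have h4 : bp (G (1, e.symm y)) = 0 := by
        by_contra h5
        have h6 := hbp _ h5
        have h8 : δ ≤ δ2 := (min_le_left _ _).trans (min_le_right _ _)
        linarith
      rw [h4]; simp
  -- the integral at time zero is positive
  have hI0 : 0 < ∫ y : Fin (Module.finrank ℝ (XX ι)) → ℝ, ρ (0, e.symm y) * bp (G (0, e.symm y)) *
        (fderiv ℝ (fun x => G (0, x)) (e.symm y)).det := by
    have hρ0c : Continuous (fun y : Fin (Module.finrank ℝ (XX ι)) → ℝ => ρ (0, e.symm y)) :=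
      hρ.continuous.comp (continuous_const.prodMk e.symm.continuous)
    have hcont : Continuous (fun y : Fin (Module.finrank ℝ (XX ι)) → ℝ =>
        ρ (0, e.symm y) * bp (G (0, e.symm y)) *
        (fderiv ℝ (fun x => G (0, x)) (e.symm y)).det) :=
      (hρ0c.mul (bp.continuous.comp (hG0c.continuous.comp e.symm.continuous))).mul
        (hdetc.comp e.symm.continuous)
    refine Continuous.integral_pos_of_hasCompactSupport_nonneg_nonzero hcont ?_ ?_
      (x := e (a1, 0)) ?_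
    · have hcs : HasCompactSupport (fun y : Fin (Module.finrank ℝ (XX ι)) → ℝ => ρ (0, e.symm y)) := by
        have hK : IsCompact (e '' (Prod.snd '' A2)) := (hA2c.image continuous_snd).image e.continuous
        refine HasCompactSupport.intro hK ?_
        intro y hy
        by_contra h1
        apply hy
        refine ⟨e.symm y, ⟨(0, e.symm y), hρs (subset_tsupport _ h1), rfl⟩, by simp⟩
      exact hcs.mul_right.mul_right
    · intro y
      show 0 ≤ ρ (0, e.symm y) * bp (G (0, e.symm y)) *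
        (fderiv ℝ (fun x => G (0, x)) (e.symm y)).det
      by_cases h1 : ρ (0, e.symm y) = 0
      · rw [h1]; simp
      by_cases h5 : bp (G (0, e.symm y)) = 0
      · rw [h5]; simp
      have h2 : ((0 : ℝ), e.symm y) ∈ A2 := hρs (subset_tsupport _ h1)
      have h6 := hbp _ h5
      have h7 : 0 < (fderiv ℝ (fun x => G (0, x)) (e.symm y)).det := by
        by_contra h8
        have h9 := hb4 (0, e.symm y) ⟨h2, rfl, not_lt.mp h8⟩
        have h10 : δ ≤ δ4 := min_le_right _ _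
        linarith
      exact mul_nonneg (mul_nonneg (hρ0 _) bp.nonneg) h7.le
    · have hA : ((0 : ℝ), ((a1, 0) : XX ι)) ∈ A2 := hA12 (interior_subset ha1)
      have h7 := (hzero0 (a1, 0) hA hG1).2
      have h8 : ρ (0, (a1, 0)) = 1 := hρ1 _ (interior_subset ha1)
      have h9 : bp (0 : XX ι) = 1 := bp.one_of_mem_closedBall (by simp [bp]; positivity)
      simp only [ContinuousLinearEquiv.symm_apply_apply]
      rw [h8, hG1, h9]
      simp only [one_mul]
      exact h7.ne'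
  rw [hI1] at key
  linarith

end Cox957
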