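import Pool.Agent.helper957_cox.Base

set_option autoImplicit false
open scoped ContDiff
open MeasureTheory

namespace Cox957

/-- the Sard map -/
noncomputable def Th {ι : Type} [Fintype ι] [DecidableEq ι]
    (Fa Fb : (ι → ℂ) → (ι → ℂ) → (ι → ℂ)) (i : ι) (q : (ι → ℂ) × (ι → ι → ℂ)) :
    (ι → ℂ) × (ι → ι → ℂ) :=
  (Fa q.1 (q.2 i), fun j => if j = i then
    (q.2 i i)⁻¹ • (Fb q.1 (q.2 i) - ∑ k ∈ Finset.univ.erase i, q.2 i k • q.2 k) else q.2 j)

theorem Th_diff {ι : Type} [Fintype ι] [DecidableEq ι]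
    (Fa Fb : (ι → ℂ) → (ι → ℂ) → (ι → ℂ))
    (ha : ContDiff ℝ 1 (fun p : (ι → ℂ) × (ι → ℂ) => Fa p.1 p.2))
    (hb : ContDiff ℝ 1 (fun p : (ι → ℂ) × (ι → ℂ) => Fb p.1 p.2)) (i : ι)
    (q : (ι → ℂ) × (ι → ι → ℂ)) (hq : q.2 i i ≠ 0) : DifferentiableAt ℝ (Th Fa Fb i) q := by
  have hcol : ∀ j, DifferentiableAt ℝ (fun q : (ι → ℂ) × (ι → ι → ℂ) => q.2 j) q := fun j =>
    (differentiableAt_pi.mp differentiableAt_snd) j
  have hent : ∀ j k, DifferentiableAt ℝ (fun q : (ι → ℂ) × (ι → ι → ℂ) => q.2 j k) q := fun j k =>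
    (differentiableAt_pi.mp (hcol j)) k
  have hpair : DifferentiableAt ℝ (fun q : (ι → ℂ) × (ι → ι → ℂ) => (q.1, q.2 i)) q :=
    differentiableAt_fst.prodMk (hcol i)
  have h1 : DifferentiableAt ℝ (fun q : (ι → ℂ) × (ι → ι → ℂ) => Fa q.1 (q.2 i)) q :=
    DifferentiableAt.comp q (g := fun p : (ι → ℂ) × (ι → ℂ) => Fa p.1 p.2)
      ((ha.differentiable one_ne_zero) (q.1, q.2 i)) hpair
  have h2 : DifferentiableAt ℝ (fun q : (ι → ℂ) × (ι → ι → ℂ) => Fb q.1 (q.2 i)) q :=
    DifferentiableAt.comp q (g := fun p : (ι → ℂ) × (ι → ℂ) => Fb p.1 p.2)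
      ((hb.differentiable one_ne_zero) (q.1, q.2 i)) hpair
  have h3 : DifferentiableAt ℝ (fun q : (ι → ℂ) × (ι → ι → ℂ) =>
      ∑ k ∈ Finset.univ.erase i, q.2 i k • q.2 k) q :=
    DifferentiableAt.fun_sum fun k _ => (hent i k).smul (hcol k)
  unfold Th
  apply h1.prodMk
  rw [differentiableAt_pi]
  intro j
  by_cases hj : j = i
  · simp only [if_pos hj]
    exact (DifferentiableAt.inv (hent i i) hq).smul (h2.sub h3)
  · simp only [if_neg hj]
    exact hcol j

theorem Th_inv {ι : Type} [Fintype ι] [DecidableEq ι]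
    (Fa Fb : (ι → ℂ) → (ι → ℂ) → (ι → ℂ))
    (ea : ∀ (s : ℂ), ‖s‖ = 1 → ∀ a b, Fa a (s • b) = Fa a b)
    (eb : ∀ (s : ℂ), ‖s‖ = 1 → ∀ a b, Fb a (s • b) = s • Fb a b) (i : ι)
    (q : (ι → ℂ) × (ι → ι → ℂ)) (c : ℂ) (hc : ‖c‖ = 1) :
    Th Fa Fb i (q.1, Function.update q.2 i (c • q.2 i)) = Th Fa Fb i q := by
  have hc0 : c ≠ 0 := by
    intro h; rw [h, norm_zero] at hc; exact zero_ne_one hc
  unfold Th
  apply Prod.ext
  · simp only [Function.update_self]
    exact ea c hc _ _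
  · funext j
    by_cases hj : j = i
    · subst hj
      simp only [Function.update_self, if_true]
      rw [eb c hc]
      have h1 : ∑ k ∈ Finset.univ.erase j, (c • q.2 j) k • Function.update q.2 j (c • q.2 j) k =
          c • ∑ k ∈ Finset.univ.erase j, q.2 j k • q.2 k := by
        rw [Finset.smul_sum]
        apply Finset.sum_congr rfl
        intro k hk
        rw [Function.update_of_ne (Finset.ne_of_mem_erase hk), Pi.smul_apply, smul_assoc]
      rw [h1, ← smul_sub, smul_smul]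
      congr 1
      rw [Pi.smul_apply, smul_eq_mul, mul_inv, mul_comm c⁻¹, mul_assoc, inv_mul_cancel₀ hc0,
        mul_one]
    · simp only [if_neg hj, Function.update_of_ne hj]

theorem Th_det {ι : Type} [Fintype ι] [DecidableEq ι]
    (Fa Fb : (ι → ℂ) → (ι → ℂ) → (ι → ℂ))
    (ha : ContDiff ℝ 1 (fun p : (ι → ℂ) × (ι → ℂ) => Fa p.1 p.2))
    (hb : ContDiff ℝ 1 (fun p : (ι → ℂ) × (ι → ℂ) => Fb p.1 p.2))
    (ea : ∀ (s : ℂ), ‖s‖ = 1 → ∀ a b, Fa a (s • b) = Fa a b)
    (eb : ∀ (s : ℂ), ‖s‖ = 1 → ∀ a b, Fb a (s • b) = s • Fb a b) (i : ι)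
    (q : (ι → ℂ) × (ι → ι → ℂ)) (hq : q.2 i i ≠ 0) : (fderiv ℝ (Th Fa Fb i) q).det = 0 := by
  by_contra hdet
  have hinj : Function.Injective (fderiv ℝ (Th Fa Fb i) q) := by
    have h1 : LinearMap.det ((fderiv ℝ (Th Fa Fb i) q).toLinearMap) ≠ 0 := hdet
    have : Function.Injective (LinearMap.equivOfDetNeZero _ h1) := LinearEquiv.injective _
    have e : ∀ x, (LinearMap.equivOfDetNeZero _ h1) x = fderiv ℝ (Th Fa Fb i) q x := by
      intro x
      simp
    intro x y hxy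
    apply this
    rw [e, e]
    exact hxy
  let γ : ℝ → (ι → ℂ) × (ι → ι → ℂ) := fun τ =>
    (q.1, Function.update q.2 i (Complex.exp (τ * Complex.I) • q.2 i))
  have hγ0 : γ 0 = q := by
    simp only [γ]
    apply Prod.ext
    · rfl
    · simp
  have hexp : HasDerivAt (fun τ : ℝ => Complex.exp (τ * Complex.I)) Complex.I 0 := by
    have h1 : HasDerivAt (fun τ : ℝ => (τ : ℂ) * Complex.I) Complex.I 0 := by
      have := (Complex.ofRealCLM.hasDerivAt (x := (0 : ℝ))).mul_const Complex.I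
      simpa using this
    have := h1.cexp
    simpa using this
  have hγ : HasDerivAt γ (0, Function.update 0 i (Complex.I • q.2 i)) 0 := by
    apply HasDerivAt.prodMk
    · exact hasDerivAt_const _ _
    · rw [hasDerivAt_pi]
      intro j
      by_cases hj : j = i
      · subst hj
        simp only [Function.update_self]
        exact hexp.smul_const (q.2 j)
      · simp only [Function.update_of_ne hj]
        exact hasDerivAt_const _ _
  have hcomp : HasDerivAt (Th Fa Fb i ∘ γ)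
      (fderiv ℝ (Th Fa Fb i) q (0, Function.update 0 i (Complex.I • q.2 i))) 0 := by
    have h1 : HasFDerivAt (Th Fa Fb i) (fderiv ℝ (Th Fa Fb i) q) (γ 0) := by
      rw [hγ0]
      exact (Th_diff Fa Fb ha hb i q hq).hasFDerivAt
    exact h1.comp_hasDerivAt 0 hγ
  have hconst : (Th Fa Fb i ∘ γ) = fun _ => Th Fa Fb i q := by
    funext τ
    exact Th_inv Fa Fb ea eb i q _ (Complex.norm_exp_ofReal_mul_I τ)
  rw [hconst] at hcomp
  have h0 := hcomp.unique (hasDerivAt_const (0 : ℝ) (Th Fa Fb i q))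
  have h1 : ((0 : ι → ℂ), Function.update (0 : ι → ι → ℂ) i (Complex.I • q.2 i)) = 0 := by
    apply hinj
    rw [h0, map_zero]
  have h2 := congrFun (congrFun (congrArg Prod.snd h1) i) i
  simp only [Function.update_self, Pi.smul_apply, smul_eq_mul, Prod.snd_zero, Pi.zero_apply] at h2
  rcases mul_eq_zero.mp h2 with h | h
  · exact Complex.I_ne_zero h
  · exact hq h

theorem vol_haar {ι : Type} [Fintype ι] :
    (volume : Measure ((ι → ℂ) × (ι → ι → ℂ))).IsAddHaarMeasure := by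
  have i2 : (volume : Measure (ι → ι → ℂ)).IsAddHaarMeasure :=
    MeasureTheory.Measure.pi.isAddHaarMeasure _
  exact MeasureTheory.Measure.prod.instIsAddHaarMeasure _ _

/-- SL: for almost all parameters an equivariant map has no zero off the fixed set. -/
theorem SL {ι : Type} [Fintype ι] [DecidableEq ι]
    (Fa Fb : (ι → ℂ) → (ι → ℂ) → (ι → ℂ))
    (ha : ContDiff ℝ 1 (fun p : (ι → ℂ) × (ι → ℂ) => Fa p.1 p.2))
    (hb : ContDiff ℝ 1 (fun p : (ι → ℂ) × (ι → ℂ) => Fb p.1 p.2))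
    (ea : ∀ (s : ℂ), ‖s‖ = 1 → ∀ a b, Fa a (s • b) = Fa a b)
    (eb : ∀ (s : ℂ), ‖s‖ = 1 → ∀ a b, Fb a (s • b) = s • Fb a b) :
    volume {q : (ι → ℂ) × (ι → ι → ℂ) | ∃ a b, b ≠ 0 ∧ Fa a b = q.1 ∧
      Fb a b = ∑ k, b k • q.2 k} = 0 := by
  have hsub : {q : (ι → ℂ) × (ι → ι → ℂ) | ∃ a b, b ≠ 0 ∧ Fa a b = q.1 ∧
      Fb a b = ∑ k, b k • q.2 k} ⊆ ⋃ i : ι, Th Fa Fb i '' {q | q.2 i i ≠ 0} := by
    rintro q ⟨a, b, hb0, h1, h2⟩
    obtain ⟨i, hi⟩ : ∃ i, b i ≠ 0 := by
      by_contra h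
      push Not at h
      exact hb0 (funext h)
    rw [Set.mem_iUnion]
    refine ⟨i, (a, Function.update q.2 i b), ?_, ?_⟩
    · show Function.update q.2 i b i i ≠ 0
      rw [Function.update_self]
      exact hi
    · unfold Th
      apply Prod.ext
      · simp only [Function.update_self]
        exact h1
      · funext j
        by_cases hj : j = i
        · subst hj
          simp only [Function.update_self, if_true]
          have h3 : ∑ k ∈ Finset.univ.erase j, b k • Function.update q.2 j b k =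
              ∑ k ∈ Finset.univ.erase j, b k • q.2 k := by
            apply Finset.sum_congr rfl
            intro k hk
            rw [Function.update_of_ne (Finset.ne_of_mem_erase hk)]
          rw [h3, h2, ← Finset.add_sum_erase Finset.univ _ (Finset.mem_univ j), add_sub_cancel_right,
            smul_smul, inv_mul_cancel₀ hi, one_smul]
        · simp only [if_neg hj, Function.update_of_ne hj]
  have := vol_haar (ι := ι)
  refine measure_mono_null hsub ?_
  rw [measure_iUnion_null_iff]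
  intro i
  exact addHaar_image_eq_zero_of_det_fderivWithin_eq_zero volume
    (fun q hq => (Th_diff Fa Fb ha hb i q hq).hasFDerivAt.hasFDerivWithinAt)
    (fun q hq => Th_det Fa Fb ha hb ea eb i q hq)

end Cox957
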