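import Pool.Agent.helper957_cox.IL2
import Pool.Agent.helper957_cox.SL

set_option autoImplicit false
open scoped ContDiff Manifold
open MeasureTheory

namespace Cox957

theorem det_pos {X : Type} [NormedAddCommGroup X] [NormedSpace ℂ X] [FiniteDimensional ℂ X]
    (T : X →L[ℂ] X) (hT : Function.Injective T) : 0 < (T.restrictScalars ℝ).det := by
  have h1 : (T.restrictScalars ℝ).det =
      LinearMap.det (((T : X →ₗ[ℂ] X)).restrictScalars ℝ) := rfl
  rw [h1, LinearMap.det_restrictScalars, Algebra.norm_complex_apply]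
  rw [Complex.normSq_pos]
  intro h0
  have h2 := LinearMap.bot_lt_ker_of_det_eq_zero h0
  have h3 : LinearMap.ker (T : X →ₗ[ℂ] X) = ⊥ := LinearMap.ker_eq_bot.mpr hT
  rw [h3] at h2
  exact lt_irrefl _ h2

/-- smooth cutoff -/
theorem cutoff {X : Type} [NormedAddCommGroup X] [NormedSpace ℝ X] [FiniteDimensional ℝ X]
    (Z N : Set X) (hZ : IsCompact Z) (hN : IsOpen N) (hZN : Z ⊆ N) :
    ∃ (ρ : X → ℝ) (L1 L2 : Set X), ContDiff ℝ ∞ ρ ∧ (∀ x, 0 ≤ ρ x) ∧ IsCompact L2 ∧ L2 ⊆ N ∧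
      Z ⊆ interior L1 ∧ L1 ⊆ L2 ∧ (∀ x ∈ L1, ρ x = 1) ∧ tsupport ρ ⊆ L2 := by
  have hp : ProperSpace X := FiniteDimensional.proper_real X
  have : LocallyCompactSpace X := inferInstance
  obtain ⟨L1, hL1, hZL1, hL1N⟩ := exists_compact_between hZ hN hZN
  obtain ⟨L2, hL2, hL12, hL2N⟩ := exists_compact_between hL1 hN hL1N
  have hs : IsClosed (interior L2)ᶜ := isOpen_interior.isClosed_compl
  have hd : Disjoint (interior L2)ᶜ L1 := by
    rw [Set.disjoint_left]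
    intro x hx hx1
    exact hx (hL12 hx1)
  obtain ⟨f, hf0, hf1, hf2⟩ := exists_contMDiffMap_zero_one_of_isClosed (n := (⊤ : ℕ∞)) 𝓘(ℝ, X) hs
    hL1.isClosed hd
  refine ⟨f, L1, L2, f.contMDiff.contDiff, fun x => (hf2 x).1, hL2, hL2N, hZL1,
    hL12.trans interior_subset, fun x hx => hf1 hx, ?_⟩
  have h1 : Function.support f ⊆ interior L2 := by
    intro x hx
    by_contra h
    exact hx (hf0 h)
  exact (closure_mono (h1.trans interior_subset)).trans hL2.isClosed.closure_subset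

/-- positive lower bound -/
theorem lower {X Y : Type} [TopologicalSpace X] [NormedAddCommGroup Y] (S : Set X)
    (hS : IsCompact S) (f : X → Y) (hf : Continuous f) (h : ∀ x ∈ S, f x ≠ 0) :
    ∃ δ : ℝ, 0 < δ ∧ ∀ x ∈ S, δ ≤ ‖f x‖ :=
  hS.exists_forall_le' (hf.norm.continuousOn) (fun x hx => norm_pos_iff.mpr (h x hx))

/-- small parameters outside a null set -/
theorem pick {ι : Type} [Fintype ι] (B : Set ((ι → ℂ) × (ι → ι → ℂ))) (hB : volume B = 0)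
    (r : ℝ) (hr : 0 < r) : ∃ q, ‖q‖ < r ∧ q ∉ B := by
  have := vol_haar (ι := ι)
  by_contra h
  push Not at h
  have h1 : Metric.ball (0 : (ι → ℂ) × (ι → ι → ℂ)) r ⊆ B := by
    intro q hq
    exact h q (by simpa using hq)
  have h2 := Metric.measure_ball_pos (volume : Measure ((ι → ℂ) × (ι → ι → ℂ))) 0 hr
  have h3 := measure_mono_null h1 hB
  rw [h3] at h2
  exact lt_irrefl _ h2

/-- the linear map of the matrix with columns `η k` -/
noncomputable def Hm {ι : Type} [Fintype ι] (η : ι → ι → ℂ) : (ι → ℂ) →L[ℂ] (ι → ℂ) :=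
  ∑ k, (ContinuousLinearMap.proj (R := ℂ) (φ := fun _ : ι => ℂ) k).smulRight (η k)

theorem Hm_apply {ι : Type} [Fintype ι] (η : ι → ι → ℂ) (b : ι → ℂ) :
    Hm η b = ∑ k, b k • η k := by
  unfold Hm
  rw [_root_.sum_apply]
  rfl

/-- the perturbation -/
noncomputable def Pt {ι : Type} [Fintype ι] (q : (ι → ℂ) × (ι → ι → ℂ))
    (x : (ι → ℂ) × (ι → ℂ)) : (ι → ℂ) × (ι → ℂ) := (q.1, Hm q.2 x.2)

theorem Pt_contDiff {ι : Type} [Fintype ι] (q : (ι → ℂ) × (ι → ι → ℂ)) :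
    ContDiff ℝ ∞ (Pt q) := by
  unfold Pt
  exact contDiff_const.prodMk (((Hm q.2).restrictScalars ℝ).contDiff.comp contDiff_snd)

theorem Pt_deriv {ι : Type} [Fintype ι] (q : (ι → ℂ) × (ι → ι → ℂ))
    (x : (ι → ℂ) × (ι → ℂ)) :
    HasFDerivAt (Pt q)
      (((0 : (ι → ℂ) →L[ℂ] (ι → ℂ)).prodMap (Hm q.2)).restrictScalars ℝ) x := by
  have h1 : HasFDerivAt (fun _ : (ι → ℂ) × (ι → ℂ) => q.1)
      (0 : ((ι → ℂ) × (ι → ℂ)) →L[ℝ] (ι → ℂ)) x := hasFDerivAt_const _ _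
  have h2 : HasFDerivAt (fun x : (ι → ℂ) × (ι → ℂ) => Hm q.2 x.2)
      (((Hm q.2).restrictScalars ℝ).comp (ContinuousLinearMap.snd ℝ (ι → ℂ) (ι → ℂ))) x :=
    (((Hm q.2).restrictScalars ℝ).comp (ContinuousLinearMap.snd ℝ (ι → ℂ) (ι → ℂ))).hasFDerivAt
  refine (h1.prodMk h2).congr_fderiv ?_
  apply ContinuousLinearMap.ext
  intro y
  rfl

theorem Pt_norm {ι : Type} [Fintype ι] (q : (ι → ℂ) × (ι → ι → ℂ))
    (x : (ι → ℂ) × (ι → ℂ)) (R : ℝ) (hR : 0 ≤ R) (hx : ‖x‖ ≤ R) :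
    ‖Pt q x‖ ≤ (1 + Fintype.card ι * R) * ‖q‖ := by
  have hq1 : ‖q.1‖ ≤ ‖q‖ := norm_fst_le q
  have hq2 : ‖q.2‖ ≤ ‖q‖ := norm_snd_le q
  have hq0 : 0 ≤ ‖q‖ := norm_nonneg q
  have hcard : (0:ℝ) ≤ Fintype.card ι := Nat.cast_nonneg _
  unfold Pt
  rw [Prod.norm_def]
  apply max_le
  · simp only
    nlinarith [mul_nonneg (mul_nonneg hcard hR) hq0]
  · simp only
    rw [Hm_apply]
    calc ‖∑ k, x.2 k • q.2 k‖ ≤ ∑ k : ι, ‖x.2 k • q.2 k‖ := norm_sum_le _ _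
      _ ≤ ∑ _k : ι, R * ‖q‖ := by
          apply Finset.sum_le_sum
          intro k _
          rw [norm_smul]
          apply mul_le_mul _ _ (norm_nonneg _) hR
          · exact (norm_le_pi_norm x.2 k).trans ((norm_snd_le x).trans hx)
          · exact (norm_le_pi_norm q.2 k).trans hq2
      _ = Fintype.card ι * R * ‖q‖ := by
          rw [Finset.sum_const, Finset.card_univ, nsmul_eq_mul]; ring
      _ ≤ (1 + Fintype.card ι * R) * ‖q‖ := by nlinarith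

end Cox957
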