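import Mathlib

set_option autoImplicit false
open scoped ContDiff

namespace Cox957

/-- `x` is an integer. -/
def IsInt (x : ℝ) : Prop := ∃ n : ℤ, x = n

/-- A family of finite sets closed under taking subsets. -/
def IsCx {V : Type} (K : Set (Finset V)) : Prop := ∀ T ∈ K, ∀ U, U ⊆ T → U ∈ K

/-- The link of `S` in `K`. -/
def lk {V : Type} [DecidableEq V] (K : Set (Finset V)) (S : Finset V) : Set (Finset V) :=
  {T | Disjoint T S ∧ T ∪ S ∈ K}

/-- The ordered simplicial coboundary of a cochain of degree `j`. -/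
def cob {V A : Type} [AddCommGroup A] {j : ℕ} (f : (Fin (j + 1) → V) → A) :
    (Fin (j + 2) → V) → A :=
  fun τ => ∑ i : Fin (j + 2), (-1 : ℤ) ^ (i : ℕ) • f (τ ∘ i.succAbove)

/-- The tuple `τ` spans a face of `K`. -/
def Spans {V : Type} [DecidableEq V] (K : Set (Finset V)) {j : ℕ} (τ : Fin j → V) : Prop :=
  Finset.univ.image τ ∈ K

/-- Vanishing of the simplicial cohomology group of `K` of degree `j + 1` with coefficients in `A`
(ordered simplicial cochains). -/
def HZ {V : Type} [DecidableEq V] (K : Set (Finset V)) (A : Type) [AddCommGroup A] (j : ℕ) :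
    Prop :=
  ∀ f : (Fin (j + 2) → V) → A, (∀ τ : Fin (j + 3) → V, Spans K τ → cob f τ = 0) →
    ∃ g : (Fin (j + 1) → V) → A, ∀ τ : Fin (j + 2) → V, Spans K τ → f τ = cob g τ

/-- Vanishing of `H²(K; ℝ)`, three variable form. -/
def H2R {V : Type} [DecidableEq V] (K : Set (Finset V)) : Prop :=
  ∀ b : V → V → V → ℝ,
    (∀ u v w x, ({u, v, w, x} : Finset V) ∈ K → b v w x - b u w x + b u v x - b u v w = 0) →
    ∃ a : V → V → ℝ, ∀ u v w, ({u, v, w} : Finset V) ∈ K → b u v w = a v w - a u w + a u v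

/-- Vanishing of `H²(K; ℝ/ℤ)`, three variable form, with real representatives. -/
def H2T {V : Type} [DecidableEq V] (K : Set (Finset V)) : Prop :=
  ∀ b : V → V → V → ℝ,
    (∀ u v w x, ({u, v, w, x} : Finset V) ∈ K →
      IsInt (b v w x - b u w x + b u v x - b u v w)) →
    ∃ a : V → V → ℝ, ∀ u v w, ({u, v, w} : Finset V) ∈ K →
      IsInt (b u v w - (a v w - a u w + a u v))

/-- The model: a two dimensional complex with vertices the members of `K`, edges all the pairs
`A ⊂ B` and some triangles `A ⊂ B ⊂ C`, such that for each `S` in `K` the subcomplex of the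
cells with `S ⊆ A` is acyclic over the reals. -/
structure Model {V : Type} [DecidableEq V] (K : Set (Finset V)) where
  /-- the selected triangles -/
  F : Finset V → Finset V → Finset V → Prop
  lt1 : ∀ A B C, F A B C → A ⊂ B
  lt2 : ∀ A B C, F A B C → B ⊂ C
  mem : ∀ A B C, F A B C → C ∈ K
  H1 : ∀ S ∈ K, ∀ φ : Finset V → Finset V → ℝ,
    (∀ A B C, F A B C → S ⊆ A → φ A B + φ B C = φ A C) →
    (∀ B ∈ K, S ⊂ B → φ S B = 0) →
    ∀ A B, S ⊆ A → A ⊂ B → B ∈ K → φ A B = 0
  H2 : ∀ c : Finset V → Finset V → Finset V → ℝ, ∃ φ : Finset V → Finset V → ℝ,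
    ∀ A B C, F A B C → φ A B + φ B C - φ A C = c A B C

/-- `χ` is flat modulo the integers on the whole model. -/
def Flat {V : Type} [DecidableEq V] {K : Set (Finset V)} (M : Model K)
    (χ : Finset V → Finset V → ℝ) : Prop :=
  ∀ A B C, M.F A B C → IsInt (χ A B + χ B C - χ A C)

/-- `χ` is a gradient modulo the integers on the cells `S ⊆ A`. -/
def Triv {V : Type} [DecidableEq V] (K : Set (Finset V)) (S : Finset V)
    (χ : Finset V → Finset V → ℝ) : Prop :=
  ∃ l : Finset V → ℝ, ∀ A B, S ⊆ A → A ⊂ B → B ∈ K → IsInt (χ A B - (l B - l A))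

end Cox957
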