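import Pool.Agent.helper957_cox.TS1

set_option autoImplicit false
set_option linter.unusedSectionVars false

namespace Cox957

variable {V : Type} [DecidableEq V] [Fintype V]

/-- first acyclicity condition -/
def C1S (K : Set (Finset V)) (F : Finset V → Finset V → Finset V → Prop) (S : Finset V) : Prop :=
  ∀ φ : Finset V → Finset V → ℝ,
    (∀ A B C, F A B C → S ⊆ A → φ A B + φ B C = φ A C) →
    (∀ B ∈ K, S ⊂ B → φ S B = 0) →
    ∀ A B, S ⊆ A → A ⊂ B → B ∈ K → φ A B = 0

/-- second acyclicity condition -/
def C2S (F : Finset V → Finset V → Finset V → Prop) (S : Finset V) : Prop :=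
  ∀ c : Finset V → Finset V → Finset V → ℝ, ∃ φ : Finset V → Finset V → ℝ,
    ∀ A B C, F A B C → S ⊆ A → φ A B + φ B C - φ A C = c A B C

open Classical in
/-- potential -/
noncomputable def pot' (K : Set (Finset V)) (φ : Finset V → Finset V → ℝ) (S T : Finset V) : ℝ :=
  if S ⊂ T ∧ T ∈ K then φ S T else 0

theorem pot'_grad {K : Set (Finset V)} {F : Finset V → Finset V → Finset V → Prop}
    (S : Finset V) (h1 : C1S K F S) (φ : Finset V → Finset V → ℝ)
    (hφ : ∀ A B C, F A B C → S ⊆ A → φ A B + φ B C - φ A C = 0) (A B : Finset V)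
    (hA : S ⊆ A) (hAB : A ⊂ B) (hB : B ∈ K) : φ A B = pot' K φ S B - pot' K φ S A := by
  have h := h1 (fun A B => φ A B - (pot' K φ S B - pot' K φ S A)) (by
    intro A B C hF hSA
    have := hφ A B C hF hSA
    linarith) (by
    intro B hB hSB
    have h1 : pot' K φ S S = 0 := by
      unfold pot'
      rw [if_neg (fun h => ssubset_irrefl _ h.1)]
    have h2 : pot' K φ S B = φ S B := by
      unfold pot'
      rw [if_pos ⟨hSB, hB⟩]
    simp only [h1, h2]
    ring) A B hA hAB hB
  linarith

/-- surjectivity of the coboundary on the cells strictly above `S`. -/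
theorem SURJ {K : Set (Finset V)} (hK : IsCx K) (F : Finset V → Finset V → Finset V → Prop)
    (lt1 : ∀ A B C, F A B C → A ⊂ B) (lt2 : ∀ A B C, F A B C → B ⊂ C)
    (mem : ∀ A B C, F A B C → C ∈ K) (S : Finset V)
    (h1 : ∀ T ∈ K, S ⊂ T → C1S K F T) (h2 : ∀ T ∈ K, S ⊂ T → C2S F T)
    (hl : H2R (lk K S)) (c : Finset V → Finset V → Finset V → ℝ) :
    ∃ φ : Finset V → Finset V → ℝ,
      ∀ A B C, F A B C → S ⊂ A → φ A B + φ B C - φ A C = c A B C := by
  classical
  have hχ : ∀ u : V, ∃ φ : Finset V → Finset V → ℝ, u ∉ S → insert u S ∈ K →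
      ∀ A B C, F A B C → insert u S ⊆ A → φ A B + φ B C - φ A C = c A B C := by
    intro u
    by_cases hu : u ∉ S ∧ insert u S ∈ K
    · obtain ⟨φ, hφ⟩ := h2 _ hu.2 (Finset.ssubset_insert hu.1) c
      exact ⟨φ, fun _ _ => hφ⟩
    · exact ⟨0, fun h h' => absurd ⟨h, h'⟩ hu⟩
  choose χ hχ using hχ
  let l : V → V → Finset V → ℝ := fun u v T =>
    pot' K (fun A B => χ u A B - χ v A B) (S ∪ {u, v}) T
  have hl1 : ∀ u v A B, u ∉ S → v ∉ S → S ∪ {u, v} ⊆ A → A ⊂ B → B ∈ K →
      χ u A B - χ v A B = l u v B - l u v A := by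
    intro u v A B hu hv hA hAB hB
    have hT : S ∪ {u, v} ∈ K := hK B hB _ (hA.trans hAB.1)
    have hss : S ⊂ S ∪ {u, v} := by
      refine ⟨Finset.subset_union_left, fun h => hu (h ?_)⟩
      simp
    refine pot'_grad (S ∪ {u, v}) (h1 _ hT hss) (fun A B => χ u A B - χ v A B) ?_ A B hA hAB hB
    intro A B C hF hSA
    have hC := mem A B C hF
    have hAK : A ∈ K := hK C hC A ((lt1 A B C hF).1.trans (lt2 A B C hF).1)
    have hsu : insert u S ⊆ A := by
      intro x hx
      apply hSA
      rw [Finset.mem_insert] at hx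
      rcases hx with rfl | hx
      · simp
      · simp [hx]
    have hsv : insert v S ⊆ A := by
      intro x hx
      apply hSA
      rw [Finset.mem_insert] at hx
      rcases hx with rfl | hx
      · simp
      · simp [hx]
    have e1 := hχ u hu (hK A hAK _ hsu) A B C hF hsu
    have e2 := hχ v hv (hK A hAK _ hsv) A B C hF hsv
    linarith
  let b : V → V → V → ℝ := fun u v w =>
    l u v (S ∪ {u, v, w}) + l v w (S ∪ {u, v, w}) - l u w (S ∪ {u, v, w})
  have hb : ∀ u v w T, u ∉ S → v ∉ S → w ∉ S → S ⊆ T → u ∈ T → v ∈ T → w ∈ T → T ∈ K →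
      l u v T + l v w T - l u w T = b u v w := by
    intro u v w T hu hv hw hST huT hvT hwT hT
    by_cases hTe : T = S ∪ {u, v, w}
    · simp only [b]
      rw [← hTe]
    · have hsub : S ∪ {u, v, w} ⊆ T := by
        intro x hx
        simp only [Finset.mem_union, Finset.mem_insert, Finset.mem_singleton] at hx
        rcases hx with hx | rfl | rfl | rfl
        · exact hST hx
        all_goals assumption
      have hss : S ∪ {u, v, w} ⊂ T := lt_of_le_of_ne hsub (Ne.symm hTe)
      have s1 : S ∪ {u, v} ⊆ S ∪ {u, v, w} := by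
        intro x hx
        simp only [Finset.mem_union, Finset.mem_insert, Finset.mem_singleton] at hx ⊢
        tauto
      have s2 : S ∪ {v, w} ⊆ S ∪ {u, v, w} := by
        intro x hx
        simp only [Finset.mem_union, Finset.mem_insert, Finset.mem_singleton] at hx ⊢
        tauto
      have s3 : S ∪ {u, w} ⊆ S ∪ {u, v, w} := by
        intro x hx
        simp only [Finset.mem_union, Finset.mem_insert, Finset.mem_singleton] at hx ⊢
        tauto
      have e1 := hl1 u v _ T hu hv s1 hss hT
      have e2 := hl1 v w _ T hv hw s2 hss hT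
      have e3 := hl1 u w _ T hu hw s3 hss hT
      simp only [b]
      linarith
  obtain ⟨a, ha⟩ := hl b (by
    intro u v w x hT
    obtain ⟨hd, hT⟩ := hT
    have hdu : u ∉ S := fun h => (Finset.disjoint_left.mp hd) (by simp) h
    have hdv : v ∉ S := fun h => (Finset.disjoint_left.mp hd) (a := v) (by simp) h
    have hdw : w ∉ S := fun h => (Finset.disjoint_left.mp hd) (a := w) (by simp) h
    have hdx : x ∉ S := fun h => (Finset.disjoint_left.mp hd) (a := x) (by simp) h
    have e1 := hb v w x _ hdv hdw hdx Finset.subset_union_right (by simp) (by simp) (by simp) hT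
    have e2 := hb u w x _ hdu hdw hdx Finset.subset_union_right (by simp) (by simp) (by simp) hT
    have e3 := hb u v x _ hdu hdv hdx Finset.subset_union_right (by simp) (by simp) (by simp) hT
    have e4 := hb u v w _ hdu hdv hdw Finset.subset_union_right (by simp) (by simp) (by simp) hT
    linarith)
  by_cases hV : Nonempty V
  swap
  · refine ⟨0, fun A B C hF hSA => ?_⟩
    exfalso
    obtain ⟨x, hx, _⟩ := Finset.exists_of_ssubset hSA
    exact hV ⟨x⟩
  obtain ⟨v0⟩ := hV
  let t : Finset V → V := fun T => if h : (T \ S).Nonempty then h.choose else v0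
  have ht : ∀ T : Finset V, S ⊂ T → t T ∈ T ∧ t T ∉ S := by
    intro T h
    obtain ⟨x, hx, hxS⟩ := Finset.exists_of_ssubset h
    have hne : (T \ S).Nonempty := ⟨x, Finset.mem_sdiff.mpr ⟨hx, hxS⟩⟩
    have : t T ∈ T \ S := by
      simp only [t]
      rw [dif_pos hne]
      exact hne.choose_spec
    exact Finset.mem_sdiff.mp this
  let m : V → Finset V → ℝ := fun u T => l u (t T) T - a u (t T)
  have hm : ∀ u v T, S ⊂ T → T ∈ K → u ∈ T → v ∈ T → u ∉ S → v ∉ S →
      l u v T - a u v = m u T - m v T := by
    intro u v T hST hT hu hv huS hvS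
    obtain ⟨t1, t2⟩ := ht T hST
    have e1 := hb u v (t T) T huS hvS t2 hST.1 hu hv t1 hT
    have e2 := ha u v (t T) (by
      constructor
      · rw [Finset.disjoint_left]
        intro x hx
        simp only [Finset.mem_insert, Finset.mem_singleton] at hx
        rcases hx with rfl | rfl | rfl <;> assumption
      · refine hK T hT _ ?_
        intro x hx
        simp only [Finset.mem_union, Finset.mem_insert, Finset.mem_singleton] at hx
        rcases hx with (rfl | rfl | rfl) | hx
        · exact hu
        · exact hv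
        · exact t1
        · exact hST.1 hx)
    simp only [m]
    linarith
  have hinv : ∀ u v A B, S ⊂ A → A ⊂ B → B ∈ K → u ∈ A → v ∈ A → u ∉ S → v ∉ S →
      χ u A B - (m u B - m u A) = χ v A B - (m v B - m v A) := by
    intro u v A B hSA hAB hB hu hv huS hvS
    have hsub : S ∪ {u, v} ⊆ A := by
      intro x hx
      simp only [Finset.mem_union, Finset.mem_insert, Finset.mem_singleton] at hx
      rcases hx with hx | rfl | rfl
      · exact hSA.1 hx
      · exact hu
      · exact hv
    have e1 := hl1 u v A B huS hvS hsub hAB hB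
    have e2 := hm u v A hSA (hK B hB A hAB.1) hu hv huS hvS
    have e3 := hm u v B (hSA.trans hAB) hB (hAB.1 hu) (hAB.1 hv) huS hvS
    linarith
  refine ⟨fun A B => χ (t A) A B - (m (t A) B - m (t A) A), ?_⟩
  intro A B C hF hSA
  have hAB := lt1 A B C hF
  have hBC := lt2 A B C hF
  have hC := mem A B C hF
  obtain ⟨t1, t2⟩ := ht A hSA
  obtain ⟨t3, t4⟩ := ht B (hSA.trans hAB)
  have e1 := hinv (t B) (t A) B C (hSA.trans hAB) hBC hC t3 (hAB.1 t1) t4 t2
  have hsub : insert (t A) S ⊆ A := by
    intro x hx
    rw [Finset.mem_insert] at hx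
    rcases hx with rfl | hx
    · exact t1
    · exact hSA.1 hx
  have e2 := hχ (t A) t2 (hK C hC _ (hsub.trans (hAB.1.trans hBC.1))) A B C hF hsub
  simp only
  rw [e1]
  linarith

/-- one step of the construction -/
theorem STEP {K : Set (Finset V)} (hK : IsCx K) (F : Finset V → Finset V → Finset V → Prop)
    (lt1 : ∀ A B C, F A B C → A ⊂ B) (lt2 : ∀ A B C, F A B C → B ⊂ C)
    (mem : ∀ A B C, F A B C → C ∈ K) (S : Finset V)
    (h1 : ∀ T ∈ K, S ⊂ T → C1S K F T) (h2 : ∀ T ∈ K, S ⊂ T → C2S F T)
    (hl : H2R (lk K S)) :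
    ∃ E : Finset V → Finset V → Prop, (∀ B C, E B C → S ⊂ B ∧ B ⊂ C ∧ C ∈ K) ∧
      (∀ φ : Finset V → Finset V → ℝ,
        (∀ A B C, F A B C → S ⊂ A → φ A B + φ B C = φ A C) → (∀ B C, E B C → φ B C = 0) →
        ∀ A B, S ⊂ A → A ⊂ B → B ∈ K → φ A B = 0) ∧
      ∀ (c : Finset V → Finset V → Finset V → ℝ) (d : Finset V → Finset V → ℝ),
        ∃ φ : Finset V → Finset V → ℝ,
          (∀ A B C, F A B C → S ⊂ A → φ A B + φ B C - φ A C = c A B C) ∧
          ∀ B C, E B C → φ B C = d B C := by
  classical
  let Γ : Type := {p : Finset V × Finset V // S ⊂ p.1 ∧ p.1 ⊂ p.2 ∧ p.2 ∈ K}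
  let x' : (Γ → ℝ) → Finset V → Finset V → ℝ := fun x A B =>
    if h : S ⊂ A ∧ A ⊂ B ∧ B ∈ K then x ⟨(A, B), h⟩ else 0
  let W : Submodule ℝ (Γ → ℝ) :=
    { carrier := {x | ∀ A B C, F A B C → S ⊂ A → x' x A B + x' x B C - x' x A C = 0}
      add_mem' := by
        intro x y hx hy A B C hF hA
        have e1 := hx A B C hF hA
        have e2 := hy A B C hF hA
        have h : ∀ A B, x' (x + y) A B = x' x A B + x' y A B := by
          intro A B
          simp only [x']
          split_ifs <;> simp
        rw [h, h, h]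
        linarith
      zero_mem' := by
        intro A B C _ _
        have h : ∀ A B, x' 0 A B = 0 := by
          intro A B
          simp only [x']
          split_ifs <;> simp
        rw [h, h, h]; ring
      smul_mem' := by
        intro r x hx A B C hF hA
        have e1 := hx A B C hF hA
        have h : ∀ A B, x' (r • x) A B = r * x' x A B := by
          intro A B
          simp only [x']
          split_ifs <;> simp
        rw [h, h, h]
        linear_combination r * e1 }
  obtain ⟨s, hs1, hs2⟩ := BS' W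
  have hrest : ∀ φ : Finset V → Finset V → ℝ, ∀ A B, S ⊂ A → A ⊂ B → B ∈ K →
      x' (fun i => φ i.1.1 i.1.2) A B = φ A B := by
    intro φ A B h1 h2 h3
    simp only [x']
    rw [dif_pos ⟨h1, h2, h3⟩]
  refine ⟨fun B C => ∃ h : S ⊂ B ∧ B ⊂ C ∧ C ∈ K, (⟨(B, C), h⟩ : Γ) ∈ s,
    fun B C ⟨h, _⟩ => h, ?_, ?_⟩
  · intro φ hφ hφE
    have hx : (fun i : Γ => φ i.1.1 i.1.2) = 0 := by
      apply hs1
      · intro A B C hF hA
        have hAB := lt1 A B C hF
        have hBC := lt2 A B C hF
        have hC := mem A B C hF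
        rw [hrest φ A B hA hAB (hK C hC B hBC.1), hrest φ B C (hA.trans hAB) hBC hC,
          hrest φ A C hA (hAB.trans hBC) hC, hφ A B C hF hA, sub_self]
      · intro i hi
        exact hφE i.1.1 i.1.2 ⟨i.2, hi⟩
    intro A B hA hAB hB
    exact congrFun hx ⟨(A, B), hA, hAB, hB⟩
  · intro c d
    obtain ⟨φ0, hφ0⟩ := SURJ hK F lt1 lt2 mem S h1 h2 hl c
    obtain ⟨x, hxW, hxs⟩ := hs2 (fun i => d i.1.1 i.1.2 - φ0 i.1.1 i.1.2)
    refine ⟨fun A B => φ0 A B + x' x A B, ?_, ?_⟩
    · intro A B C hF hA
      have e1 := hφ0 A B C hF hA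
      have e2 := hxW A B C hF hA
      linarith
    · rintro B C ⟨h, hi⟩
      have e1 := hxs _ hi
      have e2 : x' x B C = x ⟨(B, C), h⟩ := by
        simp only [x']
        rw [dif_pos h]
      simp only
      rw [e2, e1]
      ring

/-- MOD: existence of the model. -/
theorem MOD {K : Set (Finset V)} (hK : IsCx K) (h : ∀ S ∈ K, H2R (lk K S)) :
    Nonempty (Model K) := by
  classical
  have claim : ∀ n k : ℕ, k + n = Fintype.card V + 1 →
      ∃ F : Finset V → Finset V → Finset V → Prop,
        (∀ A B C, F A B C → A ⊂ B) ∧ (∀ A B C, F A B C → B ⊂ C) ∧ (∀ A B C, F A B C → C ∈ K) ∧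
        (∀ A B C, F A B C → k ≤ A.card) ∧ ∀ S ∈ K, k ≤ S.card → C1S K F S ∧ C2S F S := by
    intro n
    induction n with
    | zero =>
      intro k hk
      refine ⟨fun _ _ _ => False, by simp, by simp, by simp, by simp, ?_⟩
      intro S _ hS
      have := Finset.card_le_univ S
      omega
    | succ n ih =>
      intro k hk
      obtain ⟨F, lt1, lt2, mem, hc, hF⟩ := ih (k + 1) (by omega)
      have hstep : ∀ S : Finset V, ∃ E : Finset V → Finset V → Prop, S ∈ K → S.card = k →
          (∀ B C, E B C → S ⊂ B ∧ B ⊂ C ∧ C ∈ K) ∧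
          (∀ φ : Finset V → Finset V → ℝ,
            (∀ A B C, F A B C → S ⊂ A → φ A B + φ B C = φ A C) → (∀ B C, E B C → φ B C = 0) →
            ∀ A B, S ⊂ A → A ⊂ B → B ∈ K → φ A B = 0) ∧
          ∀ (c : Finset V → Finset V → Finset V → ℝ) (d : Finset V → Finset V → ℝ),
            ∃ φ : Finset V → Finset V → ℝ,
              (∀ A B C, F A B C → S ⊂ A → φ A B + φ B C - φ A C = c A B C) ∧
              ∀ B C, E B C → φ B C = d B C := by
        intro S
        by_cases hS : S ∈ K ∧ S.card = k
        · obtain ⟨E, hE⟩ := STEP hK F lt1 lt2 mem S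
            (fun T hT hST => (hF T hT (by have := Finset.card_lt_card hST; omega)).1)
            (fun T hT hST => (hF T hT (by have := Finset.card_lt_card hST; omega)).2)
            (h S hS.1)
          exact ⟨E, fun _ _ => hE⟩
        · exact ⟨fun _ _ => False, fun h1 h2 => absurd ⟨h1, h2⟩ hS⟩
      choose E hE using hstep
      refine ⟨fun A B C => F A B C ∨ (A ∈ K ∧ A.card = k ∧ E A B C), ?_, ?_, ?_, ?_, ?_⟩
      · rintro A B C (h1 | ⟨h1, h2, h3⟩)
        · exact lt1 A B C h1
        · exact ((hE A h1 h2).1 B C h3).1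
      · rintro A B C (h1 | ⟨h1, h2, h3⟩)
        · exact lt2 A B C h1
        · exact ((hE A h1 h2).1 B C h3).2.1
      · rintro A B C (h1 | ⟨h1, h2, h3⟩)
        · exact mem A B C h1
        · exact ((hE A h1 h2).1 B C h3).2.2
      · rintro A B C (h1 | ⟨h1, h2, h3⟩)
        · have := hc A B C h1; omega
        · omega
      · intro S hS hSk
        by_cases hSe : S.card = k
        · obtain ⟨g1, g2, g3⟩ := hE S hS hSe
          have hAS : ∀ A, S ⊆ A → A.card = k → A = S := by
            intro A h1 h2
            exact (Finset.eq_of_subset_of_card_le h1 (by omega)).symm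
          have hFS : ∀ A B C, F A B C → S ⊆ A → S ⊂ A := by
            intro A B C h1 h2
            refine lt_of_le_of_ne h2 ?_
            rintro rfl
            have := hc S B C h1
            omega
          constructor
          · intro φ hφ h0 A B hSA hAB hB
            have key : ∀ A B, S ⊂ A → A ⊂ B → B ∈ K → φ A B = 0 := by
              apply g2
              · intro A B C h1 h2
                exact hφ A B C (Or.inl h1) h2.1
              · intro B C hEBC
                obtain ⟨q1, q2, q3⟩ := g1 B C hEBC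
                have e1 := hφ S B C (Or.inr ⟨hS, hSe, hEBC⟩) (Finset.Subset.refl _)
                rw [h0 B (hK C q3 B q2.1) q1, h0 C q3 (q1.trans q2), zero_add] at e1
                exact e1
            by_cases hAe : A = S
            · rw [hAe]
              rw [hAe] at hAB
              exact h0 B hB hAB
            · exact key A B (lt_of_le_of_ne hSA (Ne.symm hAe)) hAB hB
          · intro c
            obtain ⟨φ, q1, q2⟩ := g3 c (fun B C => c S B C)
            refine ⟨fun A B => if A = S then 0 else φ A B, ?_⟩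
            rintro A B C (h1 | ⟨h1, h2, h3⟩) hSA
            · have hss := hFS A B C h1 hSA
              have n1 : A ≠ S := fun h => (h ▸ hss).2 (Finset.Subset.refl _)
              have n2 : B ≠ S := by
                rintro rfl
                exact (hss.trans (lt1 A B C h1)).2 (Finset.Subset.refl _)
              simp only [if_neg n1, if_neg n2]
              exact q1 A B C h1 hss
            · have hA := hAS A hSA h2
              subst hA
              obtain ⟨r1, r2, r3⟩ := g1 B C h3
              have n2 : B ≠ A := fun h => (h ▸ r1).2 (Finset.Subset.refl _)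
              simp only [if_neg n2, if_true]
              rw [q2 B C h3]
              ring
        · have hSk1 : k + 1 ≤ S.card := by omega
          obtain ⟨g1, g2⟩ := hF S hS hSk1
          have hno : ∀ A : Finset V, S ⊆ A → A.card = k → False := by
            intro A h1 h2
            have := Finset.card_le_card h1
            omega
          constructor
          · intro φ hφ h0
            exact g1 φ (fun A B C h1 h2 => hφ A B C (Or.inl h1) h2) h0
          · intro c
            obtain ⟨φ, hφ⟩ := g2 c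
            refine ⟨φ, ?_⟩
            rintro A B C (h1 | ⟨h1, h2, h3⟩) hSA
            · exact hφ A B C h1 hSA
            · exact absurd (hno A hSA h2) (fun h => h)
  obtain ⟨F, lt1, lt2, mem, _, hF⟩ := claim (Fintype.card V + 1) 0 (by omega)
  refine ⟨⟨F, lt1, lt2, mem, fun S hS => (hF S hS (Nat.zero_le _)).1, ?_⟩⟩
  intro c
  by_cases h0 : ∅ ∈ K
  · obtain ⟨φ, hφ⟩ := (hF ∅ h0 (Nat.zero_le _)).2 c
    exact ⟨φ, fun A B C h1 => hφ A B C h1 (Finset.empty_subset _)⟩
  · refine ⟨0, fun A B C h1 => absurd (hK C (mem A B C h1) ∅ (Finset.empty_subset _)) h0⟩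

end Cox957
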