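import Pool.Agent.helper957_cox.Di
import Pool.Agent.helper957_cox.Mod

set_option autoImplicit false
set_option linter.unusedSectionVars false

namespace Cox957

variable {V : Type} [DecidableEq V] [Fintype V]

/-- H2TR: `H²(K; ℝ/ℤ) = 0` for all complexes whose links have `H²(·; ℝ) = 0`. -/
theorem H2TR {K : Set (Finset V)} (hK : IsCx K) (h : ∀ S ∈ K, H2R (lk K S)) : H2T K := by
  obtain ⟨M⟩ := MOD hK h
  exact DI hK M

/-! ### general facts on ordered cochains -/

section gen
variable {A : Type} [AddCommGroup A]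

theorem spans_comp {K : Set (Finset V)} (hK : IsCx K) {j k : ℕ} (τ : Fin j → V)
    (h : Spans K τ) (f : Fin k → Fin j) : Spans K (τ ∘ f) := by
  refine hK _ h _ ?_
  intro x hx
  simp only [Finset.mem_image, Finset.mem_univ, true_and, Function.comp_apply] at hx ⊢
  obtain ⟨i, rfl⟩ := hx
  exact ⟨f i, rfl⟩

theorem cob_add {j : ℕ} (f g : (Fin (j + 1) → V) → A) (τ : Fin (j + 2) → V) :
    cob (fun σ => f σ + g σ) τ = cob f τ + cob g τ := by
  unfold cob
  rw [← Finset.sum_add_distrib]
  apply Finset.sum_congr rfl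
  intro i _
  rw [smul_add]

theorem cob_sub {j : ℕ} (f g : (Fin (j + 1) → V) → A) (τ : Fin (j + 2) → V) :
    cob (fun σ => f σ - g σ) τ = cob f τ - cob g τ := by
  unfold cob
  rw [← Finset.sum_sub_distrib]
  apply Finset.sum_congr rfl
  intro i _
  rw [smul_sub]

/-- the coboundary only sees the values on faces -/
theorem cob_congr {j : ℕ} (f g : (Fin (j + 1) → V) → A) (τ : Fin (j + 2) → V)
    (h : ∀ i : Fin (j + 2), f (τ ∘ i.succAbove) = g (τ ∘ i.succAbove)) : cob f τ = cob g τ := by
  unfold cob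
  exact Finset.sum_congr rfl fun i _ => by rw [h i]

theorem cob_cob {j : ℕ} (f : (Fin (j + 1) → V) → A) (τ : Fin (j + 3) → V) :
    cob (cob f) τ = 0 := by
  unfold cob
  simp only [Finset.smul_sum, smul_smul]
  rw [← Finset.sum_product']
  refine Finset.sum_involution
    (fun (p : Fin (j + 3) × Fin (j + 2)) _ => (p.1.succAbove p.2, p.2.predAbove p.1)) ?_ ?_ ?_ ?_
  · rintro ⟨i, k⟩ _
    have h1 : (τ ∘ (i.succAbove k).succAbove) ∘ (k.predAbove i).succAbove =
        (τ ∘ i.succAbove) ∘ k.succAbove := by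
      funext x
      simp only [Function.comp_apply]
      rw [Fin.succAbove_succAbove_succAbove_predAbove]
    simp only
    rw [h1, ← add_smul, ← pow_add, ← pow_add, Fin.neg_one_pow_succAbove_add_predAbove,
      add_neg_cancel, zero_smul]
  · rintro ⟨i, k⟩ _ _ h
    exact Fin.succAbove_ne i k (congrArg Prod.fst h)
  · intro p _
    exact Finset.mem_product.mpr ⟨Finset.mem_univ _, Finset.mem_univ _⟩
  · rintro ⟨i, k⟩ _
    simp only
    rw [Fin.succAbove_succAbove_predAbove, Fin.predAbove_predAbove_succAbove]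

/-- the coboundary of a tuple with a vertex added in front -/
theorem cob_cons {j : ℕ} (f : (Fin (j + 2) → V) → A) (v : V) (τ : Fin (j + 2) → V) :
    cob f (Fin.cons v τ : Fin (j + 3) → V) =
      f τ - cob (fun σ : Fin (j + 1) → V => f (Fin.cons v σ)) τ := by
  unfold cob
  rw [Fin.sum_univ_succ]
  have h0 : (Fin.cons v τ : Fin (j + 3) → V) ∘ (0 : Fin (j + 3)).succAbove = τ := by
    funext x
    simp
  have h1 : ∀ i : Fin (j + 2), (Fin.cons v τ : Fin (j + 3) → V) ∘ (i.succ).succAbove =
      (Fin.cons v (τ ∘ i.succAbove) : Fin (j + 2) → V) := by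
    intro i
    funext x
    refine Fin.cases ?_ (fun y => ?_) x
    · simp
    · simp [Fin.succ_succAbove_succ]
  rw [h0]
  simp only [h1, Fin.val_zero, pow_zero, one_smul, Fin.val_succ, pow_succ]
  rw [sub_eq_add_neg, ← Finset.sum_neg_distrib]
  congr 1
  apply Finset.sum_congr rfl
  intro i _
  simp

end gen

/-- The deletion of a vertex. -/
def del (K : Set (Finset V)) (v : V) : Set (Finset V) := {T | T ∈ K ∧ v ∉ T}

theorem spans_del {K : Set (Finset V)} {v : V} {j : ℕ} (τ : Fin j → V) :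
    Spans (del K v) τ ↔ Spans K τ ∧ ∀ i, τ i ≠ v := by
  unfold Spans del
  simp

theorem spans_lk {K : Set (Finset V)} {v : V} {j : ℕ} (τ : Fin j → V) :
    Spans (lk K {v}) τ ↔ Spans K (Fin.cons v τ : Fin (j + 1) → V) ∧ ∀ i, τ i ≠ v := by
  unfold Spans lk
  simp only [Set.mem_ofPred_eq, Finset.disjoint_singleton_right, Finset.mem_image,
    Finset.mem_univ, true_and, not_exists]
  have h1 : Finset.univ.image (Fin.cons v τ : Fin (j + 1) → V) =
      Finset.univ.image τ ∪ {v} := by
    ext x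
    simp only [Finset.mem_image, Finset.mem_univ, true_and, Finset.mem_union,
      Finset.mem_singleton, Fin.exists_fin_succ, Fin.cons_zero, Fin.cons_succ]
    constructor
    · rintro (h | h)
      · exact Or.inr h.symm
      · exact Or.inl h
    · rintro (h | h)
      · exact Or.inr h
      · exact Or.inl h.symm
  rw [h1]
  tauto

theorem spans_cons_of {K : Set (Finset V)} {v : V} {j : ℕ} (τ : Fin j → V) (h : Spans K τ)
    (i : Fin j) (hi : τ i = v) : Spans K (Fin.cons v τ : Fin (j + 1) → V) := by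
  unfold Spans at *
  have h1 : Finset.univ.image (Fin.cons v τ : Fin (j + 1) → V) = Finset.univ.image τ := by
    ext x
    simp only [Finset.mem_image, Finset.mem_univ, true_and, Fin.exists_fin_succ, Fin.cons_zero,
      Fin.cons_succ]
    constructor
    · rintro (h | h)
      · exact ⟨i, hi.trans h⟩
      · exact h
    · exact fun h => Or.inr h
  rw [h1]
  exact h

theorem spans_of_cons {K : Set (Finset V)} (hK : IsCx K) {v : V} {j : ℕ} (τ : Fin j → V)
    (h : Spans K (Fin.cons v τ : Fin (j + 1) → V)) : Spans K τ := by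
  have := spans_comp hK _ h Fin.succ
  have h1 : (Fin.cons v τ : Fin (j + 1) → V) ∘ Fin.succ = τ := by
    funext x; simp
  rw [h1] at this
  exact this

theorem spans_cons_comp {K : Set (Finset V)} (hK : IsCx K) {v : V} {j k : ℕ} (τ : Fin j → V)
    (h : Spans K (Fin.cons v τ : Fin (j + 1) → V)) (f : Fin k → Fin j) :
    Spans K (Fin.cons v (τ ∘ f) : Fin (k + 1) → V) := by
  have h1 : (Fin.cons v (τ ∘ f) : Fin (k + 1) → V) =
      (Fin.cons v τ : Fin (j + 1) → V) ∘ (Fin.cons 0 (Fin.succ ∘ f) : Fin (k + 1) → Fin (j + 1)) := by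
    funext x
    refine Fin.cases ?_ (fun y => ?_) x
    · simp
    · simp
  rw [h1]
  exact spans_comp hK _ h _

/-- C3: vertex induction. -/
theorem C3 {K : Set (Finset V)} (hK : IsCx K) (A : Type) [AddCommGroup A] (v : V) (j : ℕ)
    (h1 : HZ (del K v) A (j + 1)) (h2 : HZ (lk K {v}) A j) : HZ K A (j + 1) := by
  classical
  intro f hf
  obtain ⟨g, hg⟩ := h1 f (fun τ hτ => hf τ ((spans_del τ).mp hτ).1)
  let g' : (Fin (j + 2) → V) → A := fun τ => if ∃ i, τ i = v then 0 else g τ
  let f1 : (Fin (j + 3) → V) → A := fun τ => f τ - cob g' τ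
  have hf1 : ∀ τ : Fin (j + 4) → V, Spans K τ → cob f1 τ = 0 := by
    intro τ hτ
    simp only [f1]
    rw [cob_sub, hf τ hτ, cob_cob, sub_zero]
  have hf1v : ∀ τ : Fin (j + 3) → V, Spans K τ → (∀ i, τ i ≠ v) → f1 τ = 0 := by
    intro τ hτ hv
    have e1 : cob g' τ = cob g τ := by
      apply cob_congr
      intro i
      simp only [g']
      rw [if_neg]
      rintro ⟨k, hk⟩
      exact hv _ hk
    simp only [f1]
    rw [e1, ← hg τ ((spans_del τ).mpr ⟨hτ, hv⟩), sub_self]
  let h : (Fin (j + 2) → V) → A := fun τ => f1 (Fin.cons v τ)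
  have hh : ∀ τ : Fin (j + 3) → V, Spans K (Fin.cons v τ : Fin (j + 4) → V) → cob h τ = f1 τ := by
    intro τ hτ
    have e1 := hf1 _ hτ
    rw [cob_cons] at e1
    exact (sub_eq_zero.mp e1).symm
  obtain ⟨k, hk⟩ := h2 h (by
    intro τ hτ
    obtain ⟨e1, e2⟩ := (spans_lk τ).mp hτ
    rw [hh τ e1, hf1v τ (spans_of_cons hK τ e1) e2])
  let g2 : (Fin (j + 2) → V) → A := fun τ =>
    if Spans K (Fin.cons v τ : Fin (j + 3) → V) then h τ - cob k τ else 0
  have hg2 : ∀ τ : Fin (j + 3) → V, Spans K τ → f1 τ = cob g2 τ := by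
    intro τ hτ
    by_cases hs : Spans K (Fin.cons v τ : Fin (j + 4) → V)
    · have e1 : cob g2 τ = cob (fun σ => h σ - cob k σ) τ := by
        apply cob_congr
        intro i
        simp only [g2]
        rw [if_pos (spans_cons_comp hK τ hs _)]
      rw [e1, cob_sub, cob_cob, sub_zero, hh τ hs]
    · have hv : ∀ i, τ i ≠ v := fun i hi => hs (spans_cons_of τ hτ i hi)
      rw [hf1v τ hτ hv]
      symm
      unfold cob
      apply Finset.sum_eq_zero
      intro i _
      have e2 : g2 (τ ∘ i.succAbove) = 0 := by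
        simp only [g2]
        split_ifs with h3
        · rw [hk _ ((spans_lk _).mpr ⟨h3, fun x => hv _⟩), sub_self]
        · rfl
      rw [e2, smul_zero]
  refine ⟨fun τ => g' τ + g2 τ, fun τ hτ => ?_⟩
  rw [cob_add, ← hg2 τ hτ]
  simp only [f1]
  abel

/-- C4: deletions. -/
theorem C4 {K : Set (Finset V)} (hK : IsCx K) (A : Type) [AddCommGroup A] (v : V) (j : ℕ)
    (h1 : HZ K A j) (h2 : HZ (lk K {v}) A j) : HZ (del K v) A j := by
  classical
  intro f hf
  have hld : ∀ {k : ℕ} (τ : Fin k → V), Spans (lk K {v}) τ → Spans (del K v) τ := by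
    intro k τ hτ
    obtain ⟨e1, e2⟩ := (spans_lk τ).mp hτ
    exact (spans_del τ).mpr ⟨spans_of_cons hK τ e1, e2⟩
  obtain ⟨h, hh⟩ := h2 f (fun τ hτ => hf τ (hld τ hτ))
  let f2 : (Fin (j + 2) → V) → A := fun τ => if ∃ i, τ i = v then 0 else f τ - cob h τ
  obtain ⟨g, hg⟩ := h1 f2 (by
    intro τ hτ
    by_cases hv : ∀ i, τ i ≠ v
    · have e1 : cob f2 τ = cob (fun σ => f σ - cob h σ) τ := by
        apply cob_congr
        intro i
        simp only [f2]
        rw [if_neg]
        rintro ⟨k, hk⟩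
        exact hv _ hk
      rw [e1, cob_sub, cob_cob, sub_zero, hf τ ((spans_del τ).mpr ⟨hτ, hv⟩)]
    · push Not at hv
      obtain ⟨i0, hi0⟩ := hv
      unfold cob
      apply Finset.sum_eq_zero
      intro i _
      have e2 : f2 (τ ∘ i.succAbove) = 0 := by
        simp only [f2]
        split_ifs with h3
        · rfl
        · push Not at h3
          have e3 : Spans K (Fin.cons v (τ ∘ i.succAbove) : Fin (j + 3) → V) :=
            spans_cons_comp hK τ (spans_cons_of τ hτ i0 hi0) _
          rw [hh _ ((spans_lk _).mpr ⟨e3, h3⟩), sub_self]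
      rw [e2, smul_zero])
  refine ⟨fun τ => g τ + h τ, fun τ hτ => ?_⟩
  obtain ⟨e1, e2⟩ := (spans_del τ).mp hτ
  have e3 := hg τ e1
  simp only [f2] at e3
  rw [if_neg (by push Not; exact e2)] at e3
  rw [cob_add, ← e3]
  abel

end Cox957
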