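import Pool.Agent.helper957_cox.Coh

set_option autoImplicit false
set_option linter.unusedSectionVars false

namespace Cox957

variable {V : Type} [DecidableEq V] [Fintype V]

/-- coboundary and additive maps -/
theorem cob_map {A B : Type} [AddCommGroup A] [AddCommGroup B] (φ : A →+ B) {j : ℕ}
    (f : (Fin (j + 1) → V) → A) (τ : Fin (j + 2) → V) :
    cob (fun σ => φ (f σ)) τ = φ (cob f τ) := by
  unfold cob
  rw [map_sum]
  apply Finset.sum_congr rfl
  intro i _
  rw [map_zsmul]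

/-- C1b: from `ℚ` to `ℝ`. -/
theorem C1b {K : Set (Finset V)} (j : ℕ) (h : HZ K ℚ j) : HZ K ℝ j := by
  classical
  intro f hf
  let b := Module.Basis.ofVectorSpace ℚ ℝ
  let I := Module.Basis.ofVectorSpaceIndex ℚ ℝ
  -- coordinates
  have hc : ∀ i : I, ∃ g : (Fin (j + 1) → V) → ℚ, ∀ τ, Spans K τ →
      b.repr (f τ) i = cob g τ := by
    intro i
    apply h (fun τ => b.repr (f τ) i)
    intro τ hτ
    let φ : ℝ →+ ℚ := ((Finsupp.lapply i).comp (b.repr : ℝ →ₗ[ℚ] (I →₀ ℚ))).toAddMonoidHom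
    have e := cob_map φ f τ
    rw [hf τ hτ, map_zero] at e
    exact e
  choose g hg using hc
  let s : Finset I := Finset.univ.biUnion fun τ : Fin (j + 2) → V => (b.repr (f τ)).support
  refine ⟨fun σ => ∑ i ∈ s, (g i σ : ℚ) • b i, fun τ hτ => ?_⟩
  have e1 : f τ = ∑ i ∈ s, (b.repr (f τ) i) • b i := by
    have e2 := (b.linearCombination_repr (f τ)).symm
    rw [Finsupp.linearCombination_apply, Finsupp.sum_of_support_subset (s := s)] at e2
    · exact e2
    · intro i hi
      exact Finset.mem_biUnion.mpr ⟨τ, Finset.mem_univ _, hi⟩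
    · intro i _
      exact zero_smul _ _
  rw [e1]
  unfold cob
  simp only [Finset.smul_sum]
  rw [Finset.sum_comm]
  apply Finset.sum_congr rfl
  intro i _
  rw [hg i τ hτ]
  unfold cob
  rw [Finset.sum_smul]
  apply Finset.sum_congr rfl
  intro k _
  rw [smul_assoc]

theorem spans_iff3 {K : Set (Finset V)} (u v w : V) :
    Spans K ![u, v, w] ↔ ({u, v, w} : Finset V) ∈ K := by
  unfold Spans
  have : Finset.univ.image ![u, v, w] = ({u, v, w} : Finset V) := by
    ext x
    simp only [Finset.mem_image, Finset.mem_univ, true_and, Fin.exists_fin_succ,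
      Matrix.cons_val_zero, Matrix.cons_val_succ, Finset.mem_insert, Finset.mem_singleton,
      IsEmpty.exists_iff, or_false]
    tauto
  rw [this]

theorem spans_iff4 {K : Set (Finset V)} (u v w x : V) :
    Spans K ![u, v, w, x] ↔ ({u, v, w, x} : Finset V) ∈ K := by
  unfold Spans
  have : Finset.univ.image ![u, v, w, x] = ({u, v, w, x} : Finset V) := by
    ext y
    simp only [Finset.mem_image, Finset.mem_univ, true_and, Fin.exists_fin_succ,
      Matrix.cons_val_zero, Matrix.cons_val_succ, Finset.mem_insert, Finset.mem_singleton,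
      IsEmpty.exists_iff, or_false]
    tauto
  rw [this]

theorem eta3 (τ : Fin 3 → V) : τ = ![τ 0, τ 1, τ 2] := by
  funext i
  fin_cases i <;> rfl

theorem eta4 (τ : Fin 4 → V) : τ = ![τ 0, τ 1, τ 2, τ 3] := by
  funext i
  fin_cases i <;> rfl

theorem eta2 (τ : Fin 2 → V) : τ = ![τ 0, τ 1] := by
  funext i
  fin_cases i <;> rfl

theorem cob3 {A : Type} [AddCommGroup A] (f : (Fin 3 → V) → A) (u v w x : V) :
    cob f ![u, v, w, x] = f ![v, w, x] - f ![u, w, x] + f ![u, v, x] - f ![u, v, w] := by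
  unfold cob
  rw [Fin.sum_univ_four]
  have h0 : (![u, v, w, x] : Fin 4 → V) ∘ (0 : Fin 4).succAbove = ![v, w, x] := by
    funext i; fin_cases i <;> rfl
  have h1 : (![u, v, w, x] : Fin 4 → V) ∘ (1 : Fin 4).succAbove = ![u, w, x] := by
    funext i; fin_cases i <;> rfl
  have h2 : (![u, v, w, x] : Fin 4 → V) ∘ (2 : Fin 4).succAbove = ![u, v, x] := by
    funext i; fin_cases i <;> rfl
  have h3 : (![u, v, w, x] : Fin 4 → V) ∘ (3 : Fin 4).succAbove = ![u, v, w] := by
    funext i; fin_cases i <;> rfl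
  rw [h0, h1, h2, h3]
  norm_num
  abel

theorem cob2 {A : Type} [AddCommGroup A] (f : (Fin 2 → V) → A) (u v w : V) :
    cob f ![u, v, w] = f ![v, w] - f ![u, w] + f ![u, v] := by
  unfold cob
  rw [Fin.sum_univ_three]
  have h0 : (![u, v, w] : Fin 3 → V) ∘ (0 : Fin 3).succAbove = ![v, w] := by
    funext i; fin_cases i <;> rfl
  have h1 : (![u, v, w] : Fin 3 → V) ∘ (1 : Fin 3).succAbove = ![u, w] := by
    funext i; fin_cases i <;> rfl
  have h2 : (![u, v, w] : Fin 3 → V) ∘ (2 : Fin 3).succAbove = ![u, v] := by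
    funext i; fin_cases i <;> rfl
  rw [h0, h1, h2]
  norm_num
  abel

/-- C1: from `ℝ` to the three variable form. -/
theorem C1 {K : Set (Finset V)} (h : HZ K ℝ 1) : H2R K := by
  intro b hb
  obtain ⟨g, hg⟩ := h (fun τ => b (τ 0) (τ 1) (τ 2)) (by
    intro τ hτ
    rw [eta4 τ] at hτ ⊢
    rw [cob3]
    exact hb _ _ _ _ ((spans_iff4 _ _ _ _).mp hτ))
  refine ⟨fun u v => g ![u, v], fun u v w hT => ?_⟩
  have := hg ![u, v, w] ((spans_iff3 _ _ _).mpr hT)
  rw [cob2] at this
  exact this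

theorem isInt_iff (x : ℝ) : IsInt x ↔ ((x : ℝ) : AddCircle (1 : ℝ)) = 0 := by
  rw [AddCircle.coe_eq_zero_iff]
  constructor
  · rintro ⟨n, hn⟩
    exact ⟨n, by rw [hn]; simp⟩
  · rintro ⟨n, hn⟩
    exact ⟨n, by rw [← hn]; simp⟩

/-- C2: three variable form to the general form, coefficients `ℝ/ℤ`. -/
theorem C2 {K : Set (Finset V)} (h : H2T K) : HZ K (AddCircle (1 : ℝ)) 1 := by
  intro f hf
  have hlift : ∀ x : AddCircle (1 : ℝ), ∃ r : ℝ, (r : AddCircle (1 : ℝ)) = x :=
    fun x => QuotientAddGroup.mk_surjective x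
  choose r hr using hlift
  obtain ⟨a, ha⟩ := h (fun u v w => r (f ![u, v, w])) (by
    intro u v w x hT
    rw [isInt_iff]
    have := hf ![u, v, w, x] ((spans_iff4 _ _ _ _).mpr hT)
    rw [cob3] at this
    rw [AddCircle.coe_sub, AddCircle.coe_add, AddCircle.coe_sub, hr, hr, hr, hr]
    exact this)
  refine ⟨fun τ => ((a (τ 0) (τ 1) : ℝ) : AddCircle (1 : ℝ)), fun τ hτ => ?_⟩
  rw [eta3 τ] at hτ ⊢
  have := ha _ _ _ ((spans_iff3 _ _ _).mp hτ)
  rw [isInt_iff, AddCircle.coe_sub, AddCircle.coe_add, AddCircle.coe_sub, hr, sub_eq_zero] at this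
  rw [this, cob2]
  rfl

theorem HZ_empty (A : Type) [AddCommGroup A] (j : ℕ) : HZ (∅ : Set (Finset V)) A j := by
  intro f _
  exact ⟨fun _ => 0, fun τ hτ => absurd hτ (Set.notMem_empty _)⟩

theorem lk_empty (K : Set (Finset V)) : lk K ∅ = K := by
  ext T
  simp [lk]

theorem lk_lk (K : Set (Finset V)) (S T : Finset V) (h : T ∈ lk K S) :
    lk (lk K S) T = lk K (T ∪ S) := by
  ext R
  unfold lk at *
  simp only [Set.mem_ofPred_eq] at *
  rw [Finset.disjoint_union_left, Finset.disjoint_union_right, Finset.union_assoc]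
  constructor
  · rintro ⟨h1, ⟨h2, h3⟩, h4⟩
    exact ⟨⟨h1, h2⟩, h4⟩
  · rintro ⟨⟨h1, h2⟩, h4⟩
    exact ⟨h1, ⟨h2, h.1⟩, h4⟩

theorem lk_cx {K : Set (Finset V)} (hK : IsCx K) (S : Finset V) : IsCx (lk K S) := by
  rintro T ⟨h1, h2⟩ U hU
  exact ⟨Finset.disjoint_of_subset_left hU h1, hK _ h2 _ (Finset.union_subset_union_left hU)⟩

theorem del_cx {K : Set (Finset V)} (hK : IsCx K) (v : V) : IsCx (del K v) := by
  rintro T ⟨h1, h2⟩ U hU
  exact ⟨hK T h1 U hU, fun h => h2 (hU h)⟩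

theorem lk_del (K : Set (Finset V)) (v : V) (S : Finset V) (hS : v ∉ S) :
    lk (del K v) S = del (lk K S) v := by
  ext T
  unfold lk del
  simp only [Set.mem_ofPred_eq, Finset.mem_union, not_or]
  tauto

/-- all links have vanishing `H²(·; ℚ)` -/
def Good (K : Set (Finset V)) : Prop := ∀ S ∈ K, HZ (lk K S) ℚ 1

theorem good_lk {K : Set (Finset V)} (h : Good K) (S : Finset V) : Good (lk K S) := by
  intro T hT
  rw [lk_lk K S T hT]
  exact h _ hT.2

theorem good_del {K : Set (Finset V)} (hK : IsCx K) (h : Good K) (v : V) : Good (del K v) := by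
  intro S hS
  rw [lk_del K v S hS.2]
  apply C4 (lk_cx hK S) ℚ v 1 (h S hS.1)
  by_cases hv : {v} ∈ lk K S
  · rw [lk_lk K S {v} hv]
    exact h _ hv.2
  · have : lk (lk K S) {v} = ∅ := by
      rw [Set.eq_empty_iff_forall_notMem]
      intro T hT
      apply hv
      exact lk_cx hK S _ hT.2 _ Finset.subset_union_right
    rw [this]
    exact HZ_empty ℚ 1

/-- C5: all degrees at least two. -/
theorem C5 (n : ℕ) : ∀ {K : Set (Finset V)} (_ : IsCx K) (_ : Good K)
    (_ : {v : V | {v} ∈ K}.ncard = n) (j : ℕ),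
    HZ K (AddCircle (1 : ℝ)) (j + 1) ∧ HZ K ℚ (j + 1) := by
  induction n using Nat.strong_induction_on with
  | _ n ih =>
  intro K hK hg hn j
  by_cases hKe : K = ∅
  · rw [hKe]; exact ⟨HZ_empty _ _, HZ_empty _ _⟩
  have h0 : ∅ ∈ K := by
    obtain ⟨T, hT⟩ := Set.nonempty_iff_ne_empty.mpr hKe
    exact hK T hT ∅ (Finset.empty_subset _)
  cases j with
  | zero =>
    constructor
    · exact C2 (H2TR hK (fun S hS => C1 (C1b 1 (hg S hS))))
    · have := hg ∅ h0
      rw [lk_empty] at this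
      exact this
  | succ j =>
    by_cases hv : ∃ v : V, {v} ∈ K
    · obtain ⟨v, hv⟩ := hv
      have hd := ih {u : V | {u} ∈ del K v}.ncard (by
        rw [← hn]
        apply Set.ncard_lt_ncard
        · refine ⟨fun u hu => hu.1, fun h => ?_⟩
          have h1 : v ∈ {u : V | {u} ∈ del K v} := h hv
          exact h1.2 (Finset.mem_singleton_self v)
        · exact Set.toFinite _) (del_cx hK v) (good_del hK hg v) rfl (j + 1)
      have hl := ih {u : V | {u} ∈ lk K {v}}.ncard (by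
        rw [← hn]
        apply Set.ncard_lt_ncard
        · refine ⟨fun u hu => hK _ hu.2 _ Finset.subset_union_left, fun h => ?_⟩
          have h1 : v ∈ {u : V | {u} ∈ lk K {v}} := h hv
          exact (Finset.disjoint_left.mp h1.1) (Finset.mem_singleton_self v)
            (Finset.mem_singleton_self v)
        · exact Set.toFinite _) (lk_cx hK {v}) (good_lk hg {v}) rfl j
      exact ⟨C3 hK _ v (j + 1) hd.1 hl.1, C3 hK _ v (j + 1) hd.2 hl.2⟩
    · push Not at hv
      have hno : ∀ (m : ℕ) (τ : Fin (m + 1) → V), ¬ Spans K τ := by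
        intro m τ hτ
        apply hv (τ 0)
        exact hK _ hτ _ (by simp)
      exact ⟨fun f _ => ⟨fun _ => 0, fun τ hτ => absurd hτ (hno _ τ)⟩,
        fun f _ => ⟨fun _ => 0, fun τ hτ => absurd hτ (hno _ τ)⟩⟩

/-- C6: integral cohomology in degrees at least three. -/
theorem C6 {K : Set (Finset V)} (h1 : ∀ j, HZ K (AddCircle (1 : ℝ)) (j + 1))
    (h2 : ∀ j, HZ K ℚ (j + 1)) (hK : IsCx K) (j : ℕ) : HZ K ℤ (j + 2) := by
  intro f hf
  obtain ⟨g, hg⟩ := C1b (j + 2) (h2 (j + 1)) (fun τ => (f τ : ℝ)) (by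
    intro τ hτ
    have e := cob_map (Int.castAddHom ℝ) f τ
    rw [hf τ hτ, map_zero] at e
    exact e)
  obtain ⟨hb, hhb⟩ := h1 j (fun τ => ((g τ : ℝ) : AddCircle (1 : ℝ))) (by
    intro τ hτ
    have e := cob_map (QuotientAddGroup.mk' (AddSubgroup.zmultiples (1 : ℝ))) g τ
    rw [← hg τ hτ] at e
    have e2 : (((f τ : ℝ)) : AddCircle (1 : ℝ)) = 0 := (isInt_iff _).mp ⟨f τ, rfl⟩
    exact e.trans e2)
  have hlift : ∀ x : AddCircle (1 : ℝ), ∃ r : ℝ, (r : AddCircle (1 : ℝ)) = x :=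
    fun x => QuotientAddGroup.mk_surjective x
  choose r hr using hlift
  have hint : ∀ τ, ∃ n : ℤ, Spans K τ → g τ - cob (fun σ => r (hb σ)) τ = n := by
    intro τ
    by_cases hτ : Spans K τ
    · have e : IsInt (g τ - cob (fun σ => r (hb σ)) τ) := by
        rw [isInt_iff, AddCircle.coe_sub]
        have e3 : cob (fun σ => ((r (hb σ) : ℝ) : AddCircle (1 : ℝ))) τ =
            ((cob (fun σ => r (hb σ)) τ : ℝ) : AddCircle (1 : ℝ)) :=
          cob_map (QuotientAddGroup.mk' (AddSubgroup.zmultiples (1 : ℝ)))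
            (fun σ => r (hb σ)) τ
        simp only [hr] at e3
        rw [← e3, hhb τ hτ, sub_self]
      obtain ⟨n, hn⟩ := e
      exact ⟨n, fun _ => hn⟩
    · exact ⟨0, fun h => absurd h hτ⟩
  choose m hm using hint
  refine ⟨m, fun τ hτ => ?_⟩
  have e5 : ((f τ : ℤ) : ℝ) = ((cob m τ : ℤ) : ℝ) := by
    rw [hg τ hτ]
    have e6 := cob_map (Int.castAddHom ℝ) m τ
    rw [show ((cob m τ : ℤ) : ℝ) = _ from e6.symm]
    have e7 : cob (fun σ => (Int.castAddHom ℝ) (m σ)) τ =
        cob (fun σ => g σ - cob (fun σ => r (hb σ)) σ) τ := by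
      apply cob_congr
      intro i
      rw [hm _ (spans_comp hK τ hτ _)]
      rfl
    rw [e7, cob_sub, cob_cob, sub_zero]
  exact_mod_cast e5

/-- the combinatorial theorem -/
theorem MAIN {K : Set (Finset V)} (hK : IsCx K) (hg : Good K) (S : Finset V) (j : ℕ) :
    HZ (lk K S) (AddCircle (1 : ℝ)) (j + 1) ∧ HZ (lk K S) ℚ (j + 1) ∧
      HZ (lk K S) ℤ (j + 2) := by
  have h := C5 _ (lk_cx hK S) (good_lk hg S) rfl
  exact ⟨(h j).1, (h j).2, C6 (fun j => (h j).1) (fun j => (h j).2) (lk_cx hK S) j⟩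

end Cox957
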