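import Pool.Agent.helper957_cox.Ex

set_option autoImplicit false
set_option linter.unusedSectionVars false

namespace Cox957

variable {V : Type} [DecidableEq V] [Fintype V]

/-- DI: dictionary. -/
theorem DI {K : Set (Finset V)} (hK : IsCx K) (M : Model K) : H2T K := by
  classical
  intro b hb
  by_cases hV : Nonempty V
  swap
  · exact ⟨fun _ _ => 0, fun u => absurd ⟨u⟩ hV⟩
  obtain ⟨v0⟩ := hV
  let t : Finset V → V := fun T => if h : T.Nonempty then h.choose else v0
  have ht : ∀ T : Finset V, T.Nonempty → t T ∈ T := by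
    intro T h
    simp only [t]
    rw [dif_pos h]
    exact h.choose_spec
  have hco : ∀ u v w x T, u ∈ T → v ∈ T → w ∈ T → x ∈ T → T ∈ K →
      IsInt (b v w x - b u w x + b u v x - b u v w) := by
    intro u v w x T hu hv hw hx hT
    apply hb
    refine hK T hT _ ?_
    intro y hy
    simp only [Finset.mem_insert, Finset.mem_singleton] at hy
    rcases hy with rfl | rfl | rfl | rfl <;> assumption
  obtain ⟨κ, hκ⟩ := M.H2 (fun A B C => b (t A) (t B) (t C))
  let χ : V → Finset V → Finset V → ℝ := fun u A B => b u (t A) (t B) - κ A B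
  let U : Finset V := Finset.univ.filter fun u => {u} ∈ K
  have hUm : ∀ u T, u ∈ T → T ∈ K → u ∈ U := by
    intro u T hu hT
    simp only [U, Finset.mem_filter, Finset.mem_univ, true_and]
    exact hK T hT _ (Finset.singleton_subset_iff.mpr hu)
  have hgrad : ∀ u v A B, u ∈ A → v ∈ A → A ⊂ B → B ∈ K →
      IsInt (χ u A B - χ v A B - (b u v (t B) - b u v (t A))) := by
    intro u v A B hu hv hAB hB
    have h1 := (hco u v (t A) (t B) B (hAB.1 hu) (hAB.1 hv) (hAB.1 (ht A ⟨u, hu⟩))
      (ht B ⟨u, hAB.1 hu⟩) hB).neg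
    have e : χ u A B - χ v A B - (b u v (t B) - b u v (t A)) =
      -(b v (t A) (t B) - b u (t A) (t B) + b u v (t B) - b u v (t A)) := by
      simp only [χ]; ring
    rw [e]; exact h1
  obtain ⟨ψ, hψ, hψt⟩ := EX hK M U (fun u hu => by
      simpa only [U, Finset.mem_filter, Finset.mem_univ, true_and] using hu) χ (by
      intro u _ A B C hF hA
      have hAB := M.lt1 A B C hF
      have hBC := M.lt2 A B C hF
      have hC := M.mem A B C hF
      have h1 := (hco u (t A) (t B) (t C) C (hBC.1 (hAB.1 hA)) (hBC.1 (hAB.1 (ht A ⟨u, hA⟩)))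
        (hBC.1 (ht B ⟨u, hAB.1 hA⟩)) (ht C ⟨u, hBC.1 (hAB.1 hA)⟩) hC).neg
      have e : χ u A B + χ u B C - χ u A C =
        -(b (t A) (t B) (t C) - b u (t B) (t C) + b u (t A) (t C) - b u (t A) (t B)) := by
        have := hκ A B C hF
        simp only [χ]; linarith
      rw [e]; exact h1) (by
      intro u _ v _
      refine ⟨fun T => b u v (t T), fun A B hA hAB hB => ?_⟩
      exact hgrad u v A B (hA (by simp)) (hA (by simp)) hAB hB)
  choose! l hl using hψt
  let a' : V → V → ℝ := fun u v => l u {u, v} - l v {u, v} - b u v (t {u, v})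
  have ha' : ∀ u v T, u ∈ T → v ∈ T → T ∈ K →
      IsInt (l u T - l v T - b u v (t T) - a' u v) := by
    intro u v T hu hv hT
    by_cases hTe : T = {u, v}
    · subst hTe
      exact ⟨0, by simp [a']⟩
    · have hss : ({u, v} : Finset V) ⊂ T := by
        refine lt_of_le_of_ne ?_ (Ne.symm hTe)
        intro x hx
        simp only [Finset.mem_insert, Finset.mem_singleton] at hx
        rcases hx with rfl | rfl <;> assumption
      have e1 := hl u (hUm u T hu hT) {u, v} T (by simp) hss hT
      have e2 := hl v (hUm v T hv hT) {u, v} T (by simp) hss hT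
      have e3 := hgrad u v {u, v} T (by simp) (by simp) hss hT
      have e4 := (e3.sub e1).add e2
      have e : l u T - l v T - b u v (t T) - a' u v =
        χ u {u, v} T - χ v {u, v} T - (b u v (t T) - b u v (t {u, v})) -
          (χ u {u, v} T - ψ {u, v} T - (l u T - l u {u, v})) +
          (χ v {u, v} T - ψ {u, v} T - (l v T - l v {u, v})) := by
        simp only [a']; ring
      rw [e]; exact e4
  refine ⟨fun u v => - a' u v, fun u v w hT => ?_⟩
  set T : Finset V := {u, v, w} with hTd
  have hu : u ∈ T := by simp [hTd]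
  have hv : v ∈ T := by simp [hTd]
  have hw : w ∈ T := by simp [hTd]
  have e1 := ha' u v T hu hv hT
  have e2 := ha' v w T hv hw hT
  have e3 := ha' u w T hu hw hT
  have e4 := hco u v w (t T) T hu hv hw (ht T ⟨u, hu⟩) hT
  have e5 := ((e1.add e2).sub e3).add e4
  have e : b u v w - (- a' v w - - a' u w + - a' u v) =
    -(l u T - l v T - b u v (t T) - a' u v + (l v T - l w T - b v w (t T) - a' v w) -
      (l u T - l w T - b u w (t T) - a' u w) +
      (b v w (t T) - b u w (t T) + b u v (t T) - b u v w)) := by ring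
  rw [e]
  exact e5.neg

end Cox957
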