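import Pool.Agent.helper957_cox.TS7

set_option autoImplicit false
set_option linter.unusedSectionVars false

namespace Cox957

variable {V : Type} [DecidableEq V] [Fintype V]

theorem IsInt.zero : IsInt 0 := ⟨0, by simp⟩

/-- EX: compatible families of flat functions extend. -/
theorem EX {K : Set (Finset V)} (hK : IsCx K) (M : Model K) (U : Finset V)
    (hU : ∀ u ∈ U, {u} ∈ K) : ∀ (χ : V → Finset V → Finset V → ℝ)
    (_ : ∀ u ∈ U, ∀ A B C, M.F A B C → u ∈ A → IsInt (χ u A B + χ u B C - χ u A C))
    (_ : ∀ u ∈ U, ∀ v ∈ U, Triv K {u, v} (fun A B => χ u A B - χ v A B)),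
    ∃ ψ : Finset V → Finset V → ℝ, Flat M ψ ∧
      ∀ u ∈ U, Triv K {u} (fun A B => χ u A B - ψ A B) := by
  classical
  induction hn : U.card using Nat.strong_induction_on generalizing U with
  | _ n ih =>
  intro χ hf hc
  by_cases h0 : U = ∅
  · subst h0
    exact ⟨0, fun A B C _ => ⟨0, by simp⟩, fun u hu => absurd hu (Finset.notMem_empty u)⟩
  obtain ⟨v, hv⟩ := Finset.nonempty_iff_ne_empty.mpr h0
  by_cases h1 : U.erase v = ∅
  · -- one vertex
    let c0 : Finset V → Finset V → ℝ := fun A B => if v ∈ A then χ v A B else 0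
    obtain ⟨φ, hφ1, hφ2⟩ := REL hK M v v (hU v hv) (hU v hv)
      (fun A B C => -(c0 A B + c0 B C - c0 A C))
    refine ⟨fun A B => c0 A B + φ A B, ?_, ?_⟩
    · intro A B C hF
      by_cases hA : v ∈ A
      · have hAB := M.lt1 A B C hF
        have e : c0 A B + φ A B + (c0 B C + φ B C) - (c0 A C + φ A C) =
            χ v A B + χ v B C - χ v A C := by
          rw [hφ1 A B (Or.inl hA), hφ1 B C (Or.inl (hAB.1 hA)), hφ1 A C (Or.inl hA)]
          simp only [c0]
          rw [if_pos hA, if_pos (hAB.1 hA), if_pos hA]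
          ring
        rw [e]
        exact hf v hv A B C hF hA
      · have e : c0 A B + φ A B + (c0 B C + φ B C) - (c0 A C + φ A C) = 0 := by
          have := hφ2 A B C hF hA hA
          linarith
        rw [e]
        exact IsInt.zero
    · intro u hu
      have huv : u = v := by
        by_contra h
        have : u ∈ U.erase v := Finset.mem_erase.mpr ⟨h, hu⟩
        rw [h1] at this
        exact Finset.notMem_empty u this
      subst huv
      refine ⟨0, fun A B hA _ _ => ?_⟩
      have hA' : u ∈ A := by simpa using hA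
      have e : χ u A B - (c0 A B + φ A B) - ((0 : Finset V → ℝ) B - (0 : Finset V → ℝ) A) = 0 := by
        simp only [c0]
        rw [hφ1 A B (Or.inl hA'), if_pos hA']
        simp
      rw [e]
      exact IsInt.zero
  · obtain ⟨w, hw⟩ := Finset.nonempty_iff_ne_empty.mpr h1
    have hwU : w ∈ U := Finset.mem_of_mem_erase hw
    have hwv : w ≠ v := Finset.ne_of_mem_erase hw
    have hc1 : (U.erase v).card < n := by rw [← hn]; exact Finset.card_erase_lt_of_mem hv
    have hc2 : (U.erase w).card < n := by rw [← hn]; exact Finset.card_erase_lt_of_mem hwU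
    obtain ⟨ψ1, hψ1, hψ1t⟩ := ih _ hc1 (U.erase v) (fun u hu => hU u (Finset.mem_of_mem_erase hu))
      rfl χ (fun u hu => hf u (Finset.mem_of_mem_erase hu))
      (fun u hu u' hu' => hc u (Finset.mem_of_mem_erase hu) u' (Finset.mem_of_mem_erase hu'))
    -- the second family
    let d : V → Finset V → Finset V → ℝ := fun u A B => if u = v then χ v A B - ψ1 A B else 0
    have hdv : ∀ A B, d v A B = χ v A B - ψ1 A B := fun A B => by simp [d]
    have hdu : ∀ u, u ≠ v → ∀ A B, d u A B = 0 := fun u hu A B => by simp [d, hu]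
    have htriv : ∀ u ∈ U, u ≠ v → Triv K {v, u} (fun A B => χ v A B - ψ1 A B) := by
      intro u hu huv
      obtain ⟨l1, hl1⟩ := hc v hv u hu
      obtain ⟨l2, hl2⟩ := hψ1t u (Finset.mem_erase.mpr ⟨huv, hu⟩)
      refine ⟨fun T => l1 T + l2 T, fun A B hA hAB hB => ?_⟩
      have e1 := hl1 A B hA hAB hB
      have e2 := hl2 A B (by
        intro x hx
        rw [Finset.mem_singleton] at hx
        subst hx
        exact hA (by simp)) hAB hB
      have e3 := e1.add e2
      have e : χ v A B - ψ1 A B - (l1 B + l2 B - (l1 A + l2 A)) =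
          χ v A B - χ u A B - (l1 B - l1 A) + (χ u A B - ψ1 A B - (l2 B - l2 A)) := by ring
      show IsInt (χ v A B - ψ1 A B - (l1 B + l2 B - (l1 A + l2 A)))
      rw [e]
      exact e3
    obtain ⟨ψ2, hψ2, hψ2t⟩ := ih _ hc2 (U.erase w) (fun u hu => hU u (Finset.mem_of_mem_erase hu))
      rfl d (by
        intro u hu A B C hF hA
        by_cases huv : u = v
        · subst huv
          rw [hdv, hdv, hdv]
          have e1 := hf u (Finset.mem_of_mem_erase hu) A B C hF hA
          have e2 := hψ1 A B C hF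
          have e3 := e1.sub e2
          have e : χ u A B - ψ1 A B + (χ u B C - ψ1 B C) - (χ u A C - ψ1 A C) =
            χ u A B + χ u B C - χ u A C - (ψ1 A B + ψ1 B C - ψ1 A C) := by ring
          rw [e]; exact e3
        · rw [hdu u huv, hdu u huv, hdu u huv]
          exact ⟨0, by simp⟩) (by
        intro u hu u' hu'
        by_cases huv : u = v
        · by_cases hu'v : u' = v
          · subst huv; subst hu'v
            exact ⟨0, fun A B _ _ _ => ⟨0, by simp⟩⟩
          · subst huv
            obtain ⟨l, hl⟩ := htriv u' (Finset.mem_of_mem_erase hu') hu'v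
            refine ⟨l, fun A B hA hAB hB => ?_⟩
            have := hl A B hA hAB hB
            show IsInt (d u A B - d u' A B - (l B - l A))
            rw [hdv, hdu u' hu'v, sub_zero]
            exact this
        · by_cases hu'v : u' = v
          · subst hu'v
            obtain ⟨l, hl⟩ := htriv u (Finset.mem_of_mem_erase hu) huv
            refine ⟨fun T => - l T, fun A B hA hAB hB => ?_⟩
            have := (hl A B (by rw [Finset.pair_comm]; exact hA) hAB hB).neg
            show IsInt (d u A B - d u' A B - (- l B - - l A))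
            rw [hdv, hdu u huv]
            have e : 0 - (χ u' A B - ψ1 A B) - (-l B - -l A) =
              -(χ u' A B - ψ1 A B - (l B - l A)) := by ring
            rw [e]; exact this
          · refine ⟨0, fun A B _ _ _ => ⟨0, ?_⟩⟩
            show d u A B - d u' A B - ((0 : Finset V → ℝ) B - (0 : Finset V → ℝ) A) = _
            rw [hdu u huv, hdu u' hu'v]
            simp)
    have hvw : v ∈ U.erase w := Finset.mem_erase.mpr ⟨Ne.symm hwv, hv⟩
    -- ψ2 is trivial on `P_u` for `u ≠ v, w`, and on `P_{v,w}`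
    have hψ2u : ∀ u ∈ (U.erase v).erase w, Triv K {u} ψ2 := by
      intro u hu
      have huw : u ≠ w := Finset.ne_of_mem_erase hu
      have hu1 := Finset.mem_of_mem_erase hu
      have huv : u ≠ v := Finset.ne_of_mem_erase hu1
      have huU := Finset.mem_of_mem_erase hu1
      obtain ⟨l, hl⟩ := hψ2t u (Finset.mem_erase.mpr ⟨huw, huU⟩)
      refine ⟨fun T => - l T, fun A B hA hAB hB => ?_⟩
      have := (hl A B hA hAB hB).neg
      simp only [hdu u huv] at this
      have e : ψ2 A B - (-l B - -l A) = -(0 - ψ2 A B - (l B - l A)) := by ring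
      show IsInt (ψ2 A B - (-l B - -l A))
      rw [e]; exact this
    have hψ2vw : Triv K {v, w} ψ2 := by
      obtain ⟨l1, hl1⟩ := htriv w hwU hwv
      obtain ⟨l2, hl2⟩ := hψ2t v hvw
      refine ⟨fun T => l1 T - l2 T, fun A B hA hAB hB => ?_⟩
      have e1 := hl1 A B hA hAB hB
      have e2 := hl2 A B (by
        intro x hx
        rw [Finset.mem_singleton] at hx
        subst hx
        exact hA (by simp)) hAB hB
      simp only [hdv] at e2
      have e3 := e1.sub e2
      have e : ψ2 A B - (l1 B - l2 B - (l1 A - l2 A)) =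
        χ v A B - ψ1 A B - (l1 B - l1 A) - (χ v A B - ψ1 A B - ψ2 A B - (l2 B - l2 A)) := by ring
      show IsInt (ψ2 A B - (l1 B - l2 B - (l1 A - l2 A)))
      rw [e]; exact e3
    obtain ⟨ψ3, h3a, h3b, h3c, h3d⟩ := TS hK M v w (hU v hv) (hU w hwU) ((U.erase v).erase w)
      (fun u hu => hU u (Finset.mem_of_mem_erase (Finset.mem_of_mem_erase hu))) ψ2 hψ2 hψ2u hψ2vw
    refine ⟨fun A B => ψ1 A B + ψ3 A B, ?_, ?_⟩
    · intro A B C hF
      have e1 := hψ1 A B C hF
      have e2 := h3a A B C hF
      have e : ψ1 A B + ψ3 A B + (ψ1 B C + ψ3 B C) - (ψ1 A C + ψ3 A C) =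
        (ψ1 A B + ψ1 B C - ψ1 A C) + (ψ3 A B + ψ3 B C - ψ3 A C) := by ring
      rw [e]; exact e1.add e2
    · intro u hu
      by_cases huv : u = v
      · subst huv
        obtain ⟨l1, hl1⟩ := hψ2t u hvw
        obtain ⟨l2, hl2⟩ := h3d
        refine ⟨fun T => l1 T - l2 T, fun A B hA hAB hB => ?_⟩
        have e1 := hl1 A B hA hAB hB
        have e2 := hl2 A B hA hAB hB
        simp only [hdv] at e1
        have e : χ u A B - (ψ1 A B + ψ3 A B) - (l1 B - l2 B - (l1 A - l2 A)) =
          (χ u A B - ψ1 A B - ψ2 A B - (l1 B - l1 A)) -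
            (ψ3 A B - ψ2 A B - (l2 B - l2 A)) := by ring
        show IsInt (χ u A B - (ψ1 A B + ψ3 A B) - (l1 B - l2 B - (l1 A - l2 A)))
        rw [e]; exact e1.sub e2
      · have h4 : Triv K {u} ψ3 := by
          by_cases huw : u = w
          · rw [huw]; exact h3c
          · exact h3b u (Finset.mem_erase.mpr ⟨huw, Finset.mem_erase.mpr ⟨huv, hu⟩⟩)
        obtain ⟨l1, hl1⟩ := hψ1t u (Finset.mem_erase.mpr ⟨huv, hu⟩)
        obtain ⟨l2, hl2⟩ := h4
        refine ⟨fun T => l1 T - l2 T, fun A B hA hAB hB => ?_⟩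
        have e1 := hl1 A B hA hAB hB
        have e2 := hl2 A B hA hAB hB
        have e : χ u A B - (ψ1 A B + ψ3 A B) - (l1 B - l2 B - (l1 A - l2 A)) =
          (χ u A B - ψ1 A B - (l1 B - l1 A)) - (ψ3 A B - (l2 B - l2 A)) := by ring
        show IsInt (χ u A B - (ψ1 A B + ψ3 A B) - (l1 B - l2 B - (l1 A - l2 A)))
        rw [e]; exact e1.sub e2

end Cox957
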