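import Pool.Agent.helper957_cox.Base
import Pool.Agent.H248.ID.J01

set_option autoImplicit false
open scoped ContDiff
open MeasureTheory H248.ID

namespace Cox957

/-- determinant as a continuous multilinear map of the rows -/
noncomputable def cdet (n : ℕ) : ContinuousMultilinearMap ℝ (fun _ : Fin n => Fin n → ℝ) ℝ :=
  ⟨(Matrix.detRowAlternating (n := Fin n) (R := ℝ)).toMultilinearMap, by
    exact (continuous_id.matrix_det : Continuous fun v : Matrix (Fin n) (Fin n) ℝ => v.det)⟩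

theorem cdet_apply {n : ℕ} (r : Fin n → Fin n → ℝ) : cdet n r = (Matrix.of r).det := rfl

variable {n : ℕ}

/-- rows of the spatial Jacobian matrix -/
noncomputable def Rw (G : ℝ × E n → E n) (i : Fin n) (p : ℝ × E n) : Fin n → ℝ :=
  fun j => fderiv ℝ G p (0, Pi.single j 1) i

theorem Rw_contDiff {G : ℝ × E n → E n} (hG : ContDiff ℝ ∞ G) (i : Fin n) :
    ContDiff ℝ ∞ (Rw G i) := by
  unfold Rw
  rw [contDiff_pi]
  intro j
  have h1 : ContDiff ℝ ∞ (fderiv ℝ G) := hG.fderiv_right (m := ∞) (by simp)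
  exact (contDiff_pi.mp (h1.clm_apply contDiff_const)) i

theorem emb_contDiff (θ : ℝ) : ContDiff ℝ ∞ (fun x : E n => ((θ, x) : ℝ × E n)) :=
  contDiff_const.prodMk contDiff_id

theorem emb_deriv (θ : ℝ) (x : E n) :
    HasFDerivAt (fun x : E n => ((θ, x) : ℝ × E n)) (ContinuousLinearMap.inr ℝ ℝ (E n)) x := by
  exact (hasFDerivAt_const θ x).prodMk (hasFDerivAt_id x)

theorem jac_eq {G : ℝ × E n → E n} (hG : ContDiff ℝ ∞ G) (θ : ℝ) (x : E n) :
    jac (fun y => G (θ, y)) x = Matrix.of (fun i => Rw G i (θ, x)) := by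
  ext i j
  unfold jac pd Rw
  rw [Matrix.of_apply, Matrix.of_apply]
  have h1 : HasFDerivAt (fun y => G (θ, y))
      ((fderiv ℝ G (θ, x)).comp (ContinuousLinearMap.inr ℝ ℝ (E n))) x :=
    ((hG.differentiable (by simp)) (θ, x)).hasFDerivAt.comp x (emb_deriv θ x)
  have h2 : HasFDerivAt (fun y => G (θ, y) i)
      ((ContinuousLinearMap.proj i).comp ((fderiv ℝ G (θ, x)).comp
        (ContinuousLinearMap.inr ℝ ℝ (E n)))) x :=
    ((ContinuousLinearMap.proj (R := ℝ) (φ := fun _ : Fin n => ℝ) i).hasFDerivAt).comp x h1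
  rw [h2.fderiv]
  simp

/-- the velocity -/
noncomputable def gv (G : ℝ × E n → E n) (p : ℝ × E n) : E n := fderiv ℝ G p (1, 0)

theorem gv_contDiff {G : ℝ × E n → E n} (hG : ContDiff ℝ ∞ G) : ContDiff ℝ ∞ (gv G) := by
  have h1 : ContDiff ℝ ∞ (fderiv ℝ G) := hG.fderiv_right (m := ∞) (by simp)
  exact h1.clm_apply contDiff_const

/-- time derivative of the rows is the gradient of the velocity -/
theorem row_deriv {G : ℝ × E n → E n} (hG : ContDiff ℝ ∞ G) (i j : Fin n) (p : ℝ × E n) :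
    fderiv ℝ (Rw G i) p (1, 0) j = fderiv ℝ (gv G) p (0, Pi.single j 1) i := by
  have h1 : ContDiff ℝ ∞ (fderiv ℝ G) := hG.fderiv_right (m := ∞) (by simp)
  have hd : DifferentiableAt ℝ (fderiv ℝ G) p := h1.differentiable (by simp) p
  have e1 : fderiv ℝ (gv G) p (0, Pi.single j 1) =
      fderiv ℝ (fderiv ℝ G) p (0, Pi.single j 1) (1, 0) := by
    have h3 := hd.hasFDerivAt.clm_apply (hasFDerivAt_const ((1, 0) : ℝ × E n) p)
    unfold gv
    rw [h3.fderiv]
    simp
  have e2 : fderiv ℝ (Rw G i) p (1, 0) j =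
      fderiv ℝ (fderiv ℝ G) p (1, 0) (0, Pi.single j 1) i := by
    have h3 : HasFDerivAt (fun q => fderiv ℝ G q (0, Pi.single j 1)) _ p :=
      hd.hasFDerivAt.clm_apply (hasFDerivAt_const ((0, Pi.single j 1) : ℝ × E n) p)
    have h4 : HasFDerivAt (fun q => fderiv ℝ G q (0, Pi.single j 1) i) _ p :=
      ((ContinuousLinearMap.proj (R := ℝ) (φ := fun _ : Fin n => ℝ) i).hasFDerivAt).comp p h3
    have h5 : HasFDerivAt (Rw G i) (fderiv ℝ (Rw G i) p) p :=
      ((Rw_contDiff hG i).differentiable (by simp) p).hasFDerivAt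
    have h6 : HasFDerivAt (fun q => Rw G i q j) _ p :=
      ((ContinuousLinearMap.proj (R := ℝ) (φ := fun _ : Fin n => ℝ) j).hasFDerivAt).comp p h5
    have h7 := h6.unique h4
    have h8 := congrArg (fun L : (ℝ × E n) →L[ℝ] ℝ => L (1, 0)) h7
    simpa using h8
  rw [e1, e2]
  have hsym := (hG.contDiffAt (x := p)).isSymmSndFDerivAt (by
    simp only [minSmoothness_of_isRCLikeNormedField]; exact WithTop.coe_le_coe.mpr le_top)
  rw [hsym]

/-- the density -/
noncomputable def Dn (G : ℝ × E n → E n) (ρ : ℝ × E n → ℝ) (φ : E n → ℝ) (p : ℝ × E n) : ℝ :=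
  ρ p * φ (G p) * cdet n (fun i => Rw G i p)

theorem cdet_contDiff {G : ℝ × E n → E n} (hG : ContDiff ℝ ∞ G) :
    ContDiff ℝ ∞ (fun p => cdet n (fun i => Rw G i p)) :=
  (cdet n).contDiff.comp (contDiff_pi.mpr fun i => Rw_contDiff hG i)

theorem Dn_contDiff {G : ℝ × E n → E n} (hG : ContDiff ℝ ∞ G) {ρ : ℝ × E n → ℝ}
    (hρ : ContDiff ℝ ∞ ρ) {φ : E n → ℝ} (hφ : ContDiff ℝ ∞ φ) : ContDiff ℝ ∞ (Dn G ρ φ) :=
  (hρ.mul (hφ.comp hG)).mul (cdet_contDiff hG)

theorem Dn_deriv {G : ℝ × E n → E n} (hG : ContDiff ℝ ∞ G) {ρ : ℝ × E n → ℝ}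
    (hρ : ContDiff ℝ ∞ ρ) {φ : E n → ℝ} (hφ : ContDiff ℝ ∞ φ) (p : ℝ × E n)
    (hz : φ (G p) ≠ 0 → fderiv ℝ ρ p = 0) :
    fderiv ℝ (Dn G ρ φ) p (1, 0) =
      ∑ i, (ρ p * gv G p i * pd φ i (G p) * cdet n (fun i => Rw G i p) +
        ρ p * φ (G p) * cdet n (Function.update (fun i => Rw G i p) i
          (fun j => fderiv ℝ (gv G) p (0, Pi.single j 1) i))) := by
  have hd1 : HasFDerivAt ρ (fderiv ℝ ρ p) p := (hρ.differentiable (by simp) p).hasFDerivAt
  have hd2 : HasFDerivAt (fun q => φ (G q)) ((fderiv ℝ φ (G p)).comp (fderiv ℝ G p)) p :=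
    ((hφ.differentiable (by simp)) (G p)).hasFDerivAt.comp p
      (hG.differentiable (by simp) p).hasFDerivAt
  have hd3 : HasFDerivAt (fun q => cdet n (fun i => Rw G i q))
      (((cdet n).linearDeriv (fun i => Rw G i p)).comp
        (ContinuousLinearMap.pi fun i => fderiv ℝ (Rw G i) p)) p :=
    ((cdet n).hasFDerivAt (fun i => Rw G i p)).comp p
      (hasFDerivAt_pi.2 fun i => ((Rw_contDiff hG i).differentiable (by simp) p).hasFDerivAt)
  have h := (hd1.mul hd2).mul hd3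
  have e : fderiv ℝ (Dn G ρ φ) p = _ := h.fderiv
  rw [e]
  have hφρ : φ (G p) * fderiv ℝ ρ p (1, 0) = 0 := by
    by_cases h0 : φ (G p) = 0
    · rw [h0, zero_mul]
    · rw [hz h0]; simp
  have hG1 : fderiv ℝ φ (G p) (fderiv ℝ G p (1, 0)) = ∑ k, gv G p k * pd φ k (G p) :=
    fderiv_apply_eq φ (G p) _
  have hD : (((cdet n).linearDeriv (fun i => Rw G i p)).comp
      (ContinuousLinearMap.pi fun i => fderiv ℝ (Rw G i) p)) (1, 0) =
      ∑ i, cdet n (Function.update (fun i => Rw G i p) i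
          (fun j => fderiv ℝ (gv G) p (0, Pi.single j 1) i)) := by
    rw [ContinuousLinearMap.comp_apply, ContinuousMultilinearMap.linearDeriv_apply]
    apply Finset.sum_congr rfl
    intro i _
    congr 2
    funext j
    exact row_deriv hG i j p
  simp only [_root_.add_apply, _root_.smul_apply, smul_eq_mul, Pi.mul_apply] at *
  rw [hD]
  rw [ContinuousLinearMap.comp_apply, hG1]
  rw [Finset.sum_add_distrib, ← Finset.mul_sum]
  have : ∑ i, ρ p * gv G p i * pd φ i (G p) * (cdet n) (fun i => Rw G i p) =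
      (cdet n) (fun i => Rw G i p) * (ρ p * ∑ k, gv G p k * pd φ k (G p)) := by
    rw [Finset.mul_sum, Finset.mul_sum]
    apply Finset.sum_congr rfl
    intro k _
    ring
  rw [this]
  linear_combination (cdet n (fun i => Rw G i p)) * hφρ

theorem slice_supp {ρ : ℝ × E n → ℝ} (hρc : HasCompactSupport ρ) (θ : ℝ) :
    HasCompactSupport (fun x : E n => ρ (θ, x)) := by
  have h1 : Topology.IsClosedEmbedding (fun x : E n => ((θ, x) : ℝ × E n)) :=
    (Topology.IsClosedEmbedding.of_continuous_injective_isClosedMap (by fun_prop)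
      (fun x y h => (Prod.ext_iff.mp h).2) (by
        intro s hs
        have : (fun x : E n => ((θ, x) : ℝ × E n)) '' s = {θ} ×ˢ s := by
          ext ⟨a, b⟩
          simp [eq_comm, and_comm]
        rw [this]
        exact isClosed_singleton.prod hs))
  exact hρc.comp_isClosedEmbedding h1

theorem row_formula {G : ℝ × E n → E n} (hG : ContDiff ℝ ∞ G) {ρ : ℝ × E n → ℝ}
    (hρ : ContDiff ℝ ∞ ρ) {φ : E n → ℝ} (hφ : ContDiff ℝ ∞ φ) (θ : ℝ) (x : E n)
    (hz : φ (G (θ, x)) ≠ 0 → fderiv ℝ ρ (θ, x) = 0) (i : Fin n) :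
    ((jac (fun y => G (θ, y)) x).updateRow i
      (fun j => pd (fun y => ρ (θ, y) * φ (G (θ, y)) * gv G (θ, y) i) j x)).det =
      ρ (θ, x) * gv G (θ, x) i * pd φ i (G (θ, x)) * cdet n (fun i => Rw G i (θ, x)) +
        ρ (θ, x) * φ (G (θ, x)) * cdet n (Function.update (fun i => Rw G i (θ, x)) i
          (fun j => fderiv ℝ (gv G) (θ, x) (0, Pi.single j 1) i)) := by
  have d1 : HasFDerivAt (fun y => ρ (θ, y))
      ((fderiv ℝ ρ (θ, x)).comp (ContinuousLinearMap.inr ℝ ℝ (E n))) x :=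
    ((hρ.differentiable (by simp)) (θ, x)).hasFDerivAt.comp x (emb_deriv θ x)
  have d2 : HasFDerivAt (fun y => G (θ, y))
      ((fderiv ℝ G (θ, x)).comp (ContinuousLinearMap.inr ℝ ℝ (E n))) x :=
    ((hG.differentiable (by simp)) (θ, x)).hasFDerivAt.comp x (emb_deriv θ x)
  have d3 : HasFDerivAt (fun y => φ (G (θ, y)))
      ((fderiv ℝ φ (G (θ, x))).comp ((fderiv ℝ G (θ, x)).comp
        (ContinuousLinearMap.inr ℝ ℝ (E n)))) x :=
    ((hφ.differentiable (by simp)) (G (θ, x))).hasFDerivAt.comp x d2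
  have d4 : HasFDerivAt (fun y => gv G (θ, y))
      ((fderiv ℝ (gv G) (θ, x)).comp (ContinuousLinearMap.inr ℝ ℝ (E n))) x :=
    (((gv_contDiff hG).differentiable (by simp)) (θ, x)).hasFDerivAt.comp x (emb_deriv θ x)
  have d5 : HasFDerivAt (fun y => gv G (θ, y) i)
      ((ContinuousLinearMap.proj i).comp ((fderiv ℝ (gv G) (θ, x)).comp
        (ContinuousLinearMap.inr ℝ ℝ (E n)))) x :=
    ((ContinuousLinearMap.proj (R := ℝ) (φ := fun _ : Fin n => ℝ) i).hasFDerivAt).comp x d4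
  have d6 := (d1.mul d3).mul d5
  have hgrad : (fun j => pd (fun y => ρ (θ, y) * φ (G (θ, y)) * gv G (θ, y) i) j x) =
      (ρ (θ, x) * gv G (θ, x) i) • (∑ k, pd φ k (G (θ, x)) • Rw G k (θ, x)) +
        (ρ (θ, x) * φ (G (θ, x))) • (fun j => fderiv ℝ (gv G) (θ, x) (0, Pi.single j 1) i) := by
    funext j
    have e0 : fderiv ℝ (fun y => ρ (θ, y) * φ (G (θ, y)) * gv G (θ, y) i) x = _ := d6.fderiv
    unfold pd
    rw [e0]
    have hφρ : φ (G (θ, x)) * fderiv ℝ ρ (θ, x) (0, Pi.single j 1) = 0 := by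
      by_cases h0 : φ (G (θ, x)) = 0
      · rw [h0, zero_mul]
      · rw [hz h0]; simp
    have hG1 : fderiv ℝ φ (G (θ, x)) (fderiv ℝ G (θ, x) (0, Pi.single j 1)) =
        ∑ k, Rw G k (θ, x) j * pd φ k (G (θ, x)) :=
      fderiv_apply_eq φ (G (θ, x)) _
    simp only [_root_.add_apply, _root_.smul_apply, smul_eq_mul, Pi.mul_apply,
      ContinuousLinearMap.comp_apply, ContinuousLinearMap.inr_apply,
      ContinuousLinearMap.proj_apply, Pi.add_apply, Pi.smul_apply, Finset.sum_apply] at *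
    rw [hG1]
    have e1 : ∑ k, fderiv ℝ φ (G (θ, x)) (Pi.single k 1) * Rw G k (θ, x) j =
        ∑ k, Rw G k (θ, x) j * pd φ k (G (θ, x)) := by
      apply Finset.sum_congr rfl
      intro k _
      unfold pd
      ring
    rw [e1]
    linear_combination (gv G (θ, x) i) * hφρ
  rw [hgrad, jac_eq hG, Matrix.det_updateRow_add, Matrix.det_updateRow_smul,
    Matrix.det_updateRow_smul]
  have e2 := Matrix.det_updateRow_sum (Matrix.of (fun i => Rw G i (θ, x))) i
    (fun k => pd φ k (G (θ, x)))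
  have e3 : (∑ k, (fun k => pd φ k (G (θ, x))) k • (Matrix.of (fun i => Rw G i (θ, x))) k) =
      ∑ k, pd φ k (G (θ, x)) • Rw G k (θ, x) := rfl
  rw [e3] at e2
  rw [e2, smul_eq_mul, cdet_apply, cdet_apply]
  have e4 : Matrix.updateRow (Matrix.of (fun i => Rw G i (θ, x))) i
      (fun j => fderiv ℝ (gv G) (θ, x) (0, Pi.single j 1) i) =
      Matrix.of (Function.update (fun i => Rw G i (θ, x)) i
        (fun j => fderiv ℝ (gv G) (θ, x) (0, Pi.single j 1) i)) := rfl
  rw [e4]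
  ring

theorem int_zero {G : ℝ × E n → E n} (hG : ContDiff ℝ ∞ G) {ρ : ℝ × E n → ℝ}
    (hρ : ContDiff ℝ ∞ ρ) (hρc : HasCompactSupport ρ) {φ : E n → ℝ} (hφ : ContDiff ℝ ∞ φ) (θ : ℝ)
    (hz : ∀ x, φ (G (θ, x)) ≠ 0 → fderiv ℝ ρ (θ, x) = 0) :
    ∫ x, fderiv ℝ (Dn G ρ φ) (θ, x) (1, 0) = 0 := by
  have hGθ : ContDiff ℝ ∞ (fun y => G (θ, y)) := hG.comp (emb_contDiff θ)
  have hgθ : ∀ i, ContDiff ℝ ∞ (fun y => gv G (θ, y) i) := fun i =>
    (contDiff_pi.mp ((gv_contDiff hG).comp (emb_contDiff θ))) i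
  have hρθ : ContDiff ℝ ∞ (fun y => ρ (θ, y)) := hρ.comp (emb_contDiff θ)
  have hρs := slice_supp hρc θ
  have h1 : ∀ x, fderiv ℝ (Dn G ρ φ) (θ, x) (1, 0) =
      ∑ i, ((jac (fun y => G (θ, y)) x).updateRow i
      (fun j => pd (fun y => ρ (θ, y) * φ (G (θ, y)) * gv G (θ, y) i) j x)).det := by
    intro x
    rw [Dn_deriv hG hρ hφ (θ, x) (hz x)]
    apply Finset.sum_congr rfl
    intro i _
    rw [row_formula hG hρ hφ θ x (hz x) i]
  have h2 : ∀ i, ∫ x, ((jac (fun y => G (θ, y)) x).updateRow i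
      (fun j => pd (fun y => ρ (θ, y) * φ (G (θ, y)) * gv G (θ, y) i) j x)).det = 0 := by
    intro i
    exact H248.ID.J01.null_lagrangian hGθ ((hρθ.mul (hφ.comp hGθ)).mul (hgθ i))
      ((hρs.mul_right).mul_right) i
  have hJ : ∀ k, Continuous (fun x : E n => Rw G k (θ, x)) := fun k =>
    ((Rw_contDiff hG k).comp (emb_contDiff θ)).continuous
  have h3 : ∀ i, Integrable (fun x => ((jac (fun y => G (θ, y)) x).updateRow i
      (fun j => pd (fun y => ρ (θ, y) * φ (G (θ, y)) * gv G (θ, y) i) j x)).det) := by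
    intro i
    have e : (fun x => ((jac (fun y => G (θ, y)) x).updateRow i
      (fun j => pd (fun y => ρ (θ, y) * φ (G (θ, y)) * gv G (θ, y) i) j x)).det) =
      fun x => ρ (θ, x) * (gv G (θ, x) i * pd φ i (G (θ, x)) * cdet n (fun i => Rw G i (θ, x)) +
        φ (G (θ, x)) * cdet n (Function.update (fun i => Rw G i (θ, x)) i
          (fun j => fderiv ℝ (gv G) (θ, x) (0, Pi.single j 1) i))) := by
      funext x
      rw [row_formula hG hρ hφ θ x (hz x) i]
      ring
    rw [e]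
    refine Continuous.integrable_of_hasCompactSupport (hρθ.continuous.mul ?_) hρs.mul_right
    have c1 : Continuous (fun x => pd φ i (G (θ, x))) :=
      ((J01.pd_contDiff hφ i).comp hGθ).continuous
    have c2 : Continuous (fun x : E n => cdet n (fun i => Rw G i (θ, x))) :=
      (cdet n).cont.comp (continuous_pi hJ)
    have c3 : Continuous (fun x : E n => (fun j => fderiv ℝ (gv G) (θ, x) (0, Pi.single j 1) i : Fin n → ℝ)) := by
      apply continuous_pi
      intro j
      have h1 : ContDiff ℝ ∞ (fderiv ℝ (gv G)) := (gv_contDiff hG).fderiv_right (m := ∞) (by simp)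
      exact (contDiff_pi.mp ((h1.comp (emb_contDiff θ)).clm_apply contDiff_const) i).continuous
    have c4 : Continuous (fun x : E n => cdet n (Function.update (fun i => Rw G i (θ, x)) i
          (fun j => fderiv ℝ (gv G) (θ, x) (0, Pi.single j 1) i))) := by
      refine (cdet n).cont.comp (continuous_pi fun k => ?_)
      by_cases hk : k = i
      · subst hk
        simp only [Function.update_self]
        exact c3
      · simp only [Function.update_of_ne hk]
        exact hJ k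
    exact (((hgθ i).continuous.mul c1).mul c2).add ((hφ.comp hGθ).continuous.mul c4)
  simp only [h1]
  rw [integral_finsetSum _ fun i _ => h3 i]
  exact Finset.sum_eq_zero fun i _ => h2 i

end Cox957
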