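import Pool.Agent.helper957_cox.IL

set_option autoImplicit false
open scoped ContDiff
open MeasureTheory H248.ID

namespace Cox957

variable {n : ℕ}

theorem IL_E {G : ℝ × E n → E n} (hG : ContDiff ℝ ∞ G) {ρ : ℝ × E n → ℝ}
    (hρ : ContDiff ℝ ∞ ρ) (hρc : HasCompactSupport ρ) {φ : E n → ℝ} (hφ : ContDiff ℝ ∞ φ)
    (hz : ∀ θ ∈ Set.Icc (0:ℝ) 1, ∀ x, φ (G (θ, x)) ≠ 0 → fderiv ℝ ρ (θ, x) = 0) :
    ∫ x, Dn G ρ φ (0, x) = ∫ x, Dn G ρ φ (1, x) := by
  have hD := Dn_contDiff hG hρ hφ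
  have hDc : HasCompactSupport (Dn G ρ φ) := (hρc.mul_right).mul_right
  have hD'c : HasCompactSupport (fun p : ℝ × E n => fderiv ℝ (Dn G ρ φ) p (1, 0)) :=
    hDc.fderiv_apply (𝕜 := ℝ) _
  have hD'cont : Continuous (fun p : ℝ × E n => fderiv ℝ (Dn G ρ φ) p (1, 0)) :=
    (hD.continuous_fderiv (by simp)).clm_apply continuous_const
  have hint : Integrable (fun p : ℝ × E n => fderiv ℝ (Dn G ρ φ) p (1, 0))
      ((volume : Measure ℝ).prod (volume : Measure (E n))) :=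
    hD'cont.integrable_of_hasCompactSupport hD'c
  have hint2 : Integrable (Function.uncurry fun (θ : ℝ) (x : E n) =>
      fderiv ℝ (Dn G ρ φ) (θ, x) (1, 0))
      ((volume.restrict (Set.uIoc (0:ℝ) 1)).prod (volume : Measure (E n))) := by
    have h1 : ((volume.restrict (Set.uIoc (0:ℝ) 1)).prod (volume : Measure (E n))) =
        ((volume : Measure ℝ).prod (volume : Measure (E n))).restrict
          ((Set.uIoc (0:ℝ) 1) ×ˢ Set.univ) := by
      rw [← Measure.prod_restrict, Measure.restrict_univ]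
    rw [h1]
    exact hint.restrict
  have hswap := intervalIntegral_integral_swap hint2
  have hz0 : ∫ θ in (0:ℝ)..1, ∫ x, fderiv ℝ (Dn G ρ φ) (θ, x) (1, 0) = 0 := by
    rw [intervalIntegral.integral_congr (g := fun _ => (0:ℝ))]
    · simp
    · intro θ hθ
      rw [Set.uIcc_of_le zero_le_one] at hθ
      exact int_zero hG hρ hρc hφ θ (hz θ hθ)
  rw [hz0] at hswap
  have hftc : ∀ x : E n, ∫ θ in (0:ℝ)..1, fderiv ℝ (Dn G ρ φ) (θ, x) (1, 0) =
      Dn G ρ φ (1, x) - Dn G ρ φ (0, x) := by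
    intro x
    refine intervalIntegral.integral_eq_sub_of_hasDerivAt (f := fun θ => Dn G ρ φ (θ, x)) ?_ ?_
    · intro θ _
      have h1 : HasDerivAt (fun θ : ℝ => ((θ, x) : ℝ × E n)) (1, 0) θ :=
        (hasDerivAt_id θ).prodMk (hasDerivAt_const θ x)
      exact ((hD.differentiable (by simp)) (θ, x)).hasFDerivAt.comp_hasDerivAt θ h1
    · apply Continuous.intervalIntegrable
      exact hD'cont.comp (by fun_prop)
  simp only [hftc] at hswap
  have hi : ∀ θ : ℝ, Integrable (fun x : E n => Dn G ρ φ (θ, x)) := fun θ =>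
    (hD.comp (emb_contDiff θ)).continuous.integrable_of_hasCompactSupport (slice_supp hDc θ)
  rw [integral_sub (hi 1) (hi 0)] at hswap
  linarith

theorem det_jac {f : E n → E n} {x : E n} {A : E n →L[ℝ] E n} (h : HasFDerivAt f A x) :
    (jac f x).det = A.det := by
  have h1 : jac f x = LinearMap.toMatrix' (A : E n →ₗ[ℝ] E n) := by
    ext i j
    unfold jac pd
    rw [Matrix.of_apply, LinearMap.toMatrix'_apply]
    have h2 : HasFDerivAt (fun y => f y i)
        ((ContinuousLinearMap.proj (R := ℝ) (φ := fun _ : Fin n => ℝ) i).comp A) x :=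
      ((ContinuousLinearMap.proj (R := ℝ) (φ := fun _ : Fin n => ℝ) i).hasFDerivAt).comp x h
    rw [h2.fderiv]
    simp
  rw [h1, LinearMap.det_toMatrix']

/-- IL: homotopy invariance of the degree integral. -/
theorem IL {X : Type} [NormedAddCommGroup X] [NormedSpace ℝ X]
    (e : X ≃L[ℝ] (Fin n → ℝ))
    (G : ℝ × X → X) (hG : ContDiff ℝ ∞ G) (ρ : ℝ × X → ℝ) (hρ : ContDiff ℝ ∞ ρ)
    (hρc : HasCompactSupport ρ) (φ : X → ℝ) (hφ : ContDiff ℝ ∞ φ)
    (hz : ∀ θ ∈ Set.Icc (0:ℝ) 1, ∀ x, φ (G (θ, x)) ≠ 0 → fderiv ℝ ρ (θ, x) = 0) :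
    ∫ y : Fin n → ℝ, ρ (0, e.symm y) * φ (G (0, e.symm y)) *
        (fderiv ℝ (fun x => G (0, x)) (e.symm y)).det =
      ∫ y : Fin n → ℝ, ρ (1, e.symm y) * φ (G (1, e.symm y)) *
        (fderiv ℝ (fun x => G (1, x)) (e.symm y)).det := by
  let T : ℝ × E n → ℝ × X := fun p => (p.1, e.symm p.2)
  have hT : ContDiff ℝ ∞ T := contDiff_fst.prodMk (e.symm.contDiff.comp contDiff_snd)
  let G' : ℝ × E n → E n := fun p => e (G (T p))
  let ρ' : ℝ × E n → ℝ := fun p => ρ (T p)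
  let φ' : E n → ℝ := fun y => φ (e.symm y)
  have hG' : ContDiff ℝ ∞ G' := e.contDiff.comp (hG.comp hT)
  have hρ' : ContDiff ℝ ∞ ρ' := hρ.comp hT
  have hφ' : ContDiff ℝ ∞ φ' := hφ.comp e.symm.contDiff
  have hTe : ∃ H : (ℝ × E n) ≃ₜ (ℝ × X), ∀ p, H p = T p :=
    ⟨(Homeomorph.refl ℝ).prodCongr e.symm.toHomeomorph, fun p => rfl⟩
  have hρ'c : HasCompactSupport ρ' := by
    obtain ⟨H, hH⟩ := hTe
    have : ρ' = ρ ∘ H := by
      funext p
      simp [ρ', hH]
    rw [this]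
    exact hρc.comp_homeomorph H
  have hz' : ∀ θ ∈ Set.Icc (0:ℝ) 1, ∀ y, φ' (G' (θ, y)) ≠ 0 → fderiv ℝ ρ' (θ, y) = 0 := by
    intro θ hθ y hy
    have h1 : φ (G (θ, e.symm y)) ≠ 0 := by
      simpa [φ', G', T] using hy
    have h2 := hz θ hθ (e.symm y) h1
    have h3 : HasFDerivAt ρ' ((fderiv ℝ ρ (T (θ, y))).comp (fderiv ℝ T (θ, y))) (θ, y) :=
      ((hρ.differentiable (by simp)) _).hasFDerivAt.comp (θ, y)
        ((hT.differentiable (by simp)) _).hasFDerivAt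
    rw [h3.fderiv]
    have h4 : fderiv ℝ ρ (T (θ, y)) = 0 := h2
    rw [h4]
    simp
  have key := IL_E hG' hρ' hρ'c hφ' hz'
  have hD : ∀ θ y, Dn G' ρ' φ' (θ, y) = ρ (θ, e.symm y) * φ (G (θ, e.symm y)) *
        (fderiv ℝ (fun x => G (θ, x)) (e.symm y)).det := by
    intro θ y
    unfold Dn
    have h1 : φ' (G' (θ, y)) = φ (G (θ, e.symm y)) := by simp [φ', G', T]
    rw [h1, cdet_apply, ← jac_eq hG']
    congr 1
    have hGx : ContDiff ℝ ∞ (fun x => G (θ, x)) := hG.comp (contDiff_const.prodMk contDiff_id)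
    have h2 : HasFDerivAt (fun x => G (θ, x)) (fderiv ℝ (fun x => G (θ, x)) (e.symm y))
        (e.symm y) := (hGx.differentiable (by simp) _).hasFDerivAt
    have h3 : HasFDerivAt (fun y => G' (θ, y))
        (((e : X →L[ℝ] E n).comp (fderiv ℝ (fun x => G (θ, x)) (e.symm y))).comp
          (e.symm : E n →L[ℝ] X)) y := by
      have h4 : HasFDerivAt (fun y => e.symm y) (e.symm : E n →L[ℝ] X) y := e.symm.hasFDerivAt
      have h5 := h2.comp y h4
      exact (e.hasFDerivAt).comp y h5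
    rw [det_jac h3]
    have h6 := LinearMap.det_conj
      ((fderiv ℝ (fun x => G (θ, x)) (e.symm y) : X →L[ℝ] X) : X →ₗ[ℝ] X) e.toLinearEquiv
    exact h6
  simp only [hD] at key
  exact key

end Cox957
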