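import Pool.Agent.helper957_cox.Coh2

set_option autoImplicit false

/-!
Nerves of Coxeter groups: if every link (the whole nerve included) has vanishing rational
cohomology in all degrees at least two, then every link has vanishing integral cohomology in all
degrees at least three.
-/

namespace Pool.Agent.Results.MP_db6a6f_al.NoHighDim

/-- The nerve of a Coxeter system `(W, S)`: the finite sets `T` of generators which are
spherical, i.e. for which the special subgroup `W_T` is finite. It contains the empty set. -/
def nerve {B W : Type} [Group W] {M : CoxeterMatrix B} (cs : CoxeterSystem M W) :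
    Set (Finset B) :=
  {T | ((Subgroup.closure (cs.simple '' (T : Set B)) : Subgroup W) : Set W).Finite}

/-- The link of the simplex `S` in the family `K` of simplices. -/
def link {V : Type} [DecidableEq V] (K : Set (Finset V)) (S : Finset V) : Set (Finset V) :=
  {T | Disjoint T S ∧ T ∪ S ∈ K}

/-- The simplicial coboundary of a cochain (a function on ordered tuples of vertices). -/
def coboundary {V A : Type} [AddCommGroup A] {j : ℕ} (f : (Fin (j + 1) → V) → A) :
    (Fin (j + 2) → V) → A :=
  fun τ => ∑ i : Fin (j + 2), (-1 : ℤ) ^ (i : ℕ) • f (τ ∘ i.succAbove)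

/-- The entries of the tuple `τ` span a simplex of `K`. -/
def Spans {V : Type} [DecidableEq V] (K : Set (Finset V)) {j : ℕ} (τ : Fin j → V) : Prop :=
  Finset.univ.image τ ∈ K

/-- `H^j(K; A) = 0` (for `j ≥ 1`): every cocycle of degree `j` on `K` is a coboundary on `K`. -/
def Vanishes {V : Type} [DecidableEq V] (K : Set (Finset V)) (A : Type) [AddCommGroup A]
    (j : ℕ) : Prop :=
  ∀ i : ℕ, j = i + 1 → ∀ f : (Fin (i + 2) → V) → A,
    (∀ τ : Fin (i + 3) → V, Spans K τ → coboundary f τ = 0) →
    ∃ g : (Fin (i + 1) → V) → A, ∀ τ : Fin (i + 2) → V, Spans K τ → f τ = coboundary g τ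

theorem nerve_isCx {B W : Type} [Group W] {M : CoxeterMatrix B} (cs : CoxeterSystem M W) :
    Cox957.IsCx (nerve cs) := by
  intro T hT U hU
  exact Set.Finite.subset hT (Subgroup.closure_mono (Set.image_mono (by exact_mod_cast hU)))

theorem van_iff {V : Type} [DecidableEq V] (K : Set (Finset V)) (A : Type) [AddCommGroup A]
    (i : ℕ) : Vanishes K A (i + 1) ↔ Cox957.HZ K A i := by
  constructor
  · intro h
    exact h i rfl
  · intro h k hk
    obtain rfl : i = k := by omega
    exact h

/-- For every Coxeter system `(W, S)` of finite rank: if `H^j(Lk T; ℚ) = 0` for every spherical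
subset `T` (including the empty one, whose link is the whole nerve) and every `j ≥ 2`, then
`H^j(Lk T; ℤ) = 0` for every spherical subset `T` and every `j ≥ 3`. -/
theorem result {B W : Type} [Fintype B] [DecidableEq B] [Group W] {M : CoxeterMatrix B}
    (cs : CoxeterSystem M W)
    (h : ∀ j : ℕ, 2 ≤ j → ∀ T ∈ nerve cs, Vanishes (link (nerve cs) T) ℚ j) :
    ∀ j : ℕ, 3 ≤ j → ∀ T ∈ nerve cs, Vanishes (link (nerve cs) T) ℤ j := by
  intro j hj T _
  obtain ⟨i, rfl⟩ : ∃ i, j = i + 2 + 1 := ⟨j - 3, by omega⟩
  rw [van_iff]
  exact (Cox957.MAIN (nerve_isCx cs) (fun S hS => (van_iff _ _ _).mp (h 2 le_rfl S hS)) T i).2.2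

end Pool.Agent.Results.MP_db6a6f_al.NoHighDim
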