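import Pool.Agent.helper957_cox.Base

set_option autoImplicit false
open scoped ContDiff Quaternion

namespace Cox957

/-- the quaternion `a + b j` -/
def tq (a b : ℂ) : ℍ[ℝ] := ⟨a.re, a.im, b.re, b.im⟩

@[simp] theorem tq_re (a b : ℂ) : (tq a b).re = a.re := rfl
@[simp] theorem tq_imI (a b : ℂ) : (tq a b).imI = a.im := rfl
@[simp] theorem tq_imJ (a b : ℂ) : (tq a b).imJ = b.re := rfl
@[simp] theorem tq_imK (a b : ℂ) : (tq a b).imK = b.im := rfl

theorem tq_mul (a b c d : ℂ) :
    tq a b * tq c d = tq (a * c - b * (starRingEnd ℂ) d) (a * d + b * (starRingEnd ℂ) c) := by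
  apply Quaternion.ext
  · simp; ring
  · simp; ring
  · simp; ring
  · simp; ring

theorem tq_add (a b c d : ℂ) : tq a b + tq c d = tq (a + c) (b + d) := by
  apply Quaternion.ext <;> simp

theorem tq_sub (a b c d : ℂ) : tq a b - tq c d = tq (a - c) (b - d) := by
  apply Quaternion.ext <;> simp

theorem tq_smul (r : ℝ) (a b : ℂ) : r • tq a b = tq (r * a) (r * b) := by
  apply Quaternion.ext <;> simp

theorem tq_star (a b : ℂ) : star (tq a b) = tq ((starRingEnd ℂ) a) (-b) := by
  apply Quaternion.ext <;> simp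

theorem tq_zero : tq 0 0 = 0 := by
  apply Quaternion.ext <;> simp

theorem tq_eq_zero (a b : ℂ) : tq a b = 0 ↔ a = 0 ∧ b = 0 := by
  constructor
  · intro h
    have h1 := congrArg QuaternionAlgebra.re h
    have h2 := congrArg QuaternionAlgebra.imI h
    have h3 := congrArg QuaternionAlgebra.imJ h
    have h4 := congrArg QuaternionAlgebra.imK h
    rw [tq_re] at h1
    rw [tq_imI] at h2
    rw [tq_imJ] at h3
    rw [tq_imK] at h4
    exact ⟨Complex.ext h1 h2, Complex.ext h3 h4⟩
  · rintro ⟨rfl, rfl⟩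
    exact tq_zero

theorem tq_inj {a b c d : ℂ} (h : tq a b = tq c d) : a = c ∧ b = d := by
  have h1 : tq (a - c) (b - d) = 0 := by rw [← tq_sub, h, sub_self]
  rw [tq_eq_zero] at h1
  exact ⟨sub_eq_zero.mp h1.1, sub_eq_zero.mp h1.2⟩

theorem tq_normSq (a b : ℂ) : ‖tq a b‖ * ‖tq a b‖ = Complex.normSq a + Complex.normSq b := by
  rw [← Quaternion.normSq_eq_norm_mul_self, Quaternion.normSq_def']
  simp [Complex.normSq_apply]
  ring

theorem tq_norm_left (a : ℂ) : ‖tq a 0‖ = ‖a‖ := by
  have h := tq_normSq a 0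
  rw [Complex.normSq_zero, add_zero, Complex.normSq_eq_norm_sq, sq] at h
  exact (mul_self_inj (norm_nonneg (tq a 0)) (norm_nonneg a)).mp h

theorem tq_continuous : Continuous (fun p : ℂ × ℂ => tq p.1 p.2) := by
  have h : (fun p : ℂ × ℂ => tq p.1 p.2) = fun p : ℂ × ℂ =>
      (p.1.re) • tq 1 0 + (p.1.im) • tq Complex.I 0 + (p.2.re) • tq 0 1 +
        (p.2.im) • tq 0 Complex.I := by
    funext p
    apply Quaternion.ext <;> simp
  rw [h]
  have h1 : Continuous (fun p : ℂ × ℂ => (p.1.re) • tq 1 0) :=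
    (Complex.continuous_re.comp continuous_fst).smul continuous_const
  have h2 : Continuous (fun p : ℂ × ℂ => (p.1.im) • tq Complex.I 0) :=
    (Complex.continuous_im.comp continuous_fst).smul continuous_const
  have h3 : Continuous (fun p : ℂ × ℂ => (p.2.re) • tq 0 1) :=
    (Complex.continuous_re.comp continuous_snd).smul continuous_const
  have h4 : Continuous (fun p : ℂ × ℂ => (p.2.im) • tq 0 Complex.I) :=
    (Complex.continuous_im.comp continuous_snd).smul continuous_const
  exact ((h1.add h2).add h3).add h4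

end Cox957
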