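import Pool.Agent.helper957_cox.Base

set_option autoImplicit false
set_option linter.unusedSectionVars false

namespace Cox957

variable {V : Type} [DecidableEq V] [Fintype V]

open Classical in
/-- potential on the cells containing `S` -/
noncomputable def pot (K : Set (Finset V)) (φ : Finset V → Finset V → ℝ) (S T : Finset V) : ℝ :=
  if S ⊂ T ∧ T ∈ K then φ S T else 0

theorem pot_grad {K : Set (Finset V)} (hK : IsCx K) (M : Model K) (S : Finset V) (hS : S ∈ K)
    (φ : Finset V → Finset V → ℝ)
    (hφ : ∀ A B C, M.F A B C → S ⊆ A → φ A B + φ B C - φ A C = 0) (A B : Finset V)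
    (hA : S ⊆ A) (hAB : A ⊂ B) (hB : B ∈ K) : φ A B = pot K φ S B - pot K φ S A := by
  have h := M.H1 S hS (fun A B => φ A B - (pot K φ S B - pot K φ S A)) (by
    intro A B C hF hSA
    have := hφ A B C hF hSA
    linarith) (by
    intro B hB hSB
    have h1 : pot K φ S S = 0 := by
      unfold pot
      rw [if_neg (fun h => ssubset_irrefl _ h.1)]
    have h2 : pot K φ S B = φ S B := by
      unfold pot
      rw [if_pos ⟨hSB, hB⟩]
    simp only [h1, h2]
    ring) A B hA hAB hB
  linarith

/-- REL: relative second cohomology vanishes. -/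
theorem REL {K : Set (Finset V)} (hK : IsCx K) (M : Model K) (v w : V) (hv : {v} ∈ K)
    (hw : {w} ∈ K) (c : Finset V → Finset V → Finset V → ℝ) :
    ∃ φ : Finset V → Finset V → ℝ, (∀ A B, v ∈ A ∨ w ∈ A → φ A B = 0) ∧
      ∀ A B C, M.F A B C → v ∉ A → w ∉ A → φ A B + φ B C - φ A C = c A B C := by
  classical
  obtain ⟨φ0, hφ0⟩ := M.H2 (fun A B C => if v ∈ A ∨ w ∈ A then 0 else c A B C)
  have gv := pot_grad hK M {v} hv φ0 (by
    intro A B C hF hA
    rw [hφ0 A B C hF, if_pos (Or.inl (by simpa using hA))])
  have gw := pot_grad hK M {w} hw φ0 (by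
    intro A B C hF hA
    rw [hφ0 A B C hF, if_pos (Or.inr (by simpa using hA))])
  set lv := pot K φ0 {v} with hlv
  set lw := pot K φ0 {w} with hlw
  set c0 := lv {v, w} - lw {v, w} with hc0
  let l : Finset V → ℝ := fun T => if v ∈ T then lv T else if w ∈ T then lw T + c0 else 0
  have h1 : ∀ T, v ∈ T → l T = lv T := fun T h => by simp only [l]; rw [if_pos h]
  have h2 : ∀ T, w ∈ T → T ∈ K → l T = lw T + c0 := by
    intro T h hT
    by_cases hvT : v ∈ T
    · rw [h1 T hvT]
      by_cases hTe : T = {v, w}
      · rw [hTe, hc0]; ring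
      · have hss : ({v, w} : Finset V) ⊂ T := by
          refine lt_of_le_of_ne ?_ (Ne.symm hTe)
          intro x hx
          simp only [Finset.mem_insert, Finset.mem_singleton] at hx
          rcases hx with rfl | rfl
          · exact hvT
          · exact h
        have e1 := gv {v, w} T (by simp) hss hT
        have e2 := gw {v, w} T (by simp) hss hT
        rw [hc0]; linarith
    · simp only [l]; rw [if_neg hvT, if_pos h]
  let φ : Finset V → Finset V → ℝ := fun A B =>
    if v ∈ A ∨ w ∈ A then 0 else φ0 A B - (l B - l A)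
  have h3 : ∀ A B, A ⊂ B → B ∈ K → φ A B = φ0 A B - (l B - l A) := by
    intro A B hAB hB
    simp only [φ]
    split_ifs with h
    · rcases h with h | h
      · rw [h1 A h, h1 B (hAB.1 h), gv A B (by simpa using h) hAB hB]
        ring
      · rw [h2 A h (hK B hB A hAB.1), h2 B (hAB.1 h) hB, gw A B (by simpa using h) hAB hB]
        ring
    · rfl
  refine ⟨φ, ?_, ?_⟩
  · intro A B h
    simp only [φ]
    rw [if_pos h]
  · intro A B C hF hvA hwA
    have hAB := M.lt1 A B C hF
    have hBC := M.lt2 A B C hF
    have hC := M.mem A B C hF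
    rw [h3 A B hAB (hK C hC B hBC.1), h3 B C hBC hC, h3 A C (hAB.trans hBC) hC]
    have := hφ0 A B C hF
    rw [if_neg (not_or.mpr ⟨hvA, hwA⟩)] at this
    linarith

end Cox957
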