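import Pool.Agent.helper957_cox.Quat

set_option autoImplicit false
open scoped ContDiff Quaternion

namespace Cox957

theorem bound_of_ker {E F : Type} [NormedAddCommGroup E] [NormedSpace ℝ E]
    [NormedAddCommGroup F] [NormedSpace ℝ F] [FiniteDimensional ℝ F] (Ψ : E →ₗ[ℝ] F) (ev : E →ₗ[ℝ] ℝ)
    (h : LinearMap.ker Ψ ≤ LinearMap.ker ev) : ∃ C : ℝ, 0 ≤ C ∧ ∀ x, |ev x| ≤ C * ‖Ψ x‖ := by
  let g0 : LinearMap.range Ψ →ₗ[ℝ] ℝ :=
    ((LinearMap.ker Ψ).liftQ ev h).comp (Ψ.quotKerEquivRange.symm : LinearMap.range Ψ →ₗ[ℝ] _)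
  have hg : ∀ x, g0 ⟨Ψ x, LinearMap.mem_range_self Ψ x⟩ = ev x := by
    intro x
    have h1 : (Ψ.quotKerEquivRange.symm ⟨Ψ x, LinearMap.mem_range_self Ψ x⟩) =
        (LinearMap.ker Ψ).mkQ x := by
      rw [LinearEquiv.symm_apply_eq]
      apply Subtype.ext
      rfl
    simp only [g0, LinearMap.comp_apply, LinearEquiv.coe_coe]
    rw [h1]
    exact Submodule.liftQ_apply _ _ _
  let g := LinearMap.toContinuousLinearMap g0
  refine ⟨‖g‖, norm_nonneg g, fun x => ?_⟩
  have h2 := g.le_opNorm ⟨Ψ x, LinearMap.mem_range_self Ψ x⟩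
  have h3 : g ⟨Ψ x, LinearMap.mem_range_self Ψ x⟩ = ev x := hg x
  rw [h3] at h2
  exact h2

variable {V : Type} [DecidableEq V] [Fintype V]

open Classical in
/-- the linear map whose kernel is controlled by `H1` -/
noncomputable def psiMap {K : Set (Finset V)} (M : Model K) (S : Finset V) :
    (Finset V → Finset V → ℝ) →ₗ[ℝ]
      ((Finset V × Finset V × Finset V → ℝ) × (Finset V → ℝ)) where
  toFun φ := (fun t => if M.F t.1 t.2.1 t.2.2 ∧ S ⊆ t.1 then
      φ t.1 t.2.1 + φ t.2.1 t.2.2 - φ t.1 t.2.2 else 0,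
    fun B => if B ∈ K ∧ S ⊂ B then φ S B else 0)
  map_add' x y := by
    apply Prod.ext
    · funext t
      simp only [Pi.add_apply, Prod.fst_add]
      split_ifs <;> ring
    · funext t
      simp only [Pi.add_apply, Prod.snd_add]
      split_ifs <;> ring
  map_smul' c x := by
    apply Prod.ext
    · funext t
      simp only [Pi.smul_apply, Prod.smul_fst, smul_eq_mul, RingHom.id_apply]
      split_ifs <;> ring
    · funext t
      simp only [Pi.smul_apply, Prod.smul_snd, smul_eq_mul, RingHom.id_apply]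
      split_ifs <;> ring

theorem H1_bound {K : Set (Finset V)} (M : Model K) (S : Finset V) (hS : S ∈ K) :
    ∃ C : ℝ, 0 ≤ C ∧ ∀ (φ : Finset V → Finset V → ℝ) (δ : ℝ), 0 ≤ δ →
      (∀ A B D, M.F A B D → S ⊆ A → |φ A B + φ B D - φ A D| ≤ δ) →
      (∀ B ∈ K, S ⊂ B → φ S B = 0) →
      ∀ A B, S ⊆ A → A ⊂ B → B ∈ K → |φ A B| ≤ C * δ := by
  classical
  have key : ∀ A B : Finset V, ∃ C : ℝ, 0 ≤ C ∧ (S ⊆ A → A ⊂ B → B ∈ K →
      ∀ φ : Finset V → Finset V → ℝ, |φ A B| ≤ C * ‖psiMap M S φ‖) := by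
    intro A B
    by_cases h : S ⊆ A ∧ A ⊂ B ∧ B ∈ K
    · let ev : (Finset V → Finset V → ℝ) →ₗ[ℝ] ℝ :=
        { toFun := fun φ => φ A B
          map_add' := fun _ _ => rfl
          map_smul' := fun _ _ => rfl }
      have hk : LinearMap.ker (psiMap M S) ≤ LinearMap.ker ev := by
        intro φ hφ
        rw [LinearMap.mem_ker] at hφ ⊢
        have h1 := congrArg Prod.fst hφ
        have h2 := congrArg Prod.snd hφ
        refine M.H1 S hS φ ?_ ?_ A B h.1 h.2.1 h.2.2
        · intro A' B' D' hF hSA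
          have h3 := congrFun h1 (A', B', D')
          simp only [psiMap, LinearMap.coe_mk, AddHom.coe_mk, Prod.fst_zero, Pi.zero_apply] at h3
          rw [if_pos ⟨hF, hSA⟩] at h3
          linarith
        · intro B' hB' hSB
          have h3 := congrFun h2 B'
          simp only [psiMap, LinearMap.coe_mk, AddHom.coe_mk, Prod.snd_zero, Pi.zero_apply] at h3
          rw [if_pos ⟨hB', hSB⟩] at h3
          exact h3
      obtain ⟨C, hC, hb⟩ := bound_of_ker (psiMap M S) ev hk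
      exact ⟨C, hC, fun _ _ _ φ => hb φ⟩
    · refine ⟨0, le_refl _, fun h1 h2 h3 => absurd ⟨h1, h2, h3⟩ h⟩
  choose C hC hb using key
  refine ⟨∑ A, ∑ B, C A B, Finset.sum_nonneg fun A _ => Finset.sum_nonneg fun B _ => hC A B, ?_⟩
  intro φ δ hδ hF h0 A B h1 h2 h3
  have hn : ‖psiMap M S φ‖ ≤ δ := by
    rw [Prod.norm_def]
    apply max_le
    · rw [pi_norm_le_iff_of_nonneg hδ]
      rintro ⟨A', B', D'⟩
      simp only [psiMap, LinearMap.coe_mk, AddHom.coe_mk]
      split_ifs with h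
      · exact hF _ _ _ h.1 h.2
      · simpa using hδ
    · rw [pi_norm_le_iff_of_nonneg hδ]
      intro B'
      simp only [psiMap, LinearMap.coe_mk, AddHom.coe_mk]
      split_ifs with h
      · rw [h0 B' h.1 h.2]
        simpa using hδ
      · simpa using hδ
  have hle : C A B ≤ ∑ A, ∑ B, C A B := by
    calc C A B ≤ ∑ B, C A B :=
          Finset.single_le_sum (f := fun B => C A B) (fun B _ => hC A B) (Finset.mem_univ B)
      _ ≤ ∑ A, ∑ B, C A B :=
          Finset.single_le_sum (f := fun A => ∑ B, C A B)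
            (fun A _ => Finset.sum_nonneg fun B _ => hC A B) (Finset.mem_univ A)
  calc |φ A B| ≤ C A B * ‖psiMap M S φ‖ := hb A B h1 h2 h3 φ
    _ ≤ C A B * δ := by gcongr; exact hC A B
    _ ≤ (∑ A, ∑ B, C A B) * δ := by gcongr

end Cox957
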