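import Pool.Agent.helper957_cox.Rigid

set_option autoImplicit false
open scoped ContDiff Quaternion

namespace Cox957

theorem qnorm_sq (q : ℍ[ℝ]) : ‖q‖ * ‖q‖ = q.re ^ 2 + q.imI ^ 2 + q.imJ ^ 2 + q.imK ^ 2 := by
  rw [← Quaternion.normSq_eq_norm_mul_self, Quaternion.normSq_def']

theorem abs_re_le (q : ℍ[ℝ]) : |q.re| ≤ ‖q‖ := by
  apply abs_le_of_sq_le_sq _ (norm_nonneg q)
  nlinarith [qnorm_sq q, sq_nonneg q.imI, sq_nonneg q.imJ, sq_nonneg q.imK]

theorem abs_imI_le (q : ℍ[ℝ]) : |q.imI| ≤ ‖q‖ := by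
  apply abs_le_of_sq_le_sq _ (norm_nonneg q)
  nlinarith [qnorm_sq q, sq_nonneg q.re, sq_nonneg q.imJ, sq_nonneg q.imK]

theorem abs_imJ_le (q : ℍ[ℝ]) : |q.imJ| ≤ ‖q‖ := by
  apply abs_le_of_sq_le_sq _ (norm_nonneg q)
  nlinarith [qnorm_sq q, sq_nonneg q.re, sq_nonneg q.imI, sq_nonneg q.imK]

theorem abs_imK_le (q : ℍ[ℝ]) : |q.imK| ≤ ‖q‖ := by
  apply abs_le_of_sq_le_sq _ (norm_nonneg q)
  nlinarith [qnorm_sq q, sq_nonneg q.re, sq_nonneg q.imI, sq_nonneg q.imJ]

theorem norm_le_comp (q : ℍ[ℝ]) {b : ℝ} (h1 : |q.re| ≤ b) (h2 : |q.imI| ≤ b) (h3 : |q.imJ| ≤ b)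
    (h4 : |q.imK| ≤ b) : ‖q‖ ≤ 4 * b := by
  have hb : 0 ≤ b := (abs_nonneg _).trans h1
  have hs : ‖q‖ ^ 2 ≤ (4 * b) ^ 2 := by
    have e1 := sq_le_sq' (by linarith [neg_abs_le q.re]) (le_trans (le_abs_self q.re) h1)
    have e2 := sq_le_sq' (by linarith [neg_abs_le q.imI]) (le_trans (le_abs_self q.imI) h2)
    have e3 := sq_le_sq' (by linarith [neg_abs_le q.imJ]) (le_trans (le_abs_self q.imJ) h3)
    have e4 := sq_le_sq' (by linarith [neg_abs_le q.imK]) (le_trans (le_abs_self q.imK) h4)
    nlinarith [qnorm_sq q]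
  exact abs_le_of_sq_le_sq' hs (by linarith) |>.2

theorem unit_star_mul {q : ℍ[ℝ]} (h : ‖q‖ = 1) : star q * q = 1 := by
  rw [Quaternion.star_mul_self, Quaternion.normSq_eq_norm_mul_self, h]
  simp

theorem unit_mul_star {q : ℍ[ℝ]} (h : ‖q‖ = 1) : q * star q = 1 := by
  rw [Quaternion.self_mul_star, Quaternion.normSq_eq_norm_mul_self, h]
  simp

theorem abs_one_of_mul_self {x : ℝ} (h : x * x = 1) : |x| = 1 := by
  have : |x| * |x| = 1 := by rw [abs_mul_abs_self]; exact h
  nlinarith [abs_nonneg x]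

variable {V : Type} [DecidableEq V] [Fintype V]

/-- rigidity of the trivial flat connection on the acyclic piece `S ⊆ A`. -/
theorem RG {K : Set (Finset V)} (hK : IsCx K) (M : Model K) (S : Finset V) (hS : S ∈ K) :
    ∃ ε : ℝ, 0 < ε ∧ ∀ (X : Finset V → Finset V → ℍ[ℝ]) (σ : Finset V → Finset V → ℝ)
      (s : Finset V → Finset V → Finset V → ℝ) (h : Finset V → ℍ[ℝ]),
      (∀ A B, S ⊆ A → A ⊂ B → B ∈ K → ‖X A B‖ = 1) →
      (∀ A B, S ⊆ A → A ⊂ B → B ∈ K → σ A B * σ A B = 1) →
      (∀ T, ‖h T‖ = 1) →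
      (∀ A B D, M.F A B D → S ⊆ A → X A B * X B D = s A B D • X A D) →
      (∀ A B D, M.F A B D → S ⊆ A → σ A B * σ B D = s A B D * σ A D) →
      (∀ A B, S ⊆ A → A ⊂ B → B ∈ K → ‖X A B - σ A B • (star (h A) * h B)‖ < ε) →
      ∃ h' : Finset V → ℍ[ℝ], (∀ T, ‖h' T‖ = 1) ∧
        ∀ A B, S ⊆ A → A ⊂ B → B ∈ K → X A B = σ A B • (star (h' A) * h' B) := by
  classical
  obtain ⟨C, hC, hbd⟩ := H1_bound M S hS
  refine ⟨1 / (12 * C + 12), by positivity, ?_⟩
  intro X σ s h hX hσ hh hflat hσf hclose
  set ε : ℝ := 1 / (12 * C + 12) with hε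
  have hεpos : 0 < ε := by positivity
  let Y : Finset V → Finset V → ℍ[ℝ] := fun A B => σ A B • (h A * X A B * star (h B))
  let k : Finset V → ℍ[ℝ] := fun B => if S ⊂ B ∧ B ∈ K then Y S B else 1
  have hYn : ∀ A B, S ⊆ A → A ⊂ B → B ∈ K → ‖Y A B‖ = 1 := by
    intro A B h1 h2 h3
    simp only [Y]
    rw [norm_smul, norm_mul, norm_mul, norm_star, hh, hh, hX A B h1 h2 h3, Real.norm_eq_abs,
      abs_one_of_mul_self (hσ A B h1 h2 h3)]
    norm_num
  have hYc : ∀ A B, S ⊆ A → A ⊂ B → B ∈ K → ‖Y A B - 1‖ ≤ ε := by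
    intro A B h1 h2 h3
    have e1 : Y A B - 1 = σ A B • (h A * (X A B - σ A B • (star (h A) * h B)) * star (h B)) := by
      simp only [Y]
      rw [mul_sub, sub_mul, smul_sub]
      congr 1
      rw [mul_smul_comm, smul_mul_assoc, smul_smul, hσ A B h1 h2 h3, one_smul, ← mul_assoc,
        unit_mul_star (hh A), one_mul, unit_mul_star (hh B)]
    rw [e1, norm_smul, norm_mul, norm_mul, norm_star, hh, hh, Real.norm_eq_abs,
      abs_one_of_mul_self (hσ A B h1 h2 h3), one_mul, one_mul, mul_one]
    exact (hclose A B h1 h2 h3).le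
  have hkn : ∀ T, ‖k T‖ = 1 := by
    intro T
    simp only [k]
    split_ifs with hT
    · exact hYn S T (Finset.Subset.refl S) hT.1 hT.2
    · exact norm_one
  have hkc : ∀ T, ‖k T - 1‖ ≤ ε := by
    intro T
    simp only [k]
    split_ifs with hT
    · exact hYc S T (Finset.Subset.refl S) hT.1 hT.2
    · rw [sub_self, norm_zero]; exact hεpos.le
  let d : Finset V → Finset V → ℍ[ℝ] := fun A B => k A * Y A B * star (k B) - 1
  have hkS : k S = 1 := by
    simp only [k]
    rw [if_neg (fun hc => (_root_.ssubset_irrefl S) hc.1)]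
  have hd0 : ∀ B ∈ K, S ⊂ B → d S B = 0 := by
    intro B hB hSB
    simp only [d]
    rw [hkS, one_mul]
    have : k B = Y S B := by simp only [k]; rw [if_pos ⟨hSB, hB⟩]
    rw [this, unit_mul_star (hYn S B (Finset.Subset.refl S) hSB hB), sub_self]
  have hdε : ∀ A B, S ⊆ A → A ⊂ B → B ∈ K → ‖d A B‖ ≤ 3 * ε := by
    intro A B h1 h2 h3
    have e1 : d A B = (k A - 1) * (Y A B * star (k B)) + (Y A B - 1) * star (k B) +
        star (k B - 1) := by
      simp only [d, star_sub, star_one, sub_mul, one_mul, mul_assoc]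
      abel
    rw [e1]
    calc _ ≤ ‖(k A - 1) * (Y A B * star (k B)) + (Y A B - 1) * star (k B)‖ + ‖star (k B - 1)‖ :=
          norm_add_le _ _
      _ ≤ ‖(k A - 1) * (Y A B * star (k B))‖ + ‖(Y A B - 1) * star (k B)‖ + ‖star (k B - 1)‖ := by
          gcongr
          exact norm_add_le _ _
      _ = ‖k A - 1‖ + ‖Y A B - 1‖ + ‖k B - 1‖ := by
          rw [norm_mul, norm_mul, norm_mul, norm_star, norm_star, hkn, hYn A B h1 h2 h3]
          ring
      _ ≤ ε + ε + ε := by
          gcongr
          · exact hkc A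
          · exact hYc A B h1 h2 h3
          · exact hkc B
      _ = 3 * ε := by ring
  have hmul : ∀ A B D, M.F A B D → S ⊆ A → d A B + d B D - d A D = -(d A B * d B D) := by
    intro A B D hF hSA
    have hAB := M.lt1 A B D hF
    have hBD := M.lt2 A B D hF
    have hDK := M.mem A B D hF
    have hY2 : Y A B * Y B D = Y A D := by
      simp only [Y]
      rw [smul_mul_smul_comm]
      have e1 : h A * X A B * star (h B) * (h B * X B D * star (h D)) =
          h A * (X A B * X B D) * star (h D) := by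
        calc h A * X A B * star (h B) * (h B * X B D * star (h D))
            = h A * X A B * (star (h B) * h B) * X B D * star (h D) := by noncomm_ring
          _ = h A * (X A B * X B D) * star (h D) := by rw [unit_star_mul (hh B)]; noncomm_ring
      rw [e1, hflat A B D hF hSA, hσf A B D hF hSA, mul_smul_comm, smul_mul_assoc, smul_smul]
      have hs2 : s A B D * s A B D = 1 := by
        have q1 := hσ A B hSA hAB (hK D hDK B hBD.1)
        have q2 := hσ B D (hSA.trans hAB.1) hBD hDK
        have q3 := hσ A D hSA (hAB.trans hBD) hDK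
        have q4 := hσf A B D hF hSA
        calc s A B D * s A B D = (s A B D * σ A D) * (s A B D * σ A D) := by
              rw [mul_mul_mul_comm, q3, mul_one]
          _ = (σ A B * σ A B) * (σ B D * σ B D) := by rw [← q4]; ring
          _ = 1 := by rw [q1, q2, one_mul]
      congr 1
      calc s A B D * σ A D * s A B D = (s A B D * s A B D) * σ A D := by ring
        _ = σ A D := by rw [hs2, one_mul]
    have e2 : (d A B + 1) * (d B D + 1) = d A D + 1 := by
      simp only [d, sub_add_cancel]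
      calc k A * Y A B * star (k B) * (k B * Y B D * star (k D))
          = k A * Y A B * (star (k B) * k B) * Y B D * star (k D) := by noncomm_ring
        _ = k A * (Y A B * Y B D) * star (k D) := by rw [unit_star_mul (hkn B)]; noncomm_ring
        _ = k A * Y A D * star (k D) := by rw [hY2]
    have e3 : (d A B + 1) * (d B D + 1) = d A B * d B D + d A B + d B D + 1 := by noncomm_ring
    rw [e3] at e2
    have e4 : d A D = d A B * d B D + d A B + d B D := by
      have := add_right_cancel e2
      exact this.symm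
    rw [e4]
    abel
  have hzero : ∀ A B, S ⊆ A → A ⊂ B → B ∈ K → d A B = 0 := by
    let E : Finset (Finset V × Finset V) :=
      Finset.univ.filter fun p => S ⊆ p.1 ∧ p.1 ⊂ p.2 ∧ p.2 ∈ K
    by_cases hE : E.Nonempty
    · obtain ⟨p, hp, hmax⟩ := Finset.exists_max_image E (fun p => ‖d p.1 p.2‖) hE
      have hp' : S ⊆ p.1 ∧ p.1 ⊂ p.2 ∧ p.2 ∈ K := by simpa [E] using hp
      set m := ‖d p.1 p.2‖ with hm
      have hm0 : 0 ≤ m := norm_nonneg _
      have hle : ∀ A B, S ⊆ A → A ⊂ B → B ∈ K → ‖d A B‖ ≤ m := by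
        intro A B h1 h2 h3
        exact hmax (A, B) (by simp [E, h1, h2, h3])
      have hprod : ∀ A B D, M.F A B D → S ⊆ A → ‖d A B * d B D‖ ≤ m * m := by
        intro A B D hF hSA
        have hAB := M.lt1 A B D hF
        have hBD := M.lt2 A B D hF
        have hDK := M.mem A B D hF
        rw [norm_mul]
        exact mul_le_mul (hle A B hSA hAB (hK D hDK B hBD.1))
          (hle B D (hSA.trans hAB.1) hBD hDK) (norm_nonneg _) hm0
      have c1 : ∀ A B, S ⊆ A → A ⊂ B → B ∈ K → |(d A B).re| ≤ C * (m * m) := by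
        refine hbd (fun A B => (d A B).re) (m * m) (mul_nonneg hm0 hm0) ?_ ?_
        · intro A B D hF hSA
          have e1 := congrArg QuaternionAlgebra.re (hmul A B D hF hSA)
          have e2 : (d A B).re + (d B D).re - (d A D).re = -(d A B * d B D).re := by
            simpa using e1
          show |(d A B).re + (d B D).re - (d A D).re| ≤ m * m
          rw [e2, abs_neg]
          exact (abs_re_le _).trans (hprod A B D hF hSA)
        · intro B hB hSB
          simp only [hd0 B hB hSB]
          rfl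
      have c2 : ∀ A B, S ⊆ A → A ⊂ B → B ∈ K → |(d A B).imI| ≤ C * (m * m) := by
        refine hbd (fun A B => (d A B).imI) (m * m) (mul_nonneg hm0 hm0) ?_ ?_
        · intro A B D hF hSA
          have e1 := congrArg QuaternionAlgebra.imI (hmul A B D hF hSA)
          have e2 : (d A B).imI + (d B D).imI - (d A D).imI = -(d A B * d B D).imI := by
            simpa using e1
          show |(d A B).imI + (d B D).imI - (d A D).imI| ≤ m * m
          rw [e2, abs_neg]
          exact (abs_imI_le _).trans (hprod A B D hF hSA)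
        · intro B hB hSB
          simp only [hd0 B hB hSB]
          rfl
      have c3 : ∀ A B, S ⊆ A → A ⊂ B → B ∈ K → |(d A B).imJ| ≤ C * (m * m) := by
        refine hbd (fun A B => (d A B).imJ) (m * m) (mul_nonneg hm0 hm0) ?_ ?_
        · intro A B D hF hSA
          have e1 := congrArg QuaternionAlgebra.imJ (hmul A B D hF hSA)
          have e2 : (d A B).imJ + (d B D).imJ - (d A D).imJ = -(d A B * d B D).imJ := by
            simpa using e1
          show |(d A B).imJ + (d B D).imJ - (d A D).imJ| ≤ m * m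
          rw [e2, abs_neg]
          exact (abs_imJ_le _).trans (hprod A B D hF hSA)
        · intro B hB hSB
          simp only [hd0 B hB hSB]
          rfl
      have c4 : ∀ A B, S ⊆ A → A ⊂ B → B ∈ K → |(d A B).imK| ≤ C * (m * m) := by
        refine hbd (fun A B => (d A B).imK) (m * m) (mul_nonneg hm0 hm0) ?_ ?_
        · intro A B D hF hSA
          have e1 := congrArg QuaternionAlgebra.imK (hmul A B D hF hSA)
          have e2 : (d A B).imK + (d B D).imK - (d A D).imK = -(d A B * d B D).imK := by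
            simpa using e1
          show |(d A B).imK + (d B D).imK - (d A D).imK| ≤ m * m
          rw [e2, abs_neg]
          exact (abs_imK_le _).trans (hprod A B D hF hSA)
        · intro B hB hSB
          simp only [hd0 B hB hSB]
          rfl
      have hfin : m ≤ 4 * (C * (m * m)) := by
        rw [hm]
        exact norm_le_comp _ (c1 _ _ hp'.1 hp'.2.1 hp'.2.2) (c2 _ _ hp'.1 hp'.2.1 hp'.2.2)
          (c3 _ _ hp'.1 hp'.2.1 hp'.2.2) (c4 _ _ hp'.1 hp'.2.1 hp'.2.2)
      have hmε : m ≤ 3 * ε := hdε _ _ hp'.1 hp'.2.1 hp'.2.2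
      have hεC : 12 * C * ε < 1 := by
        rw [hε, mul_one_div, div_lt_one (by positivity)]
        linarith
      have hm00 : m = 0 := by
        by_contra hne
        have hpos : 0 < m := lt_of_le_of_ne hm0 (Ne.symm hne)
        have : 4 * (C * (m * m)) ≤ (12 * C * ε) * m := by
          calc 4 * (C * (m * m)) = 4 * C * m * m := by ring
            _ ≤ 4 * C * m * (3 * ε) := by gcongr
            _ = (12 * C * ε) * m := by ring
        nlinarith
      intro A B h1 h2 h3
      have := hle A B h1 h2 h3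
      rw [hm00] at this
      exact norm_le_zero_iff.mp this
    · intro A B h1 h2 h3
      exact absurd ⟨(A, B), by simp [E, h1, h2, h3]⟩ hE
  refine ⟨fun T => k T * h T, fun T => by rw [norm_mul, hkn, hh, one_mul], ?_⟩
  intro A B h1 h2 h3
  have e0 : k A * Y A B * star (k B) = 1 := sub_eq_zero.mp (hzero A B h1 h2 h3)
  have e1 : Y A B = star (k A) * k B := by
    calc Y A B = (star (k A) * k A) * Y A B * (star (k B) * k B) := by
          rw [unit_star_mul (hkn A), unit_star_mul (hkn B), one_mul, mul_one]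
      _ = star (k A) * (k A * Y A B * star (k B)) * k B := by noncomm_ring
      _ = star (k A) * k B := by rw [e0, mul_one]
  have e2 : X A B = σ A B • (star (h A) * Y A B * h B) := by
    simp only [Y]
    rw [mul_smul_comm, smul_mul_assoc, smul_smul, hσ A B h1 h2 h3, one_smul]
    calc X A B = (star (h A) * h A) * X A B * (star (h B) * h B) := by
          rw [unit_star_mul (hh A), unit_star_mul (hh B), one_mul, mul_one]
      _ = star (h A) * (h A * X A B * star (h B)) * h B := by noncomm_ring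
  rw [e2, e1, star_mul]
  congr 1
  noncomm_ring

end Cox957
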