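import Pool.Agent.helper957_cox.Rigid2

set_option autoImplicit false
open scoped ContDiff Quaternion

namespace Cox957

variable {V : Type} [DecidableEq V] [Fintype V]

/-- unknown edges -/
def Unk (K : Set (Finset V)) (v w : V) (p : Finset V × Finset V) : Prop :=
  v ∉ p.1 ∧ w ∉ p.1 ∧ p.1 ⊂ p.2 ∧ p.2 ∈ K

/-- the type of unknown edges -/
abbrev Io (K : Set (Finset V)) (v w : V) : Type := {p : Finset V × Finset V // Unk K v w p}

/-- the type of the triangles giving equations -/
abbrev Tr {K : Set (Finset V)} (M : Model K) (v w : V) : Type :=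
  {t : Finset V × Finset V × Finset V // M.F t.1 t.2.1 t.2.2 ∧ v ∉ t.1 ∧ w ∉ t.1}

noncomputable instance (K : Set (Finset V)) (v w : V) : Fintype (Io K v w) := by
  classical
  exact Subtype.fintype _

noncomputable instance {K : Set (Finset V)} (M : Model K) (v w : V) : Fintype (Tr M v w) := by
  classical
  exact Subtype.fintype _

open Classical in
/-- extension of a function on the unknown edges by given values -/
noncomputable def ex {α : Type} (K : Set (Finset V)) (v w : V) (x : Io K v w → α)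
    (c : Finset V → Finset V → α) (A B : Finset V) : α :=
  if h : Unk K v w (A, B) then x ⟨(A, B), h⟩ else c A B

theorem ex_pos {α : Type} {K : Set (Finset V)} {v w : V} (x : Io K v w → α)
    (c : Finset V → Finset V → α) {A B : Finset V} (h : Unk K v w (A, B)) :
    ex K v w x c A B = x ⟨(A, B), h⟩ := by
  unfold ex
  rw [dif_pos h]

theorem ex_neg {α : Type} {K : Set (Finset V)} {v w : V} (x : Io K v w → α)
    (c : Finset V → Finset V → α) {A B : Finset V} (h : ¬ Unk K v w (A, B)) :
    ex K v w x c A B = c A B := by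
  unfold ex
  rw [dif_neg h]

/-- basis selection -/
theorem BS' {Γ : Type} [Fintype Γ] [DecidableEq Γ] (W : Submodule ℝ (Γ → ℝ)) :
    ∃ s : Finset Γ, (∀ x ∈ W, (∀ i ∈ s, x i = 0) → x = 0) ∧
      ∀ d : Γ → ℝ, ∃ x ∈ W, ∀ i ∈ s, x i = d i := by
  classical
  have hex : ∃ s : Finset Γ, ∀ x ∈ W, (∀ i ∈ s, x i = 0) → x = 0 :=
    ⟨Finset.univ, fun x _ h => funext fun i => h i (Finset.mem_univ i)⟩
  obtain ⟨s, hs, hmin⟩ := WellFounded.has_min (wellFounded_lt (α := Finset Γ))
    {s : Finset Γ | ∀ x ∈ W, (∀ i ∈ s, x i = 0) → x = 0} hex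
  refine ⟨s, hs, ?_⟩
  have h1 : ∀ i ∈ s, ∃ x ∈ W, (∀ j ∈ s.erase i, x j = 0) ∧ x i = 1 := by
    intro i hi
    have hlt : s.erase i < s := Finset.erase_ssubset hi
    have hn : ¬ (s.erase i ∈ {s : Finset Γ | ∀ x ∈ W, (∀ i ∈ s, x i = 0) → x = 0}) :=
      fun h => hmin _ h hlt
    simp only [Set.mem_setOf_eq, not_forall] at hn
    obtain ⟨x, hxW, hx0, hxne⟩ := hn
    have hxi : x i ≠ 0 := by
      intro h0
      apply hxne
      apply hs x hxW
      intro j hj
      by_cases hji : j = i
      · rw [hji]; exact h0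
      · exact hx0 j (Finset.mem_erase.mpr ⟨hji, hj⟩)
    refine ⟨(x i)⁻¹ • x, W.smul_mem _ hxW, ?_, ?_⟩
    · intro j hj
      simp [hx0 j hj]
    · simp [hxi]
  choose! b hbW hb0 hb1 using h1
  intro d
  refine ⟨∑ i ∈ s, d i • b i, W.sum_mem fun i hi => W.smul_mem _ (hbW i hi), ?_⟩
  intro j hj
  rw [Finset.sum_apply, Finset.sum_eq_single j]
  · simp [hb1 j hj]
  · intro i hi hij
    simp [hb0 i hi j (Finset.mem_erase.mpr ⟨Ne.symm hij, hj⟩)]
  · intro h; exact absurd hj h

/-- the linear system -/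
theorem SYS {K : Set (Finset V)} (hK : IsCx K) (M : Model K) (v w : V)
    (REL : ∀ c : Finset V → Finset V → Finset V → ℝ,
      ∃ φ : Finset V → Finset V → ℝ, (∀ A B, v ∈ A ∨ w ∈ A → φ A B = 0) ∧
      ∀ A B C, M.F A B C → v ∉ A → w ∉ A → φ A B + φ B C - φ A C = c A B C) :
    ∃ (g : Finset (Io K v w)) (_ : (Tr M v w ⊕ g) ≃ Io K v w),
      ∀ x : Io K v w → ℝ, (∀ A B C, M.F A B C → v ∉ A → w ∉ A →
        ex K v w x 0 A B + ex K v w x 0 B C - ex K v w x 0 A C = 0) →
        (∀ i ∈ g, x i = 0) → x = 0 := by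
  classical
  let D : (Io K v w → ℝ) →ₗ[ℝ] (Tr M v w → ℝ) :=
    { toFun := fun x t => ex K v w x 0 t.1.1 t.1.2.1 + ex K v w x 0 t.1.2.1 t.1.2.2 -
        ex K v w x 0 t.1.1 t.1.2.2
      map_add' := by
        intro x y
        funext t
        simp only [Pi.add_apply]
        have h : ∀ A B, ex K v w (x + y) 0 A B = ex K v w x 0 A B + ex K v w y 0 A B := by
          intro A B
          unfold ex
          split_ifs <;> simp
        rw [h, h, h]; ring
      map_smul' := by
        intro r x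
        funext t
        simp only [Pi.smul_apply, smul_eq_mul, RingHom.id_apply]
        have h : ∀ A B, ex K v w (r • x) 0 A B = r * ex K v w x 0 A B := by
          intro A B
          unfold ex
          split_ifs <;> simp
        rw [h, h, h]; ring }
  obtain ⟨g, hg1, hg2⟩ := BS' (LinearMap.ker D)
  have hker : ∀ x : Io K v w → ℝ, (∀ A B C, M.F A B C → v ∉ A → w ∉ A →
        ex K v w x 0 A B + ex K v w x 0 B C - ex K v w x 0 A C = 0) → x ∈ LinearMap.ker D := by
    intro x hx
    rw [LinearMap.mem_ker]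
    funext t
    exact hx _ _ _ t.2.1 t.2.2.1 t.2.2.2
  have hsurj : Function.Surjective D := by
    intro c
    obtain ⟨φ, hφ1, hφ2⟩ := REL (fun A B C => if h : M.F A B C ∧ v ∉ A ∧ w ∉ A then
      c ⟨(A, B, C), h⟩ else 0)
    refine ⟨fun i => φ i.1.1 i.1.2, ?_⟩
    have hext : ∀ A B, A ⊂ B → B ∈ K →
        ex K v w (fun i : Io K v w => φ i.1.1 i.1.2) 0 A B = φ A B := by
      intro A B hAB hB
      unfold ex
      split_ifs with h
      · rfl
      · by_cases hv : v ∈ A
        · rw [hφ1 A B (Or.inl hv)]; rfl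
        · by_cases hw : w ∈ A
          · rw [hφ1 A B (Or.inr hw)]; rfl
          · exact absurd ⟨hv, hw, hAB, hB⟩ h
    funext t
    obtain ⟨⟨A, B, C⟩, ht⟩ := t
    have hAB := M.lt1 A B C ht.1
    have hBC := M.lt2 A B C ht.1
    have hC := M.mem A B C ht.1
    show ex K v w (fun i : Io K v w => φ i.1.1 i.1.2) 0 A B +
      ex K v w (fun i : Io K v w => φ i.1.1 i.1.2) 0 B C -
      ex K v w (fun i : Io K v w => φ i.1.1 i.1.2) 0 A C = c ⟨(A, B, C), ht⟩
    rw [hext A B hAB (hK C hC B hBC.1), hext B C hBC hC, hext A C (hAB.trans hBC) hC,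
      hφ2 A B C ht.1 ht.2.1 ht.2.2, dif_pos ht]
  let L : (Io K v w → ℝ) →ₗ[ℝ] (Tr M v w ⊕ g → ℝ) :=
    { toFun := fun x r => Sum.elim (D x) (fun i => x i.1) r
      map_add' := by
        intro x y
        funext r
        cases r <;> simp
      map_smul' := by
        intro c x
        funext r
        cases r <;> simp }
  have hLinj : Function.Injective L := by
    rw [← LinearMap.ker_eq_bot, LinearMap.ker_eq_bot']
    intro x hx
    apply hg1 x
    · rw [LinearMap.mem_ker]
      funext t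
      exact congrFun hx (Sum.inl t)
    · intro i hi
      exact congrFun hx (Sum.inr ⟨i, hi⟩)
  have hLsurj : Function.Surjective L := by
    intro c
    obtain ⟨x0, hx0⟩ := hsurj (fun t => c (Sum.inl t))
    obtain ⟨y, hy, hy2⟩ := hg2 (fun i => if h : i ∈ g then c (Sum.inr ⟨i, h⟩) - x0 i else 0)
    refine ⟨x0 + y, ?_⟩
    funext r
    cases r with
    | inl t =>
      show D (x0 + y) t = _
      rw [map_add, LinearMap.mem_ker.mp hy, add_zero, hx0]
    | inr i =>
      show x0 i.1 + y i.1 = _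
      rw [hy2 i.1 i.2, dif_pos i.2]
      ring
  have hcard : Fintype.card (Tr M v w ⊕ g) = Fintype.card (Io K v w) := by
    have h1 := (LinearEquiv.ofBijective L ⟨hLinj, hLsurj⟩).finrank_eq
    rw [Module.finrank_fintype_fun_eq_card, Module.finrank_fintype_fun_eq_card] at h1
    exact h1.symm
  refine ⟨g, Fintype.equivOfCardEq hcard, ?_⟩
  intro x hx hx0
  exact hg1 x (hker x hx) hx0

end Cox957
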