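import Pool.Agent.helper957_cox.TS1

set_option autoImplicit false
set_option linter.unusedSectionVars false
open scoped ContDiff Quaternion

namespace Cox957

variable {V : Type} [DecidableEq V] [Fintype V]

/-- the combinatorial data of the analytic argument -/
structure Dat {K : Set (Finset V)} (M : Model K) (v w : V) (U : Finset V) where
  ζ : Finset V → Finset V → ℂ
  s : Finset V → Finset V → Finset V → ℝ
  σ : V → Finset V → Finset V → ℝ
  ξ : V → Finset V → ℂ
  hζ : ∀ A B, ‖ζ A B‖ = 1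
  hreal : ∀ A B, v ∈ A → w ∈ A → A ⊂ B → B ∈ K → (ζ A B).im = 0
  hs : ∀ A B C, M.F A B C → ζ A B * ζ B C = s A B C * ζ A C
  hs2 : ∀ A B C, M.F A B C → s A B C * s A B C = 1
  hσ : ∀ u ∈ U, ∀ A B, u ∈ A → A ⊂ B → B ∈ K → σ u A B * σ u A B = 1
  hξ : ∀ u T, ‖ξ u T‖ = 1
  hζσ : ∀ u ∈ U, ∀ A B, u ∈ A → A ⊂ B → B ∈ K →
    ζ A B = σ u A B * ((starRingEnd ℂ) (ξ u A) * ξ u B)

/-- conjugation of a complex number by the unit quaternion at time `θ` -/
noncomputable def cAt (θ : ℝ) (z : ℂ) : ℂ := z.re + z.im * Real.cos (Real.pi * θ) * Complex.I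

/-- the `j` part -/
noncomputable def cBt (θ : ℝ) (z : ℂ) : ℂ := z.im * Real.sin (Real.pi * θ)

theorem cAt_re (θ : ℝ) (z : ℂ) : (cAt θ z).re = z.re := by
  unfold cAt
  generalize Real.cos (Real.pi * θ) = c
  simp

theorem cAt_im (θ : ℝ) (z : ℂ) : (cAt θ z).im = z.im * Real.cos (Real.pi * θ) := by
  unfold cAt
  generalize Real.cos (Real.pi * θ) = c
  simp

theorem cBt_re (θ : ℝ) (z : ℂ) : (cBt θ z).re = z.im * Real.sin (Real.pi * θ) := by
  unfold cBt
  generalize Real.sin (Real.pi * θ) = c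
  simp

theorem cBt_im (θ : ℝ) (z : ℂ) : (cBt θ z).im = 0 := by
  unfold cBt
  generalize Real.sin (Real.pi * θ) = c
  simp

theorem cAB_mul (θ : ℝ) (z y : ℂ) :
    tq (cAt θ z) (cBt θ z) * tq (cAt θ y) (cBt θ y) = tq (cAt θ (z * y)) (cBt θ (z * y)) := by
  have hc : Real.cos (Real.pi * θ) ^ 2 + Real.sin (Real.pi * θ) ^ 2 = 1 :=
    Real.cos_sq_add_sin_sq _
  rw [tq_mul]
  have e1 : cAt θ z * cAt θ y - cBt θ z * (starRingEnd ℂ) (cBt θ y) = cAt θ (z * y) := by
    apply Complex.ext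
    · simp only [Complex.sub_re, Complex.mul_re, Complex.conj_re, Complex.conj_im, cAt_re, cAt_im,
        cBt_re, cBt_im]
      linear_combination (-(z.im * y.im)) * hc
    · simp only [Complex.sub_im, Complex.mul_im, Complex.conj_re, Complex.conj_im, cAt_re, cAt_im,
        cBt_re, cBt_im]
      ring
  have e2 : cAt θ z * cBt θ y + cBt θ z * (starRingEnd ℂ) (cAt θ y) = cBt θ (z * y) := by
    apply Complex.ext
    · simp only [Complex.add_re, Complex.mul_re, Complex.mul_im, Complex.conj_re, Complex.conj_im,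
        cAt_re, cAt_im, cBt_re, cBt_im]
      ring
    · simp only [Complex.add_im, Complex.mul_im, Complex.conj_re, Complex.conj_im, cAt_re, cAt_im,
        cBt_re, cBt_im]
      ring
  rw [e1, e2]

theorem cAB_smul (θ : ℝ) (r : ℝ) (z : ℂ) :
    tq (cAt θ (r * z)) (cBt θ (r * z)) = r • tq (cAt θ z) (cBt θ z) := by
  rw [tq_smul]
  congr 1
  · apply Complex.ext
    · simp [cAt_re]
    · simp only [cAt_im, Complex.mul_im, Complex.ofReal_re, Complex.ofReal_im, zero_mul, add_zero]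
      ring
  · apply Complex.ext
    · simp only [cBt_re, cBt_im, Complex.mul_re, Complex.mul_im, Complex.ofReal_re,
        Complex.ofReal_im, zero_mul, add_zero, sub_zero]
      ring
    · simp only [cBt_im, Complex.mul_im, Complex.ofReal_re, Complex.ofReal_im, zero_mul, add_zero,
        mul_zero]

theorem cAB_norm (θ : ℝ) (z : ℂ) (hz : ‖z‖ = 1) : ‖tq (cAt θ z) (cBt θ z)‖ = 1 := by
  have hc : Real.cos (Real.pi * θ) ^ 2 + Real.sin (Real.pi * θ) ^ 2 = 1 :=
    Real.cos_sq_add_sin_sq _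
  have h1 := tq_normSq (cAt θ z) (cBt θ z)
  have h2 : Complex.normSq z = 1 := by rw [Complex.normSq_eq_norm_sq, hz]; norm_num
  rw [Complex.normSq_apply] at h2
  have h3 : Complex.normSq (cAt θ z) + Complex.normSq (cBt θ z) = 1 := by
    rw [Complex.normSq_apply, Complex.normSq_apply, cAt_re, cAt_im, cBt_re, cBt_im]
    linear_combination h2 + (z.im * z.im) * hc
  rw [h3] at h1
  nlinarith [norm_nonneg (tq (cAt θ z) (cBt θ z))]

theorem cAB_real (θ : ℝ) (z : ℂ) (hz : z.im = 0) : cAt θ z = z ∧ cBt θ z = 0 := by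
  constructor
  · apply Complex.ext
    · rw [cAt_re]
    · rw [cAt_im, hz, zero_mul]
  · apply Complex.ext
    · rw [cBt_re, hz, zero_mul]; rfl
    · rw [cBt_im]; rfl

variable {K : Set (Finset V)} {M : Model K} {v w : V} {U : Finset V}

open Classical in
/-- complex part of the coefficients -/
noncomputable def Dat.ka (D : Dat M v w U) (θ : ℝ) (A B : Finset V) : ℂ :=
  if v ∈ A then D.ζ A B else cAt θ (D.ζ A B)

open Classical in
/-- `j` part of the coefficients -/
noncomputable def Dat.kb (D : Dat M v w U) (θ : ℝ) (A B : Finset V) : ℂ :=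
  if v ∈ A then 0 else cBt θ (D.ζ A B)

/-- the complex part of the connection -/
noncomputable def Dat.XA (D : Dat M v w U) (θ : ℝ) (a : Io K v w → ℂ) (A B : Finset V) : ℂ :=
  ex K v w a (D.ka θ) A B

/-- the `j` part of the connection -/
noncomputable def Dat.XB (D : Dat M v w U) (θ : ℝ) (b : Io K v w → ℂ) (A B : Finset V) : ℂ :=
  ex K v w b (D.kb θ) A B

/-- complex part of the equations -/
noncomputable def Dat.eqA (D : Dat M v w U) (g : Finset (Io K v w)) (θ : ℝ)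
    (a b : Io K v w → ℂ) : (Tr M v w ⊕ g) → ℂ
  | Sum.inl t => D.XA θ a t.1.1 t.1.2.1 * D.XA θ a t.1.2.1 t.1.2.2 -
      D.XB θ b t.1.1 t.1.2.1 * (starRingEnd ℂ) (D.XB θ b t.1.2.1 t.1.2.2) -
      D.s t.1.1 t.1.2.1 t.1.2.2 * D.XA θ a t.1.1 t.1.2.2
  | Sum.inr i => a i.1 - D.ζ i.1.1.1 i.1.1.2

/-- `j` part of the equations -/
noncomputable def Dat.eqB (D : Dat M v w U) (g : Finset (Io K v w)) (θ : ℝ)
    (a b : Io K v w → ℂ) : (Tr M v w ⊕ g) → ℂ
  | Sum.inl t => D.XA θ a t.1.1 t.1.2.1 * D.XB θ b t.1.2.1 t.1.2.2 +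
      D.XB θ b t.1.1 t.1.2.1 * (starRingEnd ℂ) (D.XA θ a t.1.2.1 t.1.2.2) -
      D.s t.1.1 t.1.2.1 t.1.2.2 * D.XB θ b t.1.1 t.1.2.2
  | Sum.inr i => b i.1

/-- the map of the analytic argument -/
noncomputable def Dat.Fm (D : Dat M v w U) (g : Finset (Io K v w))
    (e : (Tr M v w ⊕ g) ≃ Io K v w) (p : ℝ × ((Io K v w → ℂ) × (Io K v w → ℂ))) :
    (Io K v w → ℂ) × (Io K v w → ℂ) :=
  (fun i => D.eqA g p.1 p.2.1 p.2.2 (e.symm i), fun i => D.eqB g p.1 p.2.1 p.2.2 (e.symm i))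

theorem Dat.Fm_zero_iff (D : Dat M v w U) (g : Finset (Io K v w))
    (e : (Tr M v w ⊕ g) ≃ Io K v w) (p : ℝ × ((Io K v w → ℂ) × (Io K v w → ℂ))) :
    D.Fm g e p = 0 ↔ ∀ r, D.eqA g p.1 p.2.1 p.2.2 r = 0 ∧ D.eqB g p.1 p.2.1 p.2.2 r = 0 := by
  constructor
  · intro h r
    have h1 := congrFun (congrArg Prod.fst h) (e r)
    have h2 := congrFun (congrArg Prod.snd h) (e r)
    simp only [Dat.Fm, Equiv.symm_apply_apply] at h1 h2
    exact ⟨h1, h2⟩
  · intro h
    apply Prod.ext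
    · funext i
      exact (h (e.symm i)).1
    · funext i
      exact (h (e.symm i)).2

/-! smoothness -/

theorem contDiff_cAt (z : ℂ) : ContDiff ℝ ∞ (fun θ : ℝ => cAt θ z) := by
  unfold cAt
  have h1 : ContDiff ℝ ∞ (fun θ : ℝ => ((Real.cos (Real.pi * θ) : ℝ) : ℂ)) :=
    Complex.ofRealCLM.contDiff.comp (Real.contDiff_cos.comp (contDiff_const.mul contDiff_id))
  exact contDiff_const.add ((contDiff_const.mul h1).mul contDiff_const)

theorem contDiff_cBt (z : ℂ) : ContDiff ℝ ∞ (fun θ : ℝ => cBt θ z) := by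
  unfold cBt
  have h1 : ContDiff ℝ ∞ (fun θ : ℝ => ((Real.sin (Real.pi * θ) : ℝ) : ℂ)) :=
    Complex.ofRealCLM.contDiff.comp (Real.contDiff_sin.comp (contDiff_const.mul contDiff_id))
  exact contDiff_const.mul h1

theorem Dat.contDiff_XA (D : Dat M v w U) (A B : Finset V) :
    ContDiff ℝ ∞ (fun p : ℝ × ((Io K v w → ℂ) × (Io K v w → ℂ)) => D.XA p.1 p.2.1 A B) := by
  unfold Dat.XA
  by_cases h : Unk K v w (A, B)
  · simp only [ex_pos _ _ h]
    exact (contDiff_apply ℝ ℂ (⟨(A, B), h⟩ : Io K v w)).comp (contDiff_fst.comp contDiff_snd)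
  · simp only [ex_neg _ _ h]
    unfold Dat.ka
    by_cases hv : v ∈ A
    · simp only [if_pos hv]
      exact contDiff_const
    · simp only [if_neg hv]
      exact (contDiff_cAt _).comp contDiff_fst

theorem Dat.contDiff_XB (D : Dat M v w U) (A B : Finset V) :
    ContDiff ℝ ∞ (fun p : ℝ × ((Io K v w → ℂ) × (Io K v w → ℂ)) => D.XB p.1 p.2.2 A B) := by
  unfold Dat.XB
  by_cases h : Unk K v w (A, B)
  · simp only [ex_pos _ _ h]
    exact (contDiff_apply ℝ ℂ (⟨(A, B), h⟩ : Io K v w)).comp (contDiff_snd.comp contDiff_snd)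
  · simp only [ex_neg _ _ h]
    unfold Dat.kb
    by_cases hv : v ∈ A
    · simp only [if_pos hv]
      exact contDiff_const
    · simp only [if_neg hv]
      exact (contDiff_cBt _).comp contDiff_fst

theorem Dat.contDiff_Fm (D : Dat M v w U) (g : Finset (Io K v w))
    (e : (Tr M v w ⊕ g) ≃ Io K v w) : ContDiff ℝ ∞ (D.Fm g e) := by
  have hconj : ∀ {f : ℝ × ((Io K v w → ℂ) × (Io K v w → ℂ)) → ℂ}, ContDiff ℝ ∞ f →
      ContDiff ℝ ∞ (fun p => (starRingEnd ℂ) (f p)) := fun hf =>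
    Complex.conjCLE.contDiff.comp hf
  unfold Dat.Fm
  apply ContDiff.prodMk
  · rw [contDiff_pi]
    intro i
    cases h : e.symm i with
    | inl t =>
      simp only [Dat.eqA]
      exact (((D.contDiff_XA _ _).mul (D.contDiff_XA _ _)).sub
        ((D.contDiff_XB _ _).mul (hconj (D.contDiff_XB _ _)))).sub
        (contDiff_const.mul (D.contDiff_XA _ _))
    | inr j =>
      simp only [Dat.eqA]
      exact ((contDiff_apply ℝ ℂ j.1).comp (contDiff_fst.comp contDiff_snd)).sub contDiff_const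
  · rw [contDiff_pi]
    intro i
    cases h : e.symm i with
    | inl t =>
      simp only [Dat.eqB]
      exact (((D.contDiff_XA _ _).mul (D.contDiff_XB _ _)).add
        ((D.contDiff_XB _ _).mul (hconj (D.contDiff_XA _ _)))).sub
        (contDiff_const.mul (D.contDiff_XB _ _))
    | inr j =>
      simp only [Dat.eqB]
      exact ((contDiff_apply ℝ ℂ j.1).comp (contDiff_snd.comp contDiff_snd))

/-! equivariance -/

theorem Dat.XB_smul (D : Dat M v w U) (θ : ℝ) (hθ : Real.sin (Real.pi * θ) = 0) (c : ℂ)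
    (b : Io K v w → ℂ) (A B : Finset V) : D.XB θ (c • b) A B = c * D.XB θ b A B := by
  unfold Dat.XB
  by_cases h : Unk K v w (A, B)
  · rw [ex_pos _ _ h, ex_pos _ _ h]
    rfl
  · rw [ex_neg _ _ h, ex_neg _ _ h]
    unfold Dat.kb cBt
    split_ifs
    · simp
    · rw [hθ]; simp

theorem Dat.Fm_equiv (D : Dat M v w U) (g : Finset (Io K v w))
    (e : (Tr M v w ⊕ g) ≃ Io K v w) (θ : ℝ) (hθ : Real.sin (Real.pi * θ) = 0) (c : ℂ)
    (hc : ‖c‖ = 1) (a b : Io K v w → ℂ) :
    D.Fm g e (θ, a, c • b) = ((D.Fm g e (θ, a, b)).1, c • (D.Fm g e (θ, a, b)).2) := by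
  have hcc : c * (starRingEnd ℂ) c = 1 := by
    rw [Complex.mul_conj, Complex.normSq_eq_norm_sq, hc]
    norm_num
  apply Prod.ext
  · funext i
    show D.eqA g θ a (c • b) (e.symm i) = D.eqA g θ a b (e.symm i)
    cases e.symm i with
    | inl t =>
      simp only [Dat.eqA, D.XB_smul θ hθ, map_mul]
      linear_combination (-(D.XB θ b t.1.1 t.1.2.1 *
        (starRingEnd ℂ) (D.XB θ b t.1.2.1 t.1.2.2))) * hcc
    | inr j => rfl
  · funext i
    show D.eqB g θ a (c • b) (e.symm i) = c * D.eqB g θ a b (e.symm i)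
    cases e.symm i with
    | inl t =>
      simp only [Dat.eqB, D.XB_smul θ hθ]
      ring
    | inr j => rfl

end Cox957
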