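import Pool.Agent.helper957_cox.TS2

set_option autoImplicit false
set_option linter.unusedSectionVars false
open scoped ContDiff Quaternion

namespace Cox957

theorem der1 {E : Type} [NormedAddCommGroup E] [NormedSpace ℝ E] {x0 : E}
    {u1 u2 u3 w1 w2 : E → ℂ} {U1 U2 U3 W1 W2 : E →L[ℝ] ℂ}
    (h1 : HasFDerivAt u1 U1 x0) (h2 : HasFDerivAt u2 U2 x0) (h3 : HasFDerivAt u3 U3 x0)
    (g1 : HasFDerivAt w1 W1 x0) (g2 : HasFDerivAt w2 W2 x0) (z1 : w1 x0 = 0) (z2 : w2 x0 = 0)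
    (s : ℂ) :
    HasFDerivAt (fun q => u1 q * u2 q - w1 q * (starRingEnd ℂ) (w2 q) - s * u3 q)
      (u1 x0 • U2 + u2 x0 • U1 - s • U3) x0 := by
  have g2' : HasFDerivAt (fun q => (starRingEnd ℂ) (w2 q))
      ((Complex.conjCLE : ℂ →L[ℝ] ℂ).comp W2) x0 :=
    (Complex.conjCLE : ℂ →L[ℝ] ℂ).hasFDerivAt.comp x0 g2
  have h := ((h1.mul h2).sub (g1.mul g2')).sub (h3.const_mul s)
  refine h.congr_fderiv ?_
  rw [z1, z2, map_zero]
  apply ContinuousLinearMap.ext
  intro y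
  simp

theorem der2 {E : Type} [NormedAddCommGroup E] [NormedSpace ℝ E] {x0 : E}
    {u1 u2 w1 w2 w3 : E → ℂ} {U1 U2 W1 W2 W3 : E →L[ℝ] ℂ}
    (h1 : HasFDerivAt u1 U1 x0) (h2 : HasFDerivAt u2 U2 x0)
    (g1 : HasFDerivAt w1 W1 x0) (g2 : HasFDerivAt w2 W2 x0) (g3 : HasFDerivAt w3 W3 x0)
    (z1 : w1 x0 = 0) (z2 : w2 x0 = 0) (s : ℂ) :
    HasFDerivAt (fun q => u1 q * w2 q + w1 q * (starRingEnd ℂ) (u2 q) - s * w3 q)
      (u1 x0 • W2 + (starRingEnd ℂ) (u2 x0) • W1 - s • W3) x0 := by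
  have h2' : HasFDerivAt (fun q => (starRingEnd ℂ) (u2 q))
      ((Complex.conjCLE : ℂ →L[ℝ] ℂ).comp U2) x0 :=
    (Complex.conjCLE : ℂ →L[ℝ] ℂ).hasFDerivAt.comp x0 h2
  have h := ((h1.mul g2).add (g1.mul h2')).sub (g3.const_mul s)
  refine h.congr_fderiv ?_
  rw [z1, z2]
  apply ContinuousLinearMap.ext
  intro y
  simp

theorem hfd {E F : Type} [NormedAddCommGroup E] [NormedSpace ℝ E] [NormedAddCommGroup F]
    [NormedSpace ℝ F] (L : E →L[ℝ] F) (x : E) : HasFDerivAt (fun y => L y) L x := L.hasFDerivAt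

variable {V : Type} [DecidableEq V] [Fintype V]
variable {K : Set (Finset V)} {M : Model K} {v w : V} {U : Finset V}

open Classical in
/-- coordinate functional of an edge -/
noncomputable def dX (K : Set (Finset V)) (v w : V) (A B : Finset V) : (Io K v w → ℂ) →L[ℂ] ℂ :=
  if h : Unk K v w (A, B) then ContinuousLinearMap.proj ⟨(A, B), h⟩ else 0

theorem dX_apply (A B : Finset V) (x : Io K v w → ℂ) : dX K v w A B x = ex K v w x 0 A B := by
  unfold dX ex
  split_ifs with h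
  · rfl
  · rfl

/-- first diagonal block of the derivative -/
noncomputable def Dat.L1 (D : Dat M v w U) (g : Finset (Io K v w))
    (e : (Tr M v w ⊕ g) ≃ Io K v w) (a : Io K v w → ℂ) : (Io K v w → ℂ) →L[ℂ] (Io K v w → ℂ) :=
  ContinuousLinearMap.pi fun i => match e.symm i with
    | Sum.inl t => D.XA 0 a t.1.1 t.1.2.1 • dX K v w t.1.2.1 t.1.2.2 +
        D.XA 0 a t.1.2.1 t.1.2.2 • dX K v w t.1.1 t.1.2.1 -
        (D.s t.1.1 t.1.2.1 t.1.2.2 : ℂ) • dX K v w t.1.1 t.1.2.2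
    | Sum.inr j => ContinuousLinearMap.proj j.1

/-- second diagonal block of the derivative -/
noncomputable def Dat.L2 (D : Dat M v w U) (g : Finset (Io K v w))
    (e : (Tr M v w ⊕ g) ≃ Io K v w) (a : Io K v w → ℂ) : (Io K v w → ℂ) →L[ℂ] (Io K v w → ℂ) :=
  ContinuousLinearMap.pi fun i => match e.symm i with
    | Sum.inl t => D.XA 0 a t.1.1 t.1.2.1 • dX K v w t.1.2.1 t.1.2.2 +
        (starRingEnd ℂ) (D.XA 0 a t.1.2.1 t.1.2.2) • dX K v w t.1.1 t.1.2.1 -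
        (D.s t.1.1 t.1.2.1 t.1.2.2 : ℂ) • dX K v w t.1.1 t.1.2.2
    | Sum.inr j => ContinuousLinearMap.proj j.1

theorem Dat.hasFDerivAt_XA (D : Dat M v w U) (A B : Finset V)
    (q : (Io K v w → ℂ) × (Io K v w → ℂ)) :
    HasFDerivAt (fun q : (Io K v w → ℂ) × (Io K v w → ℂ) => D.XA 0 q.1 A B)
      (((dX K v w A B).restrictScalars ℝ).comp (ContinuousLinearMap.fst ℝ _ _)) q := by
  unfold Dat.XA dX
  by_cases h : Unk K v w (A, B)
  · simp only [ex_pos _ _ h]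
    rw [dif_pos h]
    exact hfd (((ContinuousLinearMap.proj (R := ℂ) (φ := fun _ : Io K v w => ℂ)
      ⟨(A, B), h⟩).restrictScalars ℝ).comp (ContinuousLinearMap.fst ℝ (Io K v w → ℂ)
        (Io K v w → ℂ))) q
  · simp only [ex_neg _ _ h]
    rw [dif_neg h]
    have := hasFDerivAt_const (𝕜 := ℝ) (D.ka 0 A B) q
    refine this.congr_fderiv ?_
    apply ContinuousLinearMap.ext
    intro y
    simp

theorem Dat.hasFDerivAt_XB (D : Dat M v w U) (A B : Finset V)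
    (q : (Io K v w → ℂ) × (Io K v w → ℂ)) :
    HasFDerivAt (fun q : (Io K v w → ℂ) × (Io K v w → ℂ) => D.XB 0 q.2 A B)
      (((dX K v w A B).restrictScalars ℝ).comp (ContinuousLinearMap.snd ℝ _ _)) q := by
  unfold Dat.XB dX
  by_cases h : Unk K v w (A, B)
  · simp only [ex_pos _ _ h]
    rw [dif_pos h]
    exact hfd (((ContinuousLinearMap.proj (R := ℂ) (φ := fun _ : Io K v w => ℂ)
      ⟨(A, B), h⟩).restrictScalars ℝ).comp (ContinuousLinearMap.snd ℝ (Io K v w → ℂ)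
        (Io K v w → ℂ))) q
  · simp only [ex_neg _ _ h]
    rw [dif_neg h]
    have := hasFDerivAt_const (𝕜 := ℝ) (D.kb 0 A B) q
    refine this.congr_fderiv ?_
    apply ContinuousLinearMap.ext
    intro y
    simp

theorem Dat.XB_zero (D : Dat M v w U) (θ : ℝ) (hθ : Real.sin (Real.pi * θ) = 0)
    (A B : Finset V) : D.XB θ 0 A B = 0 := by
  have := D.XB_smul θ hθ 0 0 A B
  rw [zero_smul, zero_mul] at this
  exact this

theorem Dat.hL (D : Dat M v w U) (g : Finset (Io K v w))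
    (e : (Tr M v w ⊕ g) ≃ Io K v w) (a : Io K v w → ℂ) :
    HasFDerivAt (fun q : (Io K v w → ℂ) × (Io K v w → ℂ) => D.Fm g e (0, q))
      (((D.L1 g e a).prodMap (D.L2 g e a)).restrictScalars ℝ) (a, 0) := by
  have hs0 : Real.sin (Real.pi * 0) = 0 := by simp
  have hA : HasFDerivAt (fun q : (Io K v w → ℂ) × (Io K v w → ℂ) =>
      fun i => D.eqA g 0 q.1 q.2 (e.symm i))
      (((D.L1 g e a).restrictScalars ℝ).comp (ContinuousLinearMap.fst ℝ _ _)) (a, 0) := by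
    rw [hasFDerivAt_pi']
    intro i
    cases h : e.symm i with
    | inl t =>
      simp only [Dat.eqA]
      have := der1 (D.hasFDerivAt_XA t.1.1 t.1.2.1 (a, 0)) (D.hasFDerivAt_XA t.1.2.1 t.1.2.2 (a, 0))
        (D.hasFDerivAt_XA t.1.1 t.1.2.2 (a, 0)) (D.hasFDerivAt_XB t.1.1 t.1.2.1 (a, 0))
        (D.hasFDerivAt_XB t.1.2.1 t.1.2.2 (a, 0)) (D.XB_zero 0 hs0 _ _) (D.XB_zero 0 hs0 _ _)
        (D.s t.1.1 t.1.2.1 t.1.2.2 : ℂ)
      refine this.congr_fderiv ?_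
      apply ContinuousLinearMap.ext
      intro y
      simp [Dat.L1, h]
    | inr j =>
      simp only [Dat.eqA]
      have h1 : HasFDerivAt (fun q : (Io K v w → ℂ) × (Io K v w → ℂ) => q.1 j.1)
        (((ContinuousLinearMap.proj (R := ℂ) (φ := fun _ : Io K v w => ℂ) j.1).restrictScalars ℝ).comp
          (ContinuousLinearMap.fst ℝ _ _)) (a, 0) :=
        hfd (((ContinuousLinearMap.proj (R := ℂ)
          (φ := fun _ : Io K v w => ℂ) j.1).restrictScalars ℝ).comp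
          (ContinuousLinearMap.fst ℝ (Io K v w → ℂ) (Io K v w → ℂ))) (a, 0)
      have := h1.sub_const (D.ζ j.1.1.1 j.1.1.2)
      refine this.congr_fderiv ?_
      apply ContinuousLinearMap.ext
      intro y
      simp [Dat.L1, h]
  have hB : HasFDerivAt (fun q : (Io K v w → ℂ) × (Io K v w → ℂ) =>
      fun i => D.eqB g 0 q.1 q.2 (e.symm i))
      (((D.L2 g e a).restrictScalars ℝ).comp (ContinuousLinearMap.snd ℝ _ _)) (a, 0) := by
    rw [hasFDerivAt_pi']
    intro i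
    cases h : e.symm i with
    | inl t =>
      simp only [Dat.eqB]
      have := der2 (D.hasFDerivAt_XA t.1.1 t.1.2.1 (a, 0)) (D.hasFDerivAt_XA t.1.2.1 t.1.2.2 (a, 0))
        (D.hasFDerivAt_XB t.1.1 t.1.2.1 (a, 0))
        (D.hasFDerivAt_XB t.1.2.1 t.1.2.2 (a, 0)) (D.hasFDerivAt_XB t.1.1 t.1.2.2 (a, 0))
        (D.XB_zero 0 hs0 _ _) (D.XB_zero 0 hs0 _ _)
        (D.s t.1.1 t.1.2.1 t.1.2.2 : ℂ)
      refine this.congr_fderiv ?_
      apply ContinuousLinearMap.ext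
      intro y
      simp [Dat.L2, h]
    | inr j =>
      simp only [Dat.eqB]
      have h1 : HasFDerivAt (fun q : (Io K v w → ℂ) × (Io K v w → ℂ) => q.2 j.1)
        (((ContinuousLinearMap.proj (R := ℂ) (φ := fun _ : Io K v w => ℂ) j.1).restrictScalars ℝ).comp
          (ContinuousLinearMap.snd ℝ _ _)) (a, 0) :=
        hfd (((ContinuousLinearMap.proj (R := ℂ)
          (φ := fun _ : Io K v w => ℂ) j.1).restrictScalars ℝ).comp
          (ContinuousLinearMap.snd ℝ (Io K v w → ℂ) (Io K v w → ℂ))) (a, 0)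
      refine h1.congr_fderiv ?_
      apply ContinuousLinearMap.ext
      intro y
      simp [Dat.L2, h]
  exact hA.prodMk hB

end Cox957
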