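import Pool.Agent.helper957_cox.TS3

set_option autoImplicit false
set_option linter.unusedSectionVars false
open scoped ContDiff Quaternion

namespace Cox957

variable {V : Type} [DecidableEq V] [Fintype V]
variable {K : Set (Finset V)} {M : Model K} {v w : V} {U : Finset V}

/-- the parameter space -/
abbrev Sp (K : Set (Finset V)) (v w : V) : Type := ℝ × ((Io K v w → ℂ) × (Io K v w → ℂ))

/-- the quaternionic connection -/
noncomputable def Dat.Xq (D : Dat M v w U) (p : Sp K v w) (A B : Finset V) : ℍ[ℝ] :=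
  tq (D.XA p.1 p.2.1 A B) (D.XB p.1 p.2.2 A B)

theorem Dat.Xq_unk (D : Dat M v w U) (p : Sp K v w) {A B : Finset V} (h : Unk K v w (A, B)) :
    D.Xq p A B = tq (p.2.1 ⟨(A, B), h⟩) (p.2.2 ⟨(A, B), h⟩) := by
  unfold Dat.Xq Dat.XA Dat.XB
  rw [ex_pos _ _ h, ex_pos _ _ h]

theorem Dat.Xq_v (D : Dat M v w U) (p : Sp K v w) {A B : Finset V} (h : v ∈ A) :
    D.Xq p A B = tq (D.ζ A B) 0 := by
  have hn : ¬ Unk K v w (A, B) := fun hu => hu.1 h
  unfold Dat.Xq Dat.XA Dat.XB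
  rw [ex_neg _ _ hn, ex_neg _ _ hn]
  unfold Dat.ka Dat.kb
  rw [if_pos h, if_pos h]

theorem Dat.Xq_w (D : Dat M v w U) (p : Sp K v w) {A B : Finset V} (h : w ∈ A) (hAB : A ⊂ B)
    (hB : B ∈ K) : D.Xq p A B = tq (cAt p.1 (D.ζ A B)) (cBt p.1 (D.ζ A B)) := by
  by_cases hv : v ∈ A
  · rw [D.Xq_v p hv]
    have := cAB_real p.1 (D.ζ A B) (D.hreal A B hv h hAB hB)
    rw [this.1, this.2]
  · have hn : ¬ Unk K v w (A, B) := fun hu => hu.2.1 h
    unfold Dat.Xq Dat.XA Dat.XB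
    rw [ex_neg _ _ hn, ex_neg _ _ hn]
    unfold Dat.ka Dat.kb
    rw [if_neg hv, if_neg hv]

/-- zeros of the map in terms of quaternions -/
theorem Dat.zero_tri (D : Dat M v w U) (g : Finset (Io K v w))
    (e : (Tr M v w ⊕ g) ≃ Io K v w) (p : Sp K v w) (hp : D.Fm g e p = 0) (A B C : Finset V)
    (hF : M.F A B C) (hv : v ∉ A) (hw : w ∉ A) :
    D.Xq p A B * D.Xq p B C = D.s A B C • D.Xq p A C := by
  have h := (D.Fm_zero_iff g e p).mp hp (Sum.inl ⟨(A, B, C), hF, hv, hw⟩)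
  simp only [Dat.eqA, Dat.eqB] at h
  unfold Dat.Xq
  rw [tq_mul, tq_smul]
  congr 1
  · exact sub_eq_zero.mp h.1
  · exact sub_eq_zero.mp h.2

theorem Dat.zero_g (D : Dat M v w U) (g : Finset (Io K v w))
    (e : (Tr M v w ⊕ g) ≃ Io K v w) (p : Sp K v w) (hp : D.Fm g e p = 0) (i : Io K v w)
    (hi : i ∈ g) : p.2.1 i = D.ζ i.1.1 i.1.2 ∧ p.2.2 i = 0 := by
  have h := (D.Fm_zero_iff g e p).mp hp (Sum.inr ⟨i, hi⟩)
  simp only [Dat.eqA, Dat.eqB] at h
  exact ⟨sub_eq_zero.mp h.1, h.2⟩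

/-- flatness on the whole complex -/
theorem Dat.flat_all (D : Dat M v w U) (hK : IsCx K) (g : Finset (Io K v w))
    (e : (Tr M v w ⊕ g) ≃ Io K v w) (p : Sp K v w) (hp : D.Fm g e p = 0) (A B C : Finset V)
    (hF : M.F A B C) : D.Xq p A B * D.Xq p B C = D.s A B C • D.Xq p A C := by
  have hAB := M.lt1 A B C hF
  have hBC := M.lt2 A B C hF
  have hC := M.mem A B C hF
  by_cases hv : v ∈ A
  · rw [D.Xq_v p hv, D.Xq_v p hv, D.Xq_v p (hAB.1 hv), tq_mul, tq_smul, D.hs A B C hF]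
    simp
  · by_cases hw : w ∈ A
    · rw [D.Xq_w p hw hAB (hK C hC B hBC.1), D.Xq_w p (hAB.1 hw) hBC hC,
        D.Xq_w p hw (hAB.trans hBC) hC, cAB_mul, D.hs A B C hF, cAB_smul]
    · exact D.zero_tri g e p hp A B C hF hv hw

/-- injectivity hypothesis of the linear system -/
def Inj (M : Model K) (v w : V) (g : Finset (Io K v w)) : Prop :=
  ∀ x : Io K v w → ℝ, (∀ A B C, M.F A B C → v ∉ A → w ∉ A →
        ex K v w x 0 A B + ex K v w x 0 B C - ex K v w x 0 A C = 0) →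
        (∀ i ∈ g, x i = 0) → x = 0

/-- norm one -/
theorem Dat.norm_one (D : Dat M v w U) (hK : IsCx K) (g : Finset (Io K v w))
    (e : (Tr M v w ⊕ g) ≃ Io K v w) (hg : Inj M v w g) (p : Sp K v w) (hp : D.Fm g e p = 0)
    (hpos : ∀ i, 0 < ‖tq (p.2.1 i) (p.2.2 i)‖) : ∀ i, ‖tq (p.2.1 i) (p.2.2 i)‖ = 1 := by
  have hex : ∀ A B, A ⊂ B → B ∈ K →
      ex K v w (fun i => Real.log ‖tq (p.2.1 i) (p.2.2 i)‖) 0 A B = Real.log ‖D.Xq p A B‖ ∧
      0 < ‖D.Xq p A B‖ := by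
    intro A B hAB hB
    by_cases h : Unk K v w (A, B)
    · rw [ex_pos _ _ h, D.Xq_unk p h]
      exact ⟨rfl, hpos _⟩
    · rw [ex_neg _ _ h]
      by_cases hv : v ∈ A
      · rw [D.Xq_v p hv, tq_norm_left, D.hζ]
        simp
      · by_cases hw : w ∈ A
        · rw [D.Xq_w p hw hAB hB, cAB_norm _ _ (D.hζ A B)]
          simp
        · exact absurd ⟨hv, hw, hAB, hB⟩ h
  have h0 := hg (fun i => Real.log ‖tq (p.2.1 i) (p.2.2 i)‖) (by
    intro A B C hF hv hw
    have hAB := M.lt1 A B C hF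
    have hBC := M.lt2 A B C hF
    have hC := M.mem A B C hF
    have h1 := hex A B hAB (hK C hC B hBC.1)
    have h2 := hex B C hBC hC
    have h3 := hex A C (hAB.trans hBC) hC
    rw [h1.1, h2.1, h3.1, ← Real.log_mul h1.2.ne' h2.2.ne', ← norm_mul,
      D.zero_tri g e p hp A B C hF hv hw, norm_smul, Real.norm_eq_abs,
      abs_one_of_mul_self (D.hs2 A B C hF), one_mul, sub_self]) (by
    intro i hi
    have := D.zero_g g e p hp i hi
    show Real.log ‖tq (p.2.1 i) (p.2.2 i)‖ = 0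
    rw [this.1, this.2, tq_norm_left, D.hζ, Real.log_one])
  intro i
  have h1 : Real.log ‖tq (p.2.1 i) (p.2.2 i)‖ = 0 := congrFun h0 i
  have h2 := hpos i
  rcases Real.log_eq_zero.mp h1 with h | h | h
  · rw [h] at h2; exact absurd h2 (lt_irrefl _)
  · exact h
  · rw [h] at h2; norm_num at h2

/-- the extended compact set -/
def Dat.Cs (D : Dat M v w U) (g : Finset (Io K v w)) (e : (Tr M v w ⊕ g) ≃ Io K v w) :
    Set (Sp K v w × (V → Finset V → ℍ[ℝ])) :=
  {q | 0 ≤ q.1.1 ∧ q.1.1 ≤ 1 ∧ D.Fm g e q.1 = 0 ∧ (∀ i, ‖tq (q.1.2.1 i) (q.1.2.2 i)‖ = 1) ∧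
    (∀ u T, ‖q.2 u T‖ = 1) ∧ ∀ u ∈ U, ∀ A B, u ∈ A → A ⊂ B → B ∈ K →
      D.Xq q.1 A B = D.σ u A B • (star (q.2 u A) * q.2 u B)}

/-- the compact set of solutions -/
def Dat.Zs (D : Dat M v w U) (g : Finset (Io K v w)) (e : (Tr M v w ⊕ g) ≃ Io K v w) :
    Set (Sp K v w) := Prod.fst '' D.Cs g e

/-- the open set -/
def Dat.Ns (D : Dat M v w U) (ε : V → ℝ) : Set (Sp K v w) :=
  {p | (∀ i, 0 < ‖tq (p.2.1 i) (p.2.2 i)‖) ∧ ∃ H : V → Finset V → ℍ[ℝ], (∀ u T, ‖H u T‖ = 1) ∧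
    ∀ u ∈ U, ∀ A B, u ∈ A → A ⊂ B → B ∈ K →
      ‖D.Xq p A B - D.σ u A B • (star (H u A) * H u B)‖ < ε u}

theorem Dat.cont_Xq (D : Dat M v w U) (A B : Finset V) :
    Continuous (fun p : Sp K v w => D.Xq p A B) :=
  tq_continuous.comp ((D.contDiff_XA A B).continuous.prodMk (D.contDiff_XB A B).continuous)

theorem Dat.cont_ti (i : Io K v w) :
    Continuous (fun p : Sp K v w => ‖tq (p.2.1 i) (p.2.2 i)‖) := by
  have h1 : Continuous (fun p : Sp K v w => p.2.1 i) :=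
    (continuous_apply i).comp (continuous_fst.comp continuous_snd)
  have h2 : Continuous (fun p : Sp K v w => p.2.2 i) :=
    (continuous_apply i).comp (continuous_snd.comp continuous_snd)
  exact (tq_continuous.comp (h1.prodMk h2)).norm

theorem Dat.compact_Cs (D : Dat M v w U) (g : Finset (Io K v w))
    (e : (Tr M v w ⊕ g) ≃ Io K v w) : IsCompact (D.Cs g e) := by
  have : ProperSpace ℍ[ℝ] := FiniteDimensional.proper_real _
  apply Metric.isCompact_of_isClosed_isBounded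
  · unfold Dat.Cs
    refine IsClosed.inter (s₁ := {q : Sp K v w × (V → Finset V → ℍ[ℝ]) | 0 ≤ q.1.1}) ?_ ?_
    · exact isClosed_le continuous_const (continuous_fst.comp continuous_fst)
    refine IsClosed.inter (s₁ := {q : Sp K v w × (V → Finset V → ℍ[ℝ]) | q.1.1 ≤ 1}) ?_ ?_
    · exact isClosed_le (continuous_fst.comp continuous_fst) continuous_const
    refine IsClosed.inter (s₁ := {q : Sp K v w × (V → Finset V → ℍ[ℝ]) |
      D.Fm g e q.1 = 0}) ?_ ?_
    · exact isClosed_eq ((D.contDiff_Fm g e).continuous.comp continuous_fst) continuous_const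
    refine IsClosed.inter (s₁ := {q : Sp K v w × (V → Finset V → ℍ[ℝ]) |
      ∀ i, ‖tq (q.1.2.1 i) (q.1.2.2 i)‖ = 1}) ?_ ?_
    · rw [Set.ofPred_forall]
      exact isClosed_iInter fun i =>
        isClosed_eq ((Dat.cont_ti i).comp continuous_fst) continuous_const
    refine IsClosed.inter (s₁ := {q : Sp K v w × (V → Finset V → ℍ[ℝ]) |
      ∀ u T, ‖q.2 u T‖ = 1}) ?_ ?_
    · simp only [Set.ofPred_forall]
      exact isClosed_iInter fun u => isClosed_iInter fun T =>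
        isClosed_eq (((continuous_apply T).comp ((continuous_apply u).comp continuous_snd)).norm)
          continuous_const
    · change IsClosed {q : Sp K v w × (V → Finset V → ℍ[ℝ]) |
        ∀ u ∈ U, ∀ A B, u ∈ A → A ⊂ B → B ∈ K →
          D.Xq q.1 A B = D.σ u A B • (star (q.2 u A) * q.2 u B)}
      simp only [Set.ofPred_forall]
      refine isClosed_iInter fun u => isClosed_iInter fun _ => isClosed_iInter fun A =>
        isClosed_iInter fun B => isClosed_iInter fun _ => isClosed_iInter fun _ =>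
        isClosed_iInter fun _ => isClosed_eq ((D.cont_Xq A B).comp continuous_fst) ?_
      have c1 : Continuous (fun q : Sp K v w × (V → Finset V → ℍ[ℝ]) => q.2 u A) :=
        (continuous_apply A).comp ((continuous_apply u).comp continuous_snd)
      have c2 : Continuous (fun q : Sp K v w × (V → Finset V → ℍ[ℝ]) => q.2 u B) :=
        (continuous_apply B).comp ((continuous_apply u).comp continuous_snd)
      exact ((continuous_star.comp c1).mul c2).const_smul (D.σ u A B)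
  · rw [Metric.isBounded_iff_subset_closedBall 0]
    refine ⟨1, ?_⟩
    rintro ⟨⟨θ, a, b⟩, H⟩ ⟨h1, h2, h3, h4, h5, h6⟩
    rw [mem_closedBall_zero_iff]
    simp only at h1 h2 h4 h5
    have ha : ∀ i, ‖a i‖ ≤ 1 ∧ ‖b i‖ ≤ 1 := by
      intro i
      have e1 := tq_normSq (a i) (b i)
      rw [h4 i, Complex.normSq_eq_norm_sq, Complex.normSq_eq_norm_sq] at e1
      constructor
      · nlinarith [norm_nonneg (a i), sq_nonneg (‖b i‖)]
      · nlinarith [norm_nonneg (b i), sq_nonneg (‖a i‖)]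
    rw [Prod.norm_def, Prod.norm_def, Prod.norm_def]
    refine max_le (max_le ?_ (max_le ?_ ?_)) ?_
    · rw [Real.norm_eq_abs, abs_of_nonneg h1]; exact h2
    · rw [pi_norm_le_iff_of_nonneg zero_le_one]; exact fun i => (ha i).1
    · rw [pi_norm_le_iff_of_nonneg zero_le_one]; exact fun i => (ha i).2
    · rw [pi_norm_le_iff_of_nonneg zero_le_one]
      intro u
      rw [pi_norm_le_iff_of_nonneg zero_le_one]
      exact fun T => (h5 u T).le

theorem Dat.open_Ns (D : Dat M v w U) (ε : V → ℝ) : IsOpen (D.Ns ε) := by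
  unfold Dat.Ns
  refine IsOpen.inter (s := {p : Sp K v w | ∀ i, 0 < ‖tq (p.2.1 i) (p.2.2 i)‖}) ?_ ?_
  · rw [Set.ofPred_forall]
    exact isOpen_iInter_of_finite fun i => isOpen_lt continuous_const (Dat.cont_ti i)
  · have : {p : Sp K v w | ∃ H : V → Finset V → ℍ[ℝ], (∀ u T, ‖H u T‖ = 1) ∧
      ∀ u ∈ U, ∀ A B, u ∈ A → A ⊂ B → B ∈ K →
      ‖D.Xq p A B - D.σ u A B • (star (H u A) * H u B)‖ < ε u} =
      ⋃ H : {H : V → Finset V → ℍ[ℝ] // ∀ u T, ‖H u T‖ = 1}, ⋂ u : V, ⋂ _ : u ∈ U,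
        ⋂ A : Finset V, ⋂ B : Finset V, ⋂ _ : u ∈ A, ⋂ _ : A ⊂ B, ⋂ _ : B ∈ K,
        {p : Sp K v w | ‖D.Xq p A B - D.σ u A B • (star (H.1 u A) * H.1 u B)‖ < ε u} := by
      ext p
      simp only [Set.mem_ofPred_eq, Set.mem_iUnion, Set.mem_iInter]
      constructor
      · rintro ⟨H, h1, h2⟩
        exact ⟨⟨H, h1⟩, h2⟩
      · rintro ⟨⟨H, h1⟩, h2⟩
        exact ⟨H, h1, h2⟩
    change IsOpen {p : Sp K v w | ∃ H : V → Finset V → ℍ[ℝ], (∀ u T, ‖H u T‖ = 1) ∧
      ∀ u ∈ U, ∀ A B, u ∈ A → A ⊂ B → B ∈ K →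
      ‖D.Xq p A B - D.σ u A B • (star (H u A) * H u B)‖ < ε u}
    rw [this]
    refine isOpen_iUnion fun H => isOpen_iInter_of_finite fun u => isOpen_iInter_of_finite fun _ =>
      isOpen_iInter_of_finite fun A => isOpen_iInter_of_finite fun B =>
      isOpen_iInter_of_finite fun _ => isOpen_iInter_of_finite fun _ =>
      isOpen_iInter_of_finite fun _ => isOpen_lt ?_ continuous_const
    exact ((D.cont_Xq A B).sub continuous_const).norm

end Cox957
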