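import Pool.Agent.helper957_cox.TS4

set_option autoImplicit false
set_option linter.unusedSectionVars false
open scoped ContDiff Quaternion

namespace Cox957

variable {V : Type} [DecidableEq V] [Fintype V]
variable {K : Set (Finset V)} {M : Model K} {v w : V} {U : Finset V}

theorem Dat.sflat (D : Dat M v w U) (hK : IsCx K) (hU : ∀ u ∈ U, {u} ∈ K) (u : V) (hu : u ∈ U)
    (A B C : Finset V) (hF : M.F A B C) (huA : u ∈ A) :
    D.σ u A B * D.σ u B C = D.s A B C * D.σ u A C := by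
  have hAB := M.lt1 A B C hF
  have hBC := M.lt2 A B C hF
  have hC := M.mem A B C hF
  have h1 := D.hζσ u hu A B huA hAB (hK C hC B hBC.1)
  have h2 := D.hζσ u hu B C (hAB.1 huA) hBC hC
  have h3 := D.hζσ u hu A C huA (hAB.trans hBC) hC
  have h4 := D.hs A B C hF
  have hξ : ∀ T, D.ξ u T * (starRingEnd ℂ) (D.ξ u T) = 1 := by
    intro T
    rw [Complex.mul_conj, Complex.normSq_eq_norm_sq, D.hξ]
    norm_num
  rw [h1, h2, h3] at h4
  have h5 : ((D.σ u A B * D.σ u B C : ℝ) : ℂ) = ((D.s A B C * D.σ u A C : ℝ) : ℂ) := by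
    push_cast
    have e1 : ((D.σ u A B : ℂ)) * (D.σ u B C : ℂ) * ((starRingEnd ℂ) (D.ξ u A) * D.ξ u C) =
        (D.s A B C : ℂ) * (D.σ u A C : ℂ) * ((starRingEnd ℂ) (D.ξ u A) * D.ξ u C) := by
      linear_combination h4 - (D.σ u A B : ℂ) * (D.σ u B C : ℂ) *
        ((starRingEnd ℂ) (D.ξ u A) * D.ξ u C) * (hξ B)
    have hne : (starRingEnd ℂ) (D.ξ u A) * D.ξ u C ≠ 0 := by
      intro h0
      have e2 : (D.ξ u A * (starRingEnd ℂ) (D.ξ u A)) * (D.ξ u C * (starRingEnd ℂ) (D.ξ u C)) = 0 := by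
        linear_combination (D.ξ u A * (starRingEnd ℂ) (D.ξ u C)) * h0
      rw [hξ, hξ] at e2
      norm_num at e2
    exact mul_right_cancel₀ hne e1
  exact_mod_cast h5

theorem Dat.Xq_norm (D : Dat M v w U) (p : Sp K v w)
    (h : ∀ i, ‖tq (p.2.1 i) (p.2.2 i)‖ = 1) (A B : Finset V) (hAB : A ⊂ B) (hB : B ∈ K) :
    ‖D.Xq p A B‖ = 1 := by
  by_cases hu : Unk K v w (A, B)
  · rw [D.Xq_unk p hu]; exact h _
  · by_cases hv : v ∈ A
    · rw [D.Xq_v p hv, tq_norm_left, D.hζ]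
    · by_cases hw : w ∈ A
      · rw [D.Xq_w p hw hAB hB, cAB_norm _ _ (D.hζ A B)]
      · exact absurd ⟨hv, hw, hAB, hB⟩ hu

/-- choice of the radii -/
theorem exists_eps (hK : IsCx K) (M : Model K) (U : Finset V) (hU : ∀ u ∈ U, {u} ∈ K) :
    ∃ ε : V → ℝ, (∀ u, 0 < ε u) ∧ ∀ u ∈ U,
      ∀ (X : Finset V → Finset V → ℍ[ℝ]) (σ : Finset V → Finset V → ℝ)
      (s : Finset V → Finset V → Finset V → ℝ) (h : Finset V → ℍ[ℝ]),
      (∀ A B, {u} ⊆ A → A ⊂ B → B ∈ K → ‖X A B‖ = 1) →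
      (∀ A B, {u} ⊆ A → A ⊂ B → B ∈ K → σ A B * σ A B = 1) →
      (∀ T, ‖h T‖ = 1) →
      (∀ A B D, M.F A B D → {u} ⊆ A → X A B * X B D = s A B D • X A D) →
      (∀ A B D, M.F A B D → {u} ⊆ A → σ A B * σ B D = s A B D * σ A D) →
      (∀ A B, {u} ⊆ A → A ⊂ B → B ∈ K → ‖X A B - σ A B • (star (h A) * h B)‖ < ε u) →
      ∃ h' : Finset V → ℍ[ℝ], (∀ T, ‖h' T‖ = 1) ∧
        ∀ A B, {u} ⊆ A → A ⊂ B → B ∈ K → X A B = σ A B • (star (h' A) * h' B) := by
  classical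
  have h : ∀ u : V, ∃ ε : ℝ, 0 < ε ∧ (u ∈ U →
      ∀ (X : Finset V → Finset V → ℍ[ℝ]) (σ : Finset V → Finset V → ℝ)
      (s : Finset V → Finset V → Finset V → ℝ) (h : Finset V → ℍ[ℝ]),
      (∀ A B, {u} ⊆ A → A ⊂ B → B ∈ K → ‖X A B‖ = 1) →
      (∀ A B, {u} ⊆ A → A ⊂ B → B ∈ K → σ A B * σ A B = 1) →
      (∀ T, ‖h T‖ = 1) →
      (∀ A B D, M.F A B D → {u} ⊆ A → X A B * X B D = s A B D • X A D) →
      (∀ A B D, M.F A B D → {u} ⊆ A → σ A B * σ B D = s A B D * σ A D) →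
      (∀ A B, {u} ⊆ A → A ⊂ B → B ∈ K → ‖X A B - σ A B • (star (h A) * h B)‖ < ε) →
      ∃ h' : Finset V → ℍ[ℝ], (∀ T, ‖h' T‖ = 1) ∧
        ∀ A B, {u} ⊆ A → A ⊂ B → B ∈ K → X A B = σ A B • (star (h' A) * h' B)) := by
    intro u
    by_cases hu : u ∈ U
    · obtain ⟨ε, h1, h2⟩ := RG hK M {u} (hU u hu)
      exact ⟨ε, h1, fun _ => h2⟩
    · exact ⟨1, one_pos, fun h => absurd h hu⟩
  choose ε h1 h2 using h
  exact ⟨ε, h1, h2⟩

theorem Dat.hz (D : Dat M v w U) (hK : IsCx K) (hU : ∀ u ∈ U, {u} ∈ K)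
    (g : Finset (Io K v w)) (e : (Tr M v w ⊕ g) ≃ Io K v w) (hg : Inj M v w g)
    (ε : V → ℝ) (hε : ∀ u ∈ U,
      ∀ (X : Finset V → Finset V → ℍ[ℝ]) (σ : Finset V → Finset V → ℝ)
      (s : Finset V → Finset V → Finset V → ℝ) (h : Finset V → ℍ[ℝ]),
      (∀ A B, {u} ⊆ A → A ⊂ B → B ∈ K → ‖X A B‖ = 1) →
      (∀ A B, {u} ⊆ A → A ⊂ B → B ∈ K → σ A B * σ A B = 1) →
      (∀ T, ‖h T‖ = 1) →
      (∀ A B D, M.F A B D → {u} ⊆ A → X A B * X B D = s A B D • X A D) →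
      (∀ A B D, M.F A B D → {u} ⊆ A → σ A B * σ B D = s A B D * σ A D) →
      (∀ A B, {u} ⊆ A → A ⊂ B → B ∈ K → ‖X A B - σ A B • (star (h A) * h B)‖ < ε u) →
      ∃ h' : Finset V → ℍ[ℝ], (∀ T, ‖h' T‖ = 1) ∧
        ∀ A B, {u} ⊆ A → A ⊂ B → B ∈ K → X A B = σ A B • (star (h' A) * h' B)) :
    ∀ p ∈ D.Ns ε, 0 ≤ p.1 → p.1 ≤ 1 → D.Fm g e p = 0 → p ∈ D.Zs g e := by
  classical
  rintro p ⟨hpos, H, hH1, hH2⟩ h0 h1 hp
  have hn := D.norm_one hK g e hg p hp hpos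
  have hsub : ∀ {u : V} {A : Finset V}, {u} ⊆ A → u ∈ A := fun h => by
    simpa using h
  have key : ∀ u : V, ∃ h' : Finset V → ℍ[ℝ], (∀ T, ‖h' T‖ = 1) ∧ (u ∈ U →
      ∀ A B, {u} ⊆ A → A ⊂ B → B ∈ K → D.Xq p A B = D.σ u A B • (star (h' A) * h' B)) := by
    intro u
    by_cases hu : u ∈ U
    · obtain ⟨h', e1, e2⟩ := hε u hu (D.Xq p) (D.σ u) D.s (H u)
        (fun A B _ hAB hB => D.Xq_norm p hn A B hAB hB)
        (fun A B hA hAB hB => D.hσ u hu A B (hsub hA) hAB hB) (hH1 u)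
        (fun A B C hF _ => D.flat_all hK g e p hp A B C hF)
        (fun A B C hF hA => D.sflat hK hU u hu A B C hF (hsub hA))
        (fun A B hA hAB hB => hH2 u hu A B (hsub hA) hAB hB)
      exact ⟨h', e1, fun _ => e2⟩
    · exact ⟨fun _ => 1, fun _ => by simp, fun h => absurd h hu⟩
  choose H' e1 e2 using key
  refine ⟨(p, H'), ⟨h0, h1, hp, hn, e1, ?_⟩, rfl⟩
  intro u hu A B hA hAB hB
  exact e2 u hu A B (by simpa using hA) hAB hB

theorem Dat.Zs_sub_Ns (D : Dat M v w U) (g : Finset (Io K v w))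
    (e : (Tr M v w ⊕ g) ≃ Io K v w) (ε : V → ℝ) (hε : ∀ u, 0 < ε u) :
    D.Zs g e ⊆ D.Ns ε := by
  rintro p ⟨⟨p', H⟩, ⟨h1, h2, h3, h4, h5, h6⟩, rfl⟩
  refine ⟨fun i => ?_, H, h5, fun u hu A B hA hAB hB => ?_⟩
  · have : ‖tq (p'.2.1 i) (p'.2.2 i)‖ = 1 := h4 i
    show 0 < ‖tq (p'.2.1 i) (p'.2.2 i)‖
    rw [this]; exact one_pos
  · have : D.Xq p' A B = D.σ u A B • (star (H u A) * H u B) := h6 u hu A B hA hAB hB
    show ‖D.Xq p' A B - _‖ < ε u
    rw [this, sub_self, norm_zero]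
    exact hε u

theorem Dat.start (D : Dat M v w U) (g : Finset (Io K v w))
    (e : (Tr M v w ⊕ g) ≃ Io K v w) :
    ((0 : ℝ), ((fun i => D.ζ i.1.1 i.1.2 : Io K v w → ℂ), (0 : Io K v w → ℂ))) ∈ D.Zs g e := by
  set p : Sp K v w := ((0 : ℝ), ((fun i => D.ζ i.1.1 i.1.2 : Io K v w → ℂ),
    (0 : Io K v w → ℂ))) with hp
  have hXA : ∀ A B, D.XA 0 (fun i => D.ζ i.1.1 i.1.2) A B = D.ζ A B := by
    intro A B
    unfold Dat.XA
    by_cases h : Unk K v w (A, B)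
    · rw [ex_pos _ _ h]
    · rw [ex_neg _ _ h]
      unfold Dat.ka
      split_ifs
      · rfl
      · apply Complex.ext
        · rw [cAt_re]
        · rw [cAt_im]; simp
  have hXB : ∀ A B, D.XB 0 (0 : Io K v w → ℂ) A B = 0 := D.XB_zero 0 (by simp)
  have hX : ∀ A B, D.Xq p A B = tq (D.ζ A B) 0 := by
    intro A B
    show tq (D.XA 0 (fun i => D.ζ i.1.1 i.1.2) A B) (D.XB 0 (0 : Io K v w → ℂ) A B) = _
    rw [hXA, hXB]
  refine ⟨(p, fun u T => tq (D.ξ u T) 0), ⟨le_refl _, zero_le_one, ?_, ?_, ?_, ?_⟩, rfl⟩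
  · rw [D.Fm_zero_iff]
    intro r
    show D.eqA g 0 (fun i => D.ζ i.1.1 i.1.2) 0 r = 0 ∧ D.eqB g 0 (fun i => D.ζ i.1.1 i.1.2) 0 r = 0
    cases r with
    | inl t =>
      simp only [Dat.eqA, Dat.eqB, hXA, hXB]
      rw [D.hs _ _ _ t.2.1]
      simp
    | inr j => simp [Dat.eqA, Dat.eqB]
  · intro i
    show ‖tq (D.ζ i.1.1 i.1.2) 0‖ = 1
    rw [tq_norm_left, D.hζ]
  · intro u T
    show ‖tq (D.ξ u T) 0‖ = 1
    rw [tq_norm_left, D.hξ]
  · intro u hu A B hA hAB hB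
    show D.Xq p A B = D.σ u A B • (star (tq (D.ξ u A) 0) * tq (D.ξ u B) 0)
    rw [hX, tq_star, tq_mul, tq_smul, D.hζσ u hu A B hA hAB hB]
    simp

theorem Dat.injL1 (D : Dat M v w U) (g : Finset (Io K v w))
    (e : (Tr M v w ⊕ g) ≃ Io K v w) (hg : Inj M v w g) (hK : IsCx K) (a : Io K v w → ℂ)
    (ha : ((0 : ℝ), (a, (0 : Io K v w → ℂ))) ∈ D.Zs g e) : Function.Injective (D.L1 g e a) := by
  obtain ⟨⟨p', H⟩, ⟨h1, h2, h3, h4, h5, h6⟩, hpe⟩ := ha
  simp only at hpe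
  subst hpe
  simp only at h1 h2 h3 h4 h5 h6
  have hn : ∀ A B, A ⊂ B → B ∈ K → D.XA 0 a A B ≠ 0 := by
    intro A B hAB hB h0
    have := D.Xq_norm ((0 : ℝ), (a, (0 : Io K v w → ℂ))) h4 A B hAB hB
    unfold Dat.Xq at this
    simp only at this
    rw [h0, D.XB_zero 0 (by simp), tq_zero, norm_zero] at this
    exact zero_ne_one this
  have heqA : ∀ A B C, M.F A B C → v ∉ A → w ∉ A →
      D.XA 0 a A B * D.XA 0 a B C = D.s A B C * D.XA 0 a A C := by
    intro A B C hF hv hw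
    have := (D.Fm_zero_iff g e _).mp h3 (Sum.inl ⟨(A, B, C), hF, hv, hw⟩)
    have h := this.1
    simp only [Dat.eqA] at h
    rw [D.XB_zero 0 (by simp), zero_mul, sub_zero] at h
    exact sub_eq_zero.mp h
  intro x y hxy
  rw [← sub_eq_zero]
  have hz : D.L1 g e a (x - y) = 0 := by rw [map_sub, hxy, sub_self]
  generalize x - y = x at hz
  have hinl : ∀ A B C, M.F A B C → v ∉ A → w ∉ A →
      D.XA 0 a A B * ex K v w x 0 B C + D.XA 0 a B C * ex K v w x 0 A B -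
        D.s A B C * ex K v w x 0 A C = 0 := by
    intro A B C hF hv hw
    have h := congrFun hz (e (Sum.inl ⟨(A, B, C), hF, hv, hw⟩))
    simp only [Dat.L1, ContinuousLinearMap.coe_pi', Equiv.symm_apply_apply] at h
    simpa [dX_apply] using h
  have hinr : ∀ i ∈ g, x i = 0 := by
    intro i hi
    have h := congrFun hz (e (Sum.inr ⟨i, hi⟩))
    simp only [Dat.L1, ContinuousLinearMap.coe_pi', Equiv.symm_apply_apply] at h
    simpa using h
  have hexy : ∀ A B, A ⊂ B → B ∈ K → ex K v w (fun i => x i / a i) 0 A B * D.XA 0 a A B =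
      ex K v w x 0 A B := by
    intro A B hAB hB
    by_cases h : Unk K v w (A, B)
    · have h7 := hn A B hAB hB
      unfold Dat.XA at h7 ⊢
      rw [ex_pos _ _ h] at h7
      rw [ex_pos _ _ h, ex_pos _ _ h, ex_pos _ _ h]
      exact div_mul_cancel₀ _ h7
    · rw [ex_neg _ _ h, ex_neg _ _ h]
      simp
  have hlin : ∀ A B C, M.F A B C → v ∉ A → w ∉ A →
      ex K v w (fun i => x i / a i) 0 A B + ex K v w (fun i => x i / a i) 0 B C -
        ex K v w (fun i => x i / a i) 0 A C = 0 := by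
    intro A B C hF hv hw
    have hAB := M.lt1 A B C hF
    have hBC := M.lt2 A B C hF
    have hC := M.mem A B C hF
    have e1 := hinl A B C hF hv hw
    rw [← hexy A B hAB (hK C hC B hBC.1), ← hexy B C hBC hC, ← hexy A C (hAB.trans hBC) hC] at e1
    have e2 := heqA A B C hF hv hw
    have e3 : (D.XA 0 a A B * D.XA 0 a B C) *
      (ex K v w (fun i => x i / a i) 0 A B + ex K v w (fun i => x i / a i) 0 B C -
        ex K v w (fun i => x i / a i) 0 A C) = 0 := by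
      linear_combination e1 - (ex K v w (fun i => x i / a i) 0 A C) * e2
    rcases mul_eq_zero.mp e3 with h | h
    · exact absurd h (mul_ne_zero (hn A B hAB (hK C hC B hBC.1)) (hn B C hBC hC))
    · exact h
  have hre : ∀ A B, ex K v w (fun i => (x i / a i).re) 0 A B =
      (ex K v w (fun i => x i / a i) 0 A B).re := by
    intro A B
    unfold ex
    split_ifs <;> rfl
  have him : ∀ A B, ex K v w (fun i => (x i / a i).im) 0 A B =
      (ex K v w (fun i => x i / a i) 0 A B).im := by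
    intro A B
    unfold ex
    split_ifs <;> rfl
  have r1 := hg (fun i => (x i / a i).re) (by
    intro A B C hF hv hw
    rw [hre, hre, hre]
    have := congrArg Complex.re (hlin A B C hF hv hw)
    simpa using this) (by
    intro i hi
    show (x i / a i).re = 0
    rw [hinr i hi]; simp)
  have r2 := hg (fun i => (x i / a i).im) (by
    intro A B C hF hv hw
    rw [him, him, him]
    have := congrArg Complex.im (hlin A B C hF hv hw)
    simpa using this) (by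
    intro i hi
    show (x i / a i).im = 0
    rw [hinr i hi]; simp)
  funext i
  have h8 : x i / a i = 0 := Complex.ext (congrFun r1 i) (congrFun r2 i)
  have h9 : a i ≠ 0 := by
    have h10 : ‖tq (a i) 0‖ = 1 := h4 i
    rw [tq_norm_left] at h10
    intro h0
    rw [h0, norm_zero] at h10
    exact zero_ne_one h10
  rcases div_eq_zero_iff.mp h8 with h | h
  · exact h
  · exact absurd h h9

end Cox957
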