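import Pool.Agent.helper957_cox.TS5
import Pool.Agent.helper957_cox.AL

set_option autoImplicit false
set_option linter.unusedSectionVars false
open scoped ContDiff Quaternion

namespace Cox957

variable {V : Type} [DecidableEq V] [Fintype V]
variable {K : Set (Finset V)} {M : Model K} {v w : V} {U : Finset V}

theorem Dat.contDiff_L2 (D : Dat M v w U) (g : Finset (Io K v w))
    (e : (Tr M v w ⊕ g) ≃ Io K v w) :
    ContDiff ℝ ∞ (fun q : (Io K v w → ℂ) × (Io K v w → ℂ) => D.L2 g e q.1 q.2) := by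
  have hXA : ∀ A B, ContDiff ℝ ∞ (fun q : (Io K v w → ℂ) × (Io K v w → ℂ) => D.XA 0 q.1 A B) := by
    intro A B
    have h1 : ContDiff ℝ ∞ (fun q : (Io K v w → ℂ) × (Io K v w → ℂ) =>
        (((0 : ℝ), q) : ℝ × ((Io K v w → ℂ) × (Io K v w → ℂ)))) :=
      ContDiff.prodMk contDiff_const contDiff_id
    have h2 := (D.contDiff_XA A B).comp h1
    exact h2
  have hd : ∀ A B, ContDiff ℝ ∞ (fun q : (Io K v w → ℂ) × (Io K v w → ℂ) => dX K v w A B q.2) := by
    intro A B
    have h1 : ContDiff ℝ ∞ (fun x : Io K v w → ℂ => dX K v w A B x) :=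
      ((dX K v w A B).restrictScalars ℝ).contDiff
    exact ContDiff.comp h1 contDiff_snd
  have hconj : ∀ {f : (Io K v w → ℂ) × (Io K v w → ℂ) → ℂ}, ContDiff ℝ ∞ f →
      ContDiff ℝ ∞ (fun p => (starRingEnd ℂ) (f p)) := fun hf =>
    Complex.conjCLE.contDiff.comp hf
  rw [contDiff_pi]
  intro i
  unfold Dat.L2
  cases h : e.symm i with
  | inl t =>
    simp only [ContinuousLinearMap.coe_pi', h, _root_.sub_apply,
      _root_.add_apply, _root_.smul_apply, smul_eq_mul]
    exact (((hXA _ _).mul (hd _ _)).add ((hconj (hXA _ _)).mul (hd _ _))).sub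
      (contDiff_const.mul (hd _ _))
  | inr j =>
    simp only [ContinuousLinearMap.coe_pi', h, ContinuousLinearMap.proj_apply]
    exact (contDiff_apply ℝ ℂ j.1).comp contDiff_snd

/-- the solution at the other end -/
theorem Dat.core (D : Dat M v w U) (hK : IsCx K) (hU : ∀ u ∈ U, {u} ∈ K)
    (REL : ∀ c : Finset V → Finset V → Finset V → ℝ,
      ∃ φ : Finset V → Finset V → ℝ, (∀ A B, v ∈ A ∨ w ∈ A → φ A B = 0) ∧
      ∀ A B C, M.F A B C → v ∉ A → w ∉ A → φ A B + φ B C - φ A C = c A B C) :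
    ∃ η : Finset V → Finset V → ℂ, (∀ A B, A ⊂ B → B ∈ K → ‖η A B‖ = 1) ∧
      (∀ A B C, M.F A B C → η A B * η B C = D.s A B C * η A C) ∧
      (∀ A B, v ∈ A → A ⊂ B → B ∈ K → η A B = D.ζ A B) ∧
      (∀ A B, w ∈ A → A ⊂ B → B ∈ K → η A B = (starRingEnd ℂ) (D.ζ A B)) ∧
      ∀ u ∈ U, ∃ r : Finset V → ℂ, (∀ T, {u} ⊂ T → T ∈ K → ‖r T‖ = 1) ∧ ‖r {u}‖ = 1 ∧
        ∀ A B, u ∈ A → A ⊂ B → B ∈ K → η A B = D.σ u A B * ((starRingEnd ℂ) (r A) * r B) := by
  classical
  obtain ⟨g, e, hg⟩ := SYS hK M v w REL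
  obtain ⟨ε, hε, hε2⟩ := exists_eps hK M U hU
  obtain ⟨a, ha⟩ := AL (D.Fm g e) (D.contDiff_Fm g e) (D.Zs g e) (D.Ns ε)
    ((D.compact_Cs g e).image continuous_fst) (D.open_Ns ε) (D.Zs_sub_Ns g e ε hε)
    (by
      rintro p ⟨q, hq, rfl⟩
      exact hq.2.2.1)
    (D.hz hK hU g e hg ε hε2)
    (fun s hs a b => D.Fm_equiv g e 0 (by simp) s hs a b)
    (fun s hs a b => D.Fm_equiv g e 1 (by simp) s hs a b)
    (D.L1 g e) (D.L2 g e) (D.hL g e) (D.contDiff_L2 g e)
    (fun a ha => D.injL1 g e hg hK a ha) ⟨_, D.start g e⟩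
  obtain ⟨⟨p', H⟩, ⟨h1, h2, h3, h4, h5, h6⟩, hpe⟩ := ha
  simp only at hpe
  subst hpe
  simp only at h1 h2 h3 h4 h5 h6
  have hXB : ∀ A B, D.XB 1 (0 : Io K v w → ℂ) A B = 0 := D.XB_zero 1 (by simp)
  have hX : ∀ A B, D.Xq ((1 : ℝ), (a, (0 : Io K v w → ℂ))) A B = tq (D.XA 1 a A B) 0 := by
    intro A B
    show tq (D.XA 1 a A B) (D.XB 1 (0 : Io K v w → ℂ) A B) = _
    rw [hXB]
  have hnorm : ∀ A B, A ⊂ B → B ∈ K → ‖D.XA 1 a A B‖ = 1 := by
    intro A B hAB hB
    have := D.Xq_norm ((1 : ℝ), (a, (0 : Io K v w → ℂ))) h4 A B hAB hB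
    rw [hX, tq_norm_left] at this
    exact this
  refine ⟨D.XA 1 a, hnorm, ?_, ?_, ?_, ?_⟩
  · intro A B C hF
    have := D.flat_all hK g e _ h3 A B C hF
    rw [hX, hX, hX, tq_mul, tq_smul] at this
    have h := (tq_inj this).1
    simpa using h
  · intro A B hv hAB hB
    have := D.Xq_v ((1 : ℝ), (a, (0 : Io K v w → ℂ))) (B := B) hv
    rw [hX] at this
    exact (tq_inj this).1
  · intro A B hw hAB hB
    have := D.Xq_w ((1 : ℝ), (a, (0 : Io K v w → ℂ))) hw hAB hB
    rw [hX] at this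
    rw [(tq_inj this).1]
    apply Complex.ext
    · rw [cAt_re, Complex.conj_re]
    · rw [cAt_im, Complex.conj_im]; simp
  · intro u hu
    have h7 := h6 u hu
    have hn5 := h5 u
    refine ⟨fun T => if T = {u} then 1 else D.σ u {u} T * D.XA 1 a {u} T, ?_, by simp, ?_⟩
    · intro T hT hTK
      have hne : T ≠ {u} := fun h => (h ▸ hT).2 (Finset.Subset.refl _)
      simp only [if_neg hne]
      rw [norm_mul, hnorm _ _ hT hTK, mul_one, Complex.norm_real, Real.norm_eq_abs,
        abs_one_of_mul_self (D.hσ u hu {u} T (Finset.mem_singleton_self u) hT hTK)]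
    · intro A B hA hAB hB
      -- the quaternions `q T = star (H {u}) * H T` are complex
      have hq : ∀ T, u ∈ T → T ∈ K → star (H u {u}) * H u T =
          tq (if T = {u} then 1 else D.σ u {u} T * D.XA 1 a {u} T) 0 := by
        intro T hT hTK
        by_cases hTu : T = {u}
        · rw [if_pos hTu, hTu, unit_star_mul (hn5 {u})]
          apply Quaternion.ext <;> simp
        · rw [if_neg hTu]
          have hss : {u} ⊂ T := lt_of_le_of_ne (by simpa using hT) (Ne.symm hTu)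
          have h8 := h7 {u} T (Finset.mem_singleton_self u) hss hTK
          rw [hX] at h8
          have h9 : (D.σ u {u} T) • tq (D.XA 1 a {u} T) 0 = star (H u {u}) * H u T := by
            rw [h8, smul_smul, D.hσ u hu {u} T (Finset.mem_singleton_self u) hss hTK, one_smul]
          rw [← h9, tq_smul]
          simp
      have hAK : A ∈ K := hK B hB A hAB.1
      have h8 := h7 A B hA hAB hB
      have h9 : star (H u A) * H u B = star (star (H u {u}) * H u A) * (star (H u {u}) * H u B) := by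
        rw [star_mul, star_star]
        calc star (H u A) * H u B = star (H u A) * (H u {u} * star (H u {u})) * H u B := by
              rw [unit_mul_star (hn5 {u}), mul_one]
          _ = star (H u A) * H u {u} * (star (H u {u}) * H u B) := by noncomm_ring
      rw [hX, h9, hq A hA hAK, hq B (hAB.1 hA) hB, tq_star, tq_mul, tq_smul] at h8
      have h10 := (tq_inj h8).1
      simpa using h10

end Cox957
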