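import Pool.Agent.helper957_cox.TS6
import Pool.Agent.helper957_cox.Rel

set_option autoImplicit false
set_option linter.unusedSectionVars false
open scoped ContDiff Quaternion

namespace Cox957

/-- `exp (π i x)` -/
noncomputable def E1 (x : ℝ) : ℂ := Complex.exp ((Real.pi * x : ℝ) * Complex.I)

theorem E1_norm (x : ℝ) : ‖E1 x‖ = 1 := Complex.norm_exp_ofReal_mul_I _

theorem E1_add (x y : ℝ) : E1 (x + y) = E1 x * E1 y := by
  unfold E1
  rw [← Complex.exp_add]
  congr 1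
  push_cast
  ring

theorem E1_neg (x : ℝ) : E1 (-x) = (starRingEnd ℂ) (E1 x) := by
  unfold E1
  rw [← Complex.exp_conj]
  congr 1
  simp

/-- for integers -/
theorem E1_int {x : ℝ} (h : IsInt x) : E1 x = ((Real.cos (Real.pi * x) : ℝ) : ℂ) ∧
    Real.cos (Real.pi * x) * Real.cos (Real.pi * x) = 1 := by
  obtain ⟨n, rfl⟩ := h
  have hs : Real.sin (Real.pi * n) = 0 := by
    rw [mul_comm]; exact Real.sin_int_mul_pi n
  have hc : Real.cos (Real.pi * n) * Real.cos (Real.pi * n) = 1 := by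
    have := Real.sin_sq_add_cos_sq (Real.pi * n)
    rw [hs] at this
    nlinarith
  refine ⟨?_, hc⟩
  unfold E1
  apply Complex.ext
  · rw [Complex.exp_ofReal_mul_I_re, Complex.ofReal_re]
  · rw [Complex.exp_ofReal_mul_I_im, Complex.ofReal_im, hs]

theorem E1_two_int {x : ℝ} (h : E1 (2 * x) = 1) : IsInt x := by
  unfold E1 at h
  rw [Complex.exp_eq_one_iff] at h
  obtain ⟨n, hn⟩ := h
  refine ⟨n, ?_⟩
  have h1 := congrArg Complex.im hn
  simp at h1
  have hpi := Real.pi_pos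
  have h2 : Real.pi * (2 * (x - n)) = 0 := by linarith
  rcases mul_eq_zero.mp h2 with h3 | h3
  · exact absurd h3 hpi.ne'
  · linarith

/-- the angle in turns -/
noncomputable def ang (z : ℂ) : ℝ := Complex.arg z / (2 * Real.pi)

theorem E1_ang {z : ℂ} (h : ‖z‖ = 1) : E1 (2 * ang z) = z := by
  unfold E1 ang
  have hpi := Real.pi_ne_zero
  have h1 : Real.pi * (2 * (Complex.arg z / (2 * Real.pi))) = Complex.arg z := by
    field_simp
  rw [h1]
  have := Complex.norm_mul_exp_arg_mul_I z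
  rw [h] at this
  simpa using this

variable {V : Type} [DecidableEq V] [Fintype V]

theorem IsInt.neg {x : ℝ} (h : IsInt x) : IsInt (-x) := by
  obtain ⟨n, rfl⟩ := h
  exact ⟨-n, by push_cast; ring⟩

theorem IsInt.add {x y : ℝ} (h : IsInt x) (h' : IsInt y) : IsInt (x + y) := by
  obtain ⟨n, rfl⟩ := h
  obtain ⟨m, rfl⟩ := h'
  exact ⟨n + m, by push_cast; ring⟩

theorem IsInt.sub {x y : ℝ} (h : IsInt x) (h' : IsInt y) : IsInt (x - y) := by
  obtain ⟨n, rfl⟩ := h
  obtain ⟨m, rfl⟩ := h'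
  exact ⟨n - m, by push_cast; ring⟩

/-- TS: the main step. -/
theorem TS {K : Set (Finset V)} (hK : IsCx K) (M : Model K) (v w : V)
    (hv : {v} ∈ K) (hw : {w} ∈ K) (U : Finset V) (hU : ∀ u ∈ U, {u} ∈ K)
    (χ : Finset V → Finset V → ℝ) (hχ : Flat M χ) (hχU : ∀ u ∈ U, Triv K {u} χ)
    (hχvw : Triv K {v, w} χ) :
    ∃ ψ : Finset V → Finset V → ℝ, Flat M ψ ∧ (∀ u ∈ U, Triv K {u} ψ) ∧
      Triv K {w} ψ ∧ Triv K {v} (fun A B => ψ A B - χ A B) := by
  classical
  obtain ⟨l0, hl0⟩ := hχvw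
  let lh : Finset V → ℝ := fun T => if v ∈ T ∧ w ∈ T then l0 T else 0
  let χ1 : Finset V → Finset V → ℝ := fun A B => χ A B - (lh B - lh A)
  have hint : ∀ A B, v ∈ A → w ∈ A → A ⊂ B → B ∈ K → IsInt (χ1 A B) := by
    intro A B h1 h2 hAB hB
    have e1 : lh A = l0 A := by simp only [lh]; rw [if_pos ⟨h1, h2⟩]
    have e2 : lh B = l0 B := by simp only [lh]; rw [if_pos ⟨hAB.1 h1, hAB.1 h2⟩]
    simp only [χ1]
    rw [e1, e2]
    refine hl0 A B ?_ hAB hB
    intro x hx
    simp only [Finset.mem_insert, Finset.mem_singleton] at hx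
    rcases hx with rfl | rfl
    · exact h1
    · exact h2
  have hfl : ∀ A B C, M.F A B C → IsInt (χ1 A B + χ1 B C - χ1 A C) := by
    intro A B C hF
    have := hχ A B C hF
    have e : χ1 A B + χ1 B C - χ1 A C = χ A B + χ B C - χ A C := by simp only [χ1]; ring
    rw [e]; exact this
  have hU2 : ∀ u ∈ U, ∃ l : Finset V → ℝ, ∀ A B, u ∈ A → A ⊂ B → B ∈ K →
      IsInt (χ1 A B - (l B - l A)) := by
    intro u hu
    obtain ⟨l, hl⟩ := hχU u hu
    refine ⟨fun T => l T - lh T, fun A B hA hAB hB => ?_⟩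
    have := hl A B (by simpa using hA) hAB hB
    have e : χ1 A B - (l B - lh B - (l A - lh A)) = χ A B - (l B - l A) := by
      simp only [χ1]; ring
    rw [e]; exact this
  have hU3 : ∀ u : V, ∃ l : Finset V → ℝ, u ∈ U → ∀ A B, u ∈ A → A ⊂ B → B ∈ K →
      IsInt (χ1 A B - (l B - l A)) := by
    intro u
    by_cases hu : u ∈ U
    · obtain ⟨l, hl⟩ := hU2 u hu
      exact ⟨l, fun _ => hl⟩
    · exact ⟨0, fun h => absurd h hu⟩
  choose lu hlu using hU3
  let D : Dat M v w U :=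
    { ζ := fun A B => E1 (χ1 A B)
      s := fun A B C => Real.cos (Real.pi * (χ1 A B + χ1 B C - χ1 A C))
      σ := fun u A B => Real.cos (Real.pi * (χ1 A B - (lu u B - lu u A)))
      ξ := fun u T => E1 (lu u T)
      hζ := fun A B => E1_norm _
      hreal := by
        intro A B h1 h2 hAB hB
        rw [(E1_int (hint A B h1 h2 hAB hB)).1]
        exact Complex.ofReal_im _
      hs := by
        intro A B C hF
        rw [← (E1_int (hfl A B C hF)).1, ← E1_add, ← E1_add]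
        congr 1
        ring
      hs2 := fun A B C hF => (E1_int (hfl A B C hF)).2
      hσ := fun u hu A B hA hAB hB => (E1_int (hlu u hu A B hA hAB hB)).2
      hξ := fun u T => E1_norm _
      hζσ := by
        intro u hu A B hA hAB hB
        rw [← (E1_int (hlu u hu A B hA hAB hB)).1, ← E1_neg, ← E1_add, ← E1_add]
        congr 1
        ring }
  obtain ⟨η, hη1, hη2, hη3, hη4, hη5⟩ := D.core hK hU (REL hK M v w hv hw)
  have hζ1 : ∀ A B, ‖D.ζ A B‖ = 1 := D.hζ
  let ψ : Finset V → Finset V → ℝ := fun A B => ang (D.ζ A B * η A B)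
  have hψ : ∀ A B, A ⊂ B → B ∈ K → E1 (2 * ψ A B) = D.ζ A B * η A B := by
    intro A B hAB hB
    apply E1_ang
    rw [norm_mul, hζ1, hη1 A B hAB hB, one_mul]
  have hcc : ∀ z : ℂ, ‖z‖ = 1 → z * (starRingEnd ℂ) z = 1 := by
    intro z hz
    rw [Complex.mul_conj, Complex.normSq_eq_norm_sq, hz]
    norm_num
  refine ⟨ψ, ?_, ?_, ?_, ?_⟩
  · intro A B C hF
    have hAB := M.lt1 A B C hF
    have hBC := M.lt2 A B C hF
    have hC := M.mem A B C hF
    apply E1_two_int
    have e : 2 * (ψ A B + ψ B C - ψ A C) = 2 * ψ A B + 2 * ψ B C + -(2 * ψ A C) := by ring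
    rw [e, E1_add, E1_add, E1_neg, hψ A B hAB (hK C hC B hBC.1), hψ B C hBC hC,
      hψ A C (hAB.trans hBC) hC]
    have h1 := D.hs A B C hF
    have h2 := hη2 A B C hF
    have h3 : (D.s A B C : ℂ) * D.s A B C = 1 := by exact_mod_cast D.hs2 A B C hF
    have h4 : ‖D.ζ A C * η A C‖ = 1 := by
      rw [norm_mul, hζ1, hη1 A C (hAB.trans hBC) hC, one_mul]
    have h5 := hcc _ h4
    calc D.ζ A B * η A B * (D.ζ B C * η B C) * (starRingEnd ℂ) (D.ζ A C * η A C)
        = (D.ζ A B * D.ζ B C) * (η A B * η B C) * (starRingEnd ℂ) (D.ζ A C * η A C) := by ring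
      _ = ((D.s A B C : ℂ) * D.s A B C) *
          ((D.ζ A C * η A C) * (starRingEnd ℂ) (D.ζ A C * η A C)) := by rw [h1, h2]; ring
      _ = 1 := by rw [h3, h5, one_mul]
  · intro u hu
    obtain ⟨r, hr1, hr2, hr3⟩ := hη5 u hu
    have hr : ∀ T, u ∈ T → T ∈ K → ‖r T‖ = 1 := by
      intro T hT hTK
      by_cases h : T = {u}
      · rw [h]; exact hr2
      · exact hr1 T (lt_of_le_of_ne (by simpa using hT) (Ne.symm h)) hTK
    refine ⟨fun T => ang (D.ξ u T * r T), fun A B hA hAB hB => ?_⟩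
    have hA' : u ∈ A := by simpa using hA
    have hAK : A ∈ K := hK B hB A hAB.1
    apply E1_two_int
    have e : 2 * (ψ A B - (ang (D.ξ u B * r B) - ang (D.ξ u A * r A))) =
        2 * ψ A B + -(2 * ang (D.ξ u B * r B)) + 2 * ang (D.ξ u A * r A) := by ring
    have n1 : ‖D.ξ u B * r B‖ = 1 := by
      rw [norm_mul, D.hξ, hr B (hAB.1 hA') hB, one_mul]
    have n2 : ‖D.ξ u A * r A‖ = 1 := by
      rw [norm_mul, D.hξ, hr A hA' hAK, one_mul]
    show E1 (2 * (ψ A B - (ang (D.ξ u B * r B) - ang (D.ξ u A * r A)))) = 1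
    rw [e, E1_add, E1_add, E1_neg, hψ A B hAB hB, E1_ang n1, E1_ang n2,
      hr3 A B hA' hAB hB, D.hζσ u hu A B hA' hAB hB]
    have h3 : (D.σ u A B : ℂ) * D.σ u A B = 1 := by exact_mod_cast D.hσ u hu A B hA' hAB hB
    have h5 := hcc _ n1
    have h6 := hcc _ n2
    calc (D.σ u A B : ℂ) * ((starRingEnd ℂ) (D.ξ u A) * D.ξ u B) *
          ((D.σ u A B : ℂ) * ((starRingEnd ℂ) (r A) * r B)) *
          (starRingEnd ℂ) (D.ξ u B * r B) * (D.ξ u A * r A)
        = ((D.σ u A B : ℂ) * D.σ u A B) *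
          ((D.ξ u B * r B) * (starRingEnd ℂ) (D.ξ u B * r B)) *
          ((D.ξ u A * r A) * (starRingEnd ℂ) (D.ξ u A * r A)) := by
          simp only [map_mul]; ring
      _ = 1 := by rw [h3, h5, h6]; ring
  · refine ⟨0, fun A B hA hAB hB => ?_⟩
    have hA' : w ∈ A := by simpa using hA
    apply E1_two_int
    simp only [Pi.zero_apply, sub_zero]
    rw [hψ A B hAB hB, hη4 A B hA' hAB hB, hcc _ (hζ1 A B)]
  · refine ⟨fun T => - lh T, fun A B hA hAB hB => ?_⟩
    have hA' : v ∈ A := by simpa using hA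
    apply E1_two_int
    have e : 2 * (ψ A B - χ A B - (-lh B - -lh A)) = 2 * ψ A B + -(χ1 A B + χ1 A B) := by
      simp only [χ1]; ring
    rw [e, E1_add, E1_neg, E1_add, hψ A B hAB hB, hη3 A B hA' hAB hB]
    have h7 : E1 (χ1 A B) = D.ζ A B := rfl
    rw [h7]
    have n1 : ‖D.ζ A B * D.ζ A B‖ = 1 := by rw [norm_mul, hζ1, one_mul]
    exact hcc _ n1

end Cox957
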